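import Pool.Agent.J6H2.WM.Defs

/-!
# Exponentials and the Weyl element
-/

set_option autoImplicit false
set_option linter.unusedSectionVars false

namespace Pool.Agent.J6H2.WM

open Module Polynomial

universe u v

variable {K : Type u} {V : Type v} [Field K] [CharZero K] [AddCommGroup V] [Module K V]
  [FiniteDimensional K V]

omit [CharZero K] [FiniteDimensional K V] in
lemma comm_pow1 {a x y : End K V} (h : x * a = a * x + y) (hy : y * a = a * y) (i : ℕ) :
    x * a ^ (i + 1) = a ^ (i + 1) * x + ((i + 1 : ℕ) : K) • (a ^ i * y) := by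
  have hy' : ∀ j, y * a ^ j = a ^ j * y := fun j => by
    induction j with
    | zero => simp
    | succ j ih => rw [pow_succ, ← mul_assoc, ih, mul_assoc, hy, ← mul_assoc]
  induction i with
  | zero => simpa using h
  | succ i ih =>
    rw [pow_succ a (i + 1), ← mul_assoc, ih, add_mul, mul_assoc, h, smul_mul_assoc, mul_assoc, hy,
      mul_add, ← mul_assoc, ← mul_assoc, ← pow_succ, ← pow_succ, add_assoc]
    congr 1
    push_cast
    rw [add_smul ((i : K) + 1) 1, one_smul, add_comm]

lemma nil_pow {a : End K V} (ha : IsNilpotent a) {i : ℕ} (hi : finrank K V ≤ i) : a ^ i = 0 := by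
  have h := ha.charpoly_eq_X_pow_finrank
  have h2 := LinearMap.aeval_self_charpoly a
  rw [h, map_pow, aeval_X] at h2
  obtain ⟨j, rfl⟩ := Nat.exists_eq_add_of_le hi
  rw [pow_add, h2, zero_mul]

lemma ex_comm1 {a x y : End K V} (ha : IsNilpotent a) (h : x * a = a * x + y)
    (hy : y * a = a * y) : x * ex a = ex a * (x + y) := by
  unfold ex
  set M := finrank K V with hM
  rw [mul_add, Finset.mul_sum, Finset.sum_mul, Finset.sum_mul]
  have h1 : ∑ i ∈ Finset.range (M + 2), ((i.factorial : K)⁻¹) • a ^ i * y =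
      ∑ i ∈ Finset.range (M + 1), ((i.factorial : K)⁻¹) • (a ^ i * y) := by
    rw [Finset.sum_range_succ, nil_pow ha (by omega), smul_zero, zero_mul, add_zero]
    exact Finset.sum_congr rfl fun i _ => smul_mul_assoc _ _ _
  rw [h1, Finset.sum_range_succ', Finset.sum_range_succ' (fun i => ((i.factorial : K)⁻¹) • a ^ i * x)]
  simp only [pow_zero, Nat.factorial_zero, Nat.cast_one, inv_one, one_smul, mul_one, one_mul]
  rw [add_right_comm, ← Finset.sum_add_distrib]
  congr 1
  refine Finset.sum_congr rfl fun i _ => ?_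
  rw [mul_smul_comm, comm_pow1 h hy, smul_add, smul_mul_assoc, smul_smul]
  congr 2
  have : ((i : K) + 1) ≠ 0 := by exact_mod_cast Nat.succ_ne_zero i
  have h3 : (i.factorial : K) ≠ 0 := by exact_mod_cast i.factorial_ne_zero
  rw [Nat.factorial_succ]
  push_cast
  field_simp

lemma ex_comm0 {a x : End K V} (h : x * a = a * x) : x * ex a = ex a * x := by
  have h' : ∀ j, x * a ^ j = a ^ j * x := fun j => by
    induction j with
    | zero => simp
    | succ j ih => rw [pow_succ, ← mul_assoc, ih, mul_assoc, h, ← mul_assoc]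
  unfold ex
  rw [Finset.mul_sum, Finset.sum_mul]
  exact Finset.sum_congr rfl fun i _ => by rw [mul_smul_comm, h', smul_mul_assoc]

lemma comm_pow2 {a x y z : End K V} (h : x * a = a * x + y) (hy : y * a = a * y + z)
    (hz : z * a = a * z) (i : ℕ) :
    x * a ^ (i + 1) = a ^ (i + 1) * x + ((i + 1 : ℕ) : K) • (a ^ i * y) +
      (((i + 1 : ℕ) : K) * (i : K) / 2) • (a ^ (i - 1) * z) := by
  induction i with
  | zero => simpa using h
  | succ i ih =>
    have hz1 : a ^ (i - 1) * z * a = a ^ (i - 1) * a * z := by rw [mul_assoc, hz, ← mul_assoc]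
    have h2 : (((i + 1 : ℕ) : K) * (i : K) / 2) • (a ^ (i - 1) * a * z) =
        (((i + 1 : ℕ) : K) * (i : K) / 2) • (a ^ i * z) := by
      rcases i with _ | i
      · simp
      · rw [Nat.add_sub_cancel, ← pow_succ]
    rw [pow_succ a (i + 1), ← mul_assoc, ih, add_mul, add_mul, mul_assoc, h, smul_mul_assoc,
      mul_assoc, hy, smul_mul_assoc, hz1, h2, mul_add, mul_add, ← mul_assoc, ← mul_assoc,
      ← pow_succ, ← pow_succ, smul_add, Nat.add_sub_cancel]
    have e1 : (((i + 1 + 1 : ℕ) : K) * ((i + 1 : ℕ) : K) / 2) =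
        ((i + 1 : ℕ) : K) + ((i + 1 : ℕ) : K) * (i : K) / 2 := by
      push_cast; ring
    have e2 : (((i + 1 + 1 : ℕ)) : K) = 1 + ((i + 1 : ℕ) : K) := by push_cast; ring
    rw [e1, e2, add_smul, add_smul, one_smul]
    abel

lemma ex_comm2 {a x y z : End K V} (ha : IsNilpotent a) (h : x * a = a * x + y)
    (hy : y * a = a * y + z) (hz : z * a = a * z) :
    x * ex a = ex a * (x + y + (2⁻¹ : K) • z) := by
  unfold ex
  set M := finrank K V with hM
  rw [mul_add, mul_add, Finset.mul_sum, Finset.sum_mul, Finset.sum_mul, Finset.sum_mul]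
  have h1 : ∑ i ∈ Finset.range (M + 2), ((i.factorial : K)⁻¹) • a ^ i * y =
      ∑ i ∈ Finset.range (M + 1), ((i.factorial : K)⁻¹) • (a ^ i * y) := by
    rw [Finset.sum_range_succ, nil_pow ha (by omega), smul_zero, zero_mul, add_zero]
    exact Finset.sum_congr rfl fun i _ => smul_mul_assoc _ _ _
  have h2 : ∑ i ∈ Finset.range (M + 2), ((i.factorial : K)⁻¹) • a ^ i * (2⁻¹ : K) • z =
      ∑ i ∈ Finset.range (M + 1), (((i + 1).factorial : K)⁻¹ * (((i + 1 : ℕ) : K) * (i : K) / 2)) •
        (a ^ (i - 1) * z) := by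
    rw [Finset.sum_range_succ, Finset.sum_range_succ, nil_pow ha (by omega : finrank K V ≤ M + 1),
      nil_pow ha (by omega : finrank K V ≤ M), smul_zero, smul_zero, zero_mul,
      add_zero, add_zero, Finset.sum_range_succ']
    simp only [Nat.cast_zero, mul_zero, zero_div, zero_smul, add_zero, Nat.add_sub_cancel]
    refine Finset.sum_congr rfl fun i _ => ?_
    rw [smul_mul_assoc, mul_smul_comm, smul_smul]
    congr 1
    have h3 : (i.factorial : K) ≠ 0 := by exact_mod_cast i.factorial_ne_zero
    have h4 : ((i : K) + 1) ≠ 0 := by exact_mod_cast Nat.succ_ne_zero i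
    have h5 : ((i : K) + 1 + 1) ≠ 0 := by exact_mod_cast Nat.succ_ne_zero (i + 1)
    rw [Nat.factorial_succ (i + 1), Nat.factorial_succ i]
    push_cast
    field_simp
  rw [h1, h2, Finset.sum_range_succ',
    Finset.sum_range_succ' (fun i => ((i.factorial : K)⁻¹) • a ^ i * x)]
  simp only [pow_zero, Nat.factorial_zero, Nat.cast_one, inv_one, one_smul, mul_one, one_mul]
  rw [add_right_comm _ x, add_right_comm _ x, ← Finset.sum_add_distrib, ← Finset.sum_add_distrib]
  congr 1
  refine Finset.sum_congr rfl fun i _ => ?_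
  rw [mul_smul_comm, comm_pow2 h hy hz, smul_add, smul_add, smul_mul_assoc, smul_smul, smul_smul]
  congr 3
  have : ((i : K) + 1) ≠ 0 := by exact_mod_cast Nat.succ_ne_zero i
  have h3 : (i.factorial : K) ≠ 0 := by exact_mod_cast i.factorial_ne_zero
  rw [Nat.factorial_succ]
  push_cast
  field_simp

lemma ex_unit {a : End K V} (ha : IsNilpotent a) : IsUnit (ex a) := by
  have h1 : ex a = 1 + a * ∑ i ∈ Finset.range (finrank K V + 1),
      (((i + 1).factorial : K)⁻¹) • a ^ i := by
    unfold ex
    rw [Finset.sum_range_succ', Finset.mul_sum]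
    simp only [pow_zero, Nat.factorial_zero, Nat.cast_one, inv_one, one_smul]
    rw [add_comm]
    congr 1
    exact Finset.sum_congr rfl fun i _ => by rw [mul_smul_comm, ← pow_succ']
  rw [h1]
  refine IsNilpotent.isUnit_one_add ?_
  refine Commute.isNilpotent_mul_right ?_ ha
  refine Commute.sum_right _ _ _ fun i _ => ?_
  exact (Commute.pow_right rfl i).smul_right _

end Pool.Agent.J6H2.WM
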