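import Pool.Agent.J6H2.WM.Weyl

/-!
# Relations in a bigraded Lefschetz module with differential
-/

set_option autoImplicit false
set_option linter.unusedSectionVars false

namespace Pool.Agent.J6H2.WM

open Module Polynomial

universe u v

variable {K : Type u} {V : Type v} [Field K] [CharZero K] [AddCommGroup V] [Module K V]
  [FiniteDimensional K V] {O : Ops K V} {q n : ℕ}

lemma jac {A : Type*} [Ring A] (a b c : A) : a * (b * c - c * b) - (b * c - c * b) * a =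
    (a * b - b * a) * c - c * (a * b - b * a) + (b * (a * c - c * a) - (a * c - c * a) * b) := by
  noncomm_ring

/-! ### The grading -/

lemma ext_p (hG : O.Graded n) {A B : End K V} (h : ∀ r s, A * O.p r s = B * O.p r s) : A = B := by
  rw [← mul_one A, ← mul_one B, ← hG.total]
  simp only [Finset.mul_sum, h]

lemma ext_p' (hG : O.Graded n) {A B : End K V} (h : ∀ r s, O.p r s * A = O.p r s * B) : A = B := by
  rw [← one_mul A, ← one_mul B, ← hG.total]
  simp only [Finset.sum_mul, h]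

lemma nil_of_deg (hG : O.Graded n) {A : End K V} {c : ℤ} (hc : c = 2 ∨ c = -2)
    (h : ∀ r s, A * O.p r s = O.p (r + c) s * A) : IsNilpotent A := by
  have h1 : ∀ (k : ℕ) r s, A ^ k * O.p r s = O.p (r + c * k) s * A ^ k := by
    intro k
    induction k with
    | zero => intro r s; simp
    | succ k ih =>
      intro r s
      rw [pow_succ, mul_assoc, h, ← mul_assoc, ih, mul_assoc]
      congr 2
      push_cast
      ring
  refine ⟨n + 1, ext_p hG fun r s => ?_⟩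
  rw [zero_mul]
  by_cases hr : (n : ℤ) < |r|
  · rw [hG.bound r s (Or.inl hr), mul_zero]
  · rw [h1, hG.bound _ s (Or.inl ?_), zero_mul]
    push Not at hr
    rw [abs_le] at hr
    rw [lt_abs]
    push_cast
    rcases hc with rfl | rfl <;> omega

lemma nil_of_deg' (hG : O.Graded n) {A : End K V} {c : ℤ} (hc : c = 2 ∨ c = -2)
    (h : ∀ r s, A * O.p r s = O.p r (s + c) * A) : IsNilpotent A := by
  have h1 : ∀ (k : ℕ) r s, A ^ k * O.p r s = O.p r (s + c * k) * A ^ k := by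
    intro k
    induction k with
    | zero => intro r s; simp
    | succ k ih =>
      intro r s
      rw [pow_succ, mul_assoc, h, ← mul_assoc, ih, mul_assoc]
      congr 2
      push_cast
      ring
  refine ⟨n + 1, ext_p hG fun r s => ?_⟩
  rw [zero_mul]
  by_cases hs : (n : ℤ) < |s|
  · rw [hG.bound r s (Or.inr hs), mul_zero]
  · rw [h1, hG.bound r _ (Or.inr ?_), zero_mul]
    push Not at hs
    rw [abs_le] at hs
    rw [lt_abs]
    push_cast
    rcases hc with rfl | rfl <;> omega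

/-- `A` is homogeneous of degree `(c, e)` -/
def Deg (O : Ops K V) (A : End K V) (c e : ℤ) : Prop :=
  ∀ r s, A * O.p r s = O.p (r + c) (s + e) * A

lemma Deg.mul {A B : End K V} {c e c' e' : ℤ} (hA : Deg O A c e) (hB : Deg O B c' e') :
    Deg O (A * B) (c + c') (e + e') := fun r s => by
  rw [mul_assoc, hB r s, ← mul_assoc, hA _ _, mul_assoc]
  congr 2 <;> ring

lemma Deg.sub {A B : End K V} {c e : ℤ} (hA : Deg O A c e) (hB : Deg O B c e) :
    Deg O (A - B) c e := fun r s => by rw [sub_mul, mul_sub, hA r s, hB r s]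

lemma Deg.add {A B : End K V} {c e : ℤ} (hA : Deg O A c e) (hB : Deg O B c e) :
    Deg O (A + B) c e := fun r s => by rw [add_mul, mul_add, hA r s, hB r s]

lemma Deg.comm {A : End K V} (hA : Deg O A 0 0) (r s : ℤ) : A * O.p r s = O.p r s * A := by
  rw [hA r s, add_zero, add_zero]

lemma degN (hG : O.Graded n) : Deg O O.N 2 0 := fun r s => by rw [hG.degN, add_zero]
lemma degN' (hG : O.Graded n) : Deg O O.N' (-2) 0 := fun r s => by
  rw [hG.degN', add_zero, sub_eq_add_neg]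
lemma degL (hG : O.Graded n) : Deg O O.L 0 2 := fun r s => by rw [hG.degL, add_zero]
lemma degΛ (hG : O.Graded n) : Deg O O.Λ 0 (-2) := fun r s => by
  rw [hG.degΛ, add_zero, sub_eq_add_neg]
lemma degd (hG : O.Graded n) : Deg O O.d 1 1 := fun r s => hG.degd r s

section

variable (h : O.Valid q n)
include h

lemma nilN : IsNilpotent O.N := nil_of_deg h.gr (Or.inl rfl) h.gr.degN
lemma nilN' : IsNilpotent O.N' := nil_of_deg h.gr (Or.inr rfl) fun r s => by
  rw [h.gr.degN' r s, sub_eq_add_neg]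
lemma nilL : IsNilpotent O.L := nil_of_deg' h.gr (Or.inl rfl) h.gr.degL
lemma nilΛ : IsNilpotent O.Λ := nil_of_deg' h.gr (Or.inr rfl) fun r s => by
  rw [h.gr.degΛ r s, sub_eq_add_neg]

/-! ### The semisimple elements -/

lemma HN_N : (O.N * O.N' - O.N' * O.N) * O.N - O.N * (O.N * O.N' - O.N' * O.N) = (2 : K) • O.N := by
  refine ext_p h.gr fun r s => ?_
  rw [sub_mul, mul_assoc _ O.N, h.gr.degN, ← mul_assoc _ (O.p _ _), h.lef.pairN, mul_assoc O.N,
    h.lef.pairN, smul_mul_assoc, mul_smul_comm, smul_mul_assoc, h.gr.degN, ← sub_smul]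
  congr 1
  push_cast
  ring

lemma HN_N' : (O.N * O.N' - O.N' * O.N) * O.N' - O.N' * (O.N * O.N' - O.N' * O.N) =
    -((2 : K) • O.N') := by
  refine ext_p h.gr fun r s => ?_
  rw [sub_mul, mul_assoc _ O.N', h.gr.degN', ← mul_assoc _ (O.p _ _), h.lef.pairN,
    mul_assoc O.N', h.lef.pairN, smul_mul_assoc, mul_smul_comm, neg_mul, smul_mul_assoc,
    h.gr.degN', ← sub_smul, ← neg_smul]
  congr 1
  push_cast
  ring

lemma HL_L : (O.L * O.Λ - O.Λ * O.L) * O.L - O.L * (O.L * O.Λ - O.Λ * O.L) = (2 : K) • O.L := by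
  refine ext_p h.gr fun r s => ?_
  rw [sub_mul, mul_assoc _ O.L, h.gr.degL, ← mul_assoc _ (O.p _ _), h.lef.pairL, mul_assoc O.L,
    h.lef.pairL, smul_mul_assoc, mul_smul_comm, smul_mul_assoc, h.gr.degL, ← sub_smul]
  congr 1
  push_cast
  ring

lemma HL_Λ : (O.L * O.Λ - O.Λ * O.L) * O.Λ - O.Λ * (O.L * O.Λ - O.Λ * O.L) =
    -((2 : K) • O.Λ) := by
  refine ext_p h.gr fun r s => ?_
  rw [sub_mul, mul_assoc _ O.Λ, h.gr.degΛ, ← mul_assoc _ (O.p _ _), h.lef.pairL,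
    mul_assoc O.Λ, h.lef.pairL, smul_mul_assoc, mul_smul_comm, neg_mul, smul_mul_assoc,
    h.gr.degΛ, ← sub_smul, ← neg_smul]
  congr 1
  push_cast
  ring

lemma HN_d : (O.N * O.N' - O.N' * O.N) * O.d - O.d * (O.N * O.N' - O.N' * O.N) = O.d := by
  refine ext_p h.gr fun r s => ?_
  rw [sub_mul, mul_assoc _ O.d, h.gr.degd, ← mul_assoc _ (O.p _ _), h.lef.pairN, mul_assoc O.d,
    h.lef.pairN, smul_mul_assoc, mul_smul_comm, h.gr.degd, ← sub_smul]
  have : (((r + 1 : ℤ) : K) - (r : K)) = 1 := by push_cast; ring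
  rw [this, one_smul]

lemma HL_d : (O.L * O.Λ - O.Λ * O.L) * O.d - O.d * (O.L * O.Λ - O.Λ * O.L) = O.d := by
  refine ext_p h.gr fun r s => ?_
  rw [sub_mul, mul_assoc _ O.d, h.gr.degd, ← mul_assoc _ (O.p _ _), h.lef.pairL, mul_assoc O.d,
    h.lef.pairL, smul_mul_assoc, mul_smul_comm, h.gr.degd, ← sub_smul]
  have : (((s + 1 : ℤ) : K) - (s : K)) = 1 := by push_cast; ring
  rw [this, one_smul]

end

/-- `[N', d]` -/
def Ops.d1 (O : Ops K V) : End K V := O.N' * O.d - O.d * O.N'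

/-- `[Λ, d]` -/
def Ops.d2 (O : Ops K V) : End K V := O.Λ * O.d - O.d * O.Λ

lemma δ_eq (O : Ops K V) : O.δ = O.Λ * O.d1 - O.d1 * O.Λ := rfl

section

variable (h : O.Valid q n)
include h

lemma N_d1 : O.N * O.d1 - O.d1 * O.N = O.d := by
  unfold Ops.d1
  rw [jac, HN_d h, h.dif.dN, sub_self]
  simp

lemma N'_d1 : O.N' * O.d1 = O.d1 * O.N' :=
  hw1 (HN_N h) (HN_N' h) (HN_d h) h.dif.dN.symm

lemma L_d1 : O.L * O.d1 = O.d1 * O.L := by
  rw [← sub_eq_zero]
  unfold Ops.d1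
  rw [jac, h.dif.dL, h.lef.N'L, sub_self, sub_self]
  simp

lemma HL_d1 : (O.L * O.Λ - O.Λ * O.L) * O.d1 - O.d1 * (O.L * O.Λ - O.Λ * O.L) = O.d1 := by
  have h2 : Commute (O.L * O.Λ - O.Λ * O.L) O.N' := by
    have a : Commute O.N' O.L := h.lef.N'L
    have b : Commute O.N' O.Λ := h.lef.N'Λ
    exact ((a.mul_right b).sub_right (b.mul_right a)).symm
  have h3 := HL_d h
  unfold Ops.d1
  rw [jac _ O.N' O.d, h2.eq, h3, sub_self]
  simp

lemma Λ_δ : O.Λ * O.δ = O.δ * O.Λ := by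
  rw [δ_eq]
  exact hw1 (HL_L h) (HL_Λ h) (HL_d1 h) (L_d1 h)

lemma L_δ : O.L * O.δ - O.δ * O.L = O.d1 := by
  rw [δ_eq, jac, HL_d1 h, L_d1 h, sub_self]
  simp

lemma Λ_d2 : O.Λ * O.d2 = O.d2 * O.Λ :=
  hw1 (HL_L h) (HL_Λ h) (HL_d h) h.dif.dL.symm

lemma L_d2 : O.L * O.d2 - O.d2 * O.L = O.d := by
  unfold Ops.d2
  rw [jac, HL_d h, h.dif.dL, sub_self]
  simp

/-! ### The Weyl element -/

lemma d_w : O.d * O.w = O.w * O.δ := by
  have h1 := (weyl1 (nilN h) (nilN' h) h.dif.dN.symm rfl (N_d1 h) (N'_d1 h)).1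
  have h2 := (weyl1 (nilL h) (nilΛ h) (L_d1 h) (δ_eq O) (L_δ h) (Λ_δ h)).1
  change O.d * (ex O.N * ex (-O.N') * ex O.N) = (ex O.N * ex (-O.N') * ex O.N) * O.d1 at h1
  unfold Ops.w
  rw [← mul_assoc, h1, mul_assoc, h2, ← mul_assoc]

lemma Λ_exN : O.Λ * (ex O.N * ex (-O.N') * ex O.N) = (ex O.N * ex (-O.N') * ex O.N) * O.Λ := by
  have h1 : O.Λ * ex O.N = ex O.N * O.Λ := ex_comm0 h.lef.NΛ.symm
  have h2 : O.Λ * ex (-O.N') = ex (-O.N') * O.Λ :=
    ex_comm0 (by rw [mul_neg, neg_mul, h.lef.N'Λ])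
  rw [← mul_assoc, ← mul_assoc, h1, mul_assoc (ex O.N), h2, mul_assoc (ex O.N),
    mul_assoc (ex (-O.N')), h1, ← mul_assoc, ← mul_assoc, mul_assoc]

lemma δ_w : O.δ * O.w = O.w * O.d := by
  have h1 := (weyl1 (nilN h) (nilN' h) h.dif.dN.symm rfl (N_d1 h) (N'_d1 h)).2
  have h2 := (weyl1 (nilL h) (nilΛ h) h.dif.dL.symm rfl (L_d2 h) (Λ_d2 h)).2
  have h3 := Λ_exN h
  unfold Ops.w
  generalize ex O.N * ex (-O.N') * ex O.N = A at *
  generalize ex O.L * ex (-O.Λ) * ex O.L = B at *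
  change O.d1 * A = -(A * O.d) at h1
  change O.d2 * B = -(B * O.d) at h2
  have h4 : O.δ * A = -(A * O.d2) := by
    have e1 : O.δ * A = O.Λ * (O.d1 * A) - O.d1 * (O.Λ * A) := by rw [δ_eq]; noncomm_ring
    have e2 : O.Λ * (-(A * O.d)) - O.d1 * (A * O.Λ) = -((O.Λ * A) * O.d) - (O.d1 * A) * O.Λ := by
      noncomm_ring
    rw [e1, h1, h3, e2, h3, h1]
    unfold Ops.d2
    noncomm_ring
  rw [← mul_assoc, h4, neg_mul, mul_assoc, h2, mul_neg, neg_neg, mul_assoc]

lemma w_unit : IsUnit O.w := by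
  unfold Ops.w
  exact ((((ex_unit (nilN h)).mul (ex_unit (nilN' h).neg)).mul (ex_unit (nilN h)))).mul
    (((ex_unit (nilL h)).mul (ex_unit (nilΛ h).neg)).mul (ex_unit (nilL h)))

lemma w_inj {x : V} (hx : O.w x = 0) : x = 0 := by
  obtain ⟨u, hu⟩ := w_unit h
  have h1 : (↑u⁻¹ : End K V) (O.w x) = x := by
    rw [← hu, ← Module.End.mul_apply, Units.inv_mul, Module.End.one_apply]
  rw [← h1, hx, map_zero]

lemma w_surj (y : V) : ∃ x, O.w x = y := by
  obtain ⟨u, hu⟩ := w_unit h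
  refine ⟨(↑u⁻¹ : End K V) y, ?_⟩
  rw [← hu, ← Module.End.mul_apply, Units.mul_inv, Module.End.one_apply]

/-- an operator which commutes with `N, N', L, Λ` commutes with `w` -/
lemma comm_w {A : End K V} (h1 : A * O.N = O.N * A) (h2 : A * O.N' = O.N' * A)
    (h3 : A * O.L = O.L * A) (h4 : A * O.Λ = O.Λ * A) : A * O.w = O.w * A := by
  have e1 := ex_comm0 h1
  have e2 : A * ex (-O.N') = ex (-O.N') * A := ex_comm0 (by rw [mul_neg, neg_mul, h2])
  have e3 := ex_comm0 h3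
  have e4 : A * ex (-O.Λ) = ex (-O.Λ) * A := ex_comm0 (by rw [mul_neg, neg_mul, h4])
  have c1 : Commute A (ex O.N * ex (-O.N') * ex O.N * (ex O.L * ex (-O.Λ) * ex O.L)) :=
    ((Commute.mul_right (Commute.mul_right e1 e2) e1)).mul_right
      (Commute.mul_right (Commute.mul_right e3 e4) e3)
  exact c1

lemma HN_w : (O.N * O.N' - O.N' * O.N) * O.w = -(O.w * (O.N * O.N' - O.N' * O.N)) := by
  have h1 := weylh (nilN h) (nilN' h) rfl (HN_N h) (HN_N' h)
  have hL : Commute (O.N * O.N' - O.N' * O.N) O.L := by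
    have a : Commute O.N O.L := h.lef.NL
    have b : Commute O.N' O.L := h.lef.N'L
    exact (a.mul_left b).sub_left (b.mul_left a)
  have hΛ : Commute (O.N * O.N' - O.N' * O.N) O.Λ := by
    have a : Commute O.N O.Λ := h.lef.NΛ
    have b : Commute O.N' O.Λ := h.lef.N'Λ
    exact (a.mul_left b).sub_left (b.mul_left a)
  generalize O.N * O.N' - O.N' * O.N = H at *
  have c2 : Commute H (ex O.L * ex (-O.Λ) * ex O.L) :=
    Commute.mul_right (Commute.mul_right (ex_comm0 hL.eq)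
      (ex_comm0 hΛ.neg_right.eq)) (ex_comm0 hL.eq)
  unfold Ops.w
  rw [← mul_assoc, h1, neg_mul, mul_assoc, c2.eq, ← mul_assoc]

lemma HL_w : (O.L * O.Λ - O.Λ * O.L) * O.w = -(O.w * (O.L * O.Λ - O.Λ * O.L)) := by
  have h1 := weylh (nilL h) (nilΛ h) rfl (HL_L h) (HL_Λ h)
  have hL : Commute (O.L * O.Λ - O.Λ * O.L) O.N := by
    have a : Commute O.L O.N := h.lef.NL.symm
    have b : Commute O.Λ O.N := h.lef.NΛ.symm
    exact (a.mul_left b).sub_left (b.mul_left a)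
  have hΛ : Commute (O.L * O.Λ - O.Λ * O.L) O.N' := by
    have a : Commute O.L O.N' := h.lef.N'L.symm
    have b : Commute O.Λ O.N' := h.lef.N'Λ.symm
    exact (a.mul_left b).sub_left (b.mul_left a)
  generalize O.L * O.Λ - O.Λ * O.L = H at *
  have c2 : Commute H (ex O.N * ex (-O.N') * ex O.N) :=
    Commute.mul_right (Commute.mul_right (ex_comm0 hL.eq)
      (ex_comm0 hΛ.neg_right.eq)) (ex_comm0 hL.eq)
  unfold Ops.w
  rw [← mul_assoc, c2.eq, mul_assoc, h1, mul_neg, ← mul_assoc]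

lemma p_HN (r s : ℤ) : O.p r s * (O.N * O.N' - O.N' * O.N) = (r : K) • O.p r s := by
  rw [← h.lef.pairN r s]
  have a : Deg O (O.N * O.N') 0 0 := (degN h.gr).mul (degN' h.gr)
  have b : Deg O (O.N' * O.N) 0 0 := (degN' h.gr).mul (degN h.gr)
  exact ((a.sub b).comm r s).symm

lemma p_HL (r s : ℤ) : O.p r s * (O.L * O.Λ - O.Λ * O.L) = (s : K) • O.p r s := by
  rw [← h.lef.pairL r s]
  have a : Deg O (O.L * O.Λ) 0 0 := (degL h.gr).mul (degΛ h.gr)
  have b : Deg O (O.Λ * O.L) 0 0 := (degΛ h.gr).mul (degL h.gr)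
  exact ((a.sub b).comm r s).symm

lemma pwp {r s r' s' : ℤ} (hne : r' ≠ -r ∨ s' ≠ -s) : O.p r' s' * O.w * O.p r s = 0 := by
  have h1 : (r' : K) • (O.p r' s' * O.w * O.p r s) = -((r : K) • (O.p r' s' * O.w * O.p r s)) := by
    rw [← smul_mul_assoc, ← smul_mul_assoc, ← p_HN h, mul_assoc (O.p r' s'), HN_w h, mul_neg,
      neg_mul, mul_assoc, mul_assoc, h.lef.pairN, mul_smul_comm, mul_smul_comm, mul_assoc]
  have h2 : (s' : K) • (O.p r' s' * O.w * O.p r s) = -((s : K) • (O.p r' s' * O.w * O.p r s)) := by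
    rw [← smul_mul_assoc, ← smul_mul_assoc, ← p_HL h, mul_assoc (O.p r' s'), HL_w h, mul_neg,
      neg_mul, mul_assoc, mul_assoc, h.lef.pairL, mul_smul_comm, mul_smul_comm, mul_assoc]
  rw [eq_neg_iff_add_eq_zero, ← add_smul, smul_eq_zero] at h1 h2
  rcases hne with hne | hne
  · refine h1.resolve_left fun h0 => hne ?_
    have : ((r' + r : ℤ) : K) = 0 := by push_cast; exact h0
    have := Int.cast_eq_zero.1 this
    omega
  · refine h2.resolve_left fun h0 => hne ?_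
    have : ((s' + s : ℤ) : K) = 0 := by push_cast; exact h0
    have := Int.cast_eq_zero.1 this
    omega

lemma sum_single {A : End K V} {a b : ℤ} (hA : ∀ r s, (r ≠ a ∨ s ≠ b) → O.p r s * A = 0) :
    A = O.p a b * A := by
  refine ext_p' h.gr fun r s => ?_
  by_cases hrs : r = a ∧ s = b
  · obtain ⟨rfl, rfl⟩ := hrs
    rw [← mul_assoc, h.gr.idem]
  · rw [not_and_or] at hrs
    rw [hA r s hrs, ← mul_assoc, h.gr.orth r s a b hrs, zero_mul]

lemma sum_single' {A : End K V} {a b : ℤ} (hA : ∀ r s, (r ≠ a ∨ s ≠ b) → A * O.p r s = 0) :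
    A = A * O.p a b := by
  refine ext_p h.gr fun r s => ?_
  by_cases hrs : r = a ∧ s = b
  · obtain ⟨rfl, rfl⟩ := hrs
    rw [mul_assoc, h.gr.idem]
  · rw [not_and_or] at hrs
    rw [hA r s hrs, mul_assoc, h.gr.orth a b r s (by
      rcases hrs with h1 | h1
      · exact Or.inl (Ne.symm h1)
      · exact Or.inr (Ne.symm h1)), mul_zero]

lemma w_p (r s : ℤ) : O.w * O.p r s = O.p (-r) (-s) * O.w := by
  have h1 : O.w * O.p r s = O.p (-r) (-s) * (O.w * O.p r s) :=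
    sum_single h fun r' s' hne => by rw [← mul_assoc]; exact pwp h hne
  have h2 : O.p (-r) (-s) * O.w = (O.p (-r) (-s) * O.w) * O.p r s :=
    sum_single' h fun r' s' hne => pwp h (by
      rcases hne with h1 | h1
      · exact Or.inl fun h2 => h1 (by omega)
      · exact Or.inr fun h2 => h1 (by omega))
  rw [h1, h2, mul_assoc]

lemma w_π : O.w * O.π = O.π * O.w :=
  (comm_w h h.proj.N h.proj.N' h.proj.L h.proj.Λ).symm

/-! ### The Laplace operator -/

lemma N_δ : O.N * O.δ - O.δ * O.N = O.d2 := by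
  rw [δ_eq, jac, N_d1 h, h.lef.NΛ, sub_self]
  unfold Ops.d2
  simp

lemma N_Δ : O.N * O.Δ = O.Δ * O.N := by
  have h1 : O.N * O.δ = O.δ * O.N + O.d2 := by rw [← N_δ h]; abel
  have h2 := h.dif.dN
  have h3 := h.dif.dd
  have h4 : O.d * O.d2 + O.d2 * O.d = 0 := by
    unfold Ops.d2
    have e1 : O.d * (O.Λ * O.d - O.d * O.Λ) + (O.Λ * O.d - O.d * O.Λ) * O.d
        = O.Λ * (O.d * O.d) - (O.d * O.d) * O.Λ := by noncomm_ring
    rw [e1, h3]
    simp
  unfold Ops.Δ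
  have e1 : O.N * (O.d * O.δ + O.δ * O.d) = (O.N * O.d) * O.δ + (O.N * O.δ) * O.d := by
    noncomm_ring
  have e2 : O.d * O.N * O.δ + (O.δ * O.N + O.d2) * O.d =
      O.d * (O.N * O.δ) + O.δ * (O.N * O.d) + O.d2 * O.d := by noncomm_ring
  have e3 : O.d * (O.δ * O.N + O.d2) + O.δ * (O.d * O.N) + O.d2 * O.d =
      (O.d * O.δ + O.δ * O.d) * O.N + (O.d * O.d2 + O.d2 * O.d) := by noncomm_ring
  rw [e1, ← h2, h1, e2, h1, ← h2, e3, h4, add_zero]

lemma d_Δ : O.d * O.Δ = O.Δ * O.d := by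
  have h3 := h.dif.dd
  unfold Ops.Δ
  have e1 : O.d * (O.d * O.δ + O.δ * O.d) = (O.d * O.d) * O.δ + O.d * O.δ * O.d := by
    noncomm_ring
  have e2 : (O.d * O.δ + O.δ * O.d) * O.d = O.d * O.δ * O.d + O.δ * (O.d * O.d) := by
    noncomm_ring
  rw [e1, e2, h3, zero_mul, mul_zero, zero_add, add_zero]

lemma deg1 : Deg O O.d1 (-1) 1 := by
  have a : Deg O (O.N' * O.d) (-1) 1 := (degN' h.gr).mul (degd h.gr)
  have b : Deg O (O.d * O.N') (-1) 1 := (degd h.gr).mul (degN' h.gr)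
  exact a.sub b

lemma degδ : Deg O O.δ (-1) (-1) := by
  have a : Deg O (O.Λ * O.d1) (-1) (-1) := (degΛ h.gr).mul (deg1 h)
  have b : Deg O (O.d1 * O.Λ) (-1) (-1) := (deg1 h).mul (degΛ h.gr)
  exact a.sub b

lemma degΔ : Deg O O.Δ 0 0 := by
  have a : Deg O (O.d * O.δ) 0 0 := (degd h.gr).mul (degδ h)
  have b : Deg O (O.δ * O.d) 0 0 := (degδ h).mul (degd h.gr)
  exact a.add b

lemma δδ : O.δ * O.δ = 0 := by
  have h1 : O.w * (O.δ * O.δ) = 0 := by
    rw [← mul_assoc, ← d_w h, mul_assoc, ← d_w h, ← mul_assoc, h.dif.dd, zero_mul]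
  have h2 := (w_unit h).mul_right_eq_zero.1 h1
  exact h2

lemma d1_π : O.π * O.d1 = O.d1 * O.π := by
  have a : Commute O.π O.N' := h.proj.N'
  have b : Commute O.π O.d := h.proj.d
  exact ((a.mul_right b).sub_right (b.mul_right a)).eq

lemma δ_π : O.π * O.δ = O.δ * O.π := by
  have a : Commute O.π O.Λ := h.proj.Λ
  have b : Commute O.π O.d1 := d1_π h
  exact ((a.mul_right b).sub_right (b.mul_right a)).eq

lemma Δ_π : O.π * O.Δ = O.Δ * O.π := by
  have a : Commute O.π O.d := h.proj.d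
  have b : Commute O.π O.δ := δ_π h
  exact ((a.mul_right b).add_right (b.mul_right a)).eq

end

end Pool.Agent.J6H2.WM
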