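import Mathlib

/-!
# The first terms of the weight spectral sequence: definitions

`X` is a smooth rigid-analytic variety of dimension `n` over a local field with residue field of `q`
elements, with a strictly semistable formal model whose special fibre is projective; `Y^(m)` is the
disjoint union of the intersections of `m` components of the special fibre. The `l`-adic weight
spectral sequence of `X` (Rapoport-Zink) has the terms

`K^{r,s} = ⊕_{k ≥ max(0,r)} H^{n+r+s-2k}(Y^(2k-r+1))(r-k)`, `E_1^{r,n+s-r} = K^{r,s}`,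

with the differential `d : K^{r,s} → K^{r+1,s+1}` (restriction and Gysin maps), the monodromy operator
`N : K^{r,s} → K^{r+2,s}(-1)`, the cup product with the class of an ample line bundle
`L : K^{r,s} → K^{r,s+2}(1)`, the Frobenius operator `F`, and the Poincare pairing `ψ` of `K^{r,s}` and
`K^{-r,-s}` with values in `K(-n)` (Saito; Guillen and Navarro Aznar: a bigraded Lefschetz module with
differential). It degenerates at `E_2`, and `⊕_r E_2^{r,n+s-r}` is the graded space of the weight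
filtration of `H^{n+s}(X)`.
-/

set_option autoImplicit false

namespace Pool.Agent.J6H2.WM

open Module Polynomial

universe u v

/-- The operators on the sum `V` of all the terms `K^{r,s}`. -/
structure Ops (K : Type u) (V : Type v) [Field K] [AddCommGroup V] [Module K V] where
  /-- the projectors onto the terms `K^{r,s}` -/
  p : ℤ → ℤ → End K V
  /-- the monodromy operator -/
  N : End K V
  /-- the companion of `N`, of degree `(-2, 0)` -/
  N' : End K V
  /-- the Lefschetz operator -/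
  L : End K V
  /-- the companion of `L`, of degree `(0, -2)` -/
  Λ : End K V
  /-- the differential -/
  d : End K V
  /-- the Frobenius operator -/
  F : End K V
  /-- the Poincare pairing -/
  ψ : LinearMap.BilinForm K V
  /-- a projector which commutes with all the operators (see `Polarised`, `SimpleOn`) -/
  π : End K V

variable {K : Type u} {V : Type v} [Field K] [AddCommGroup V] [Module K V]

/-- The projectors give a bigrading, concentrated in the degrees `|r|, |s| ≤ n`. -/
structure Ops.Graded (O : Ops K V) (n : ℕ) : Prop where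
  idem : ∀ r s, O.p r s * O.p r s = O.p r s
  orth : ∀ r s r' s', (r ≠ r' ∨ s ≠ s') → O.p r s * O.p r' s' = 0
  bound : ∀ r s, ((n : ℤ) < |r| ∨ (n : ℤ) < |s|) → O.p r s = 0
  total : ∑ r ∈ Finset.Icc (-n : ℤ) n, ∑ s ∈ Finset.Icc (-n : ℤ) n, O.p r s = 1
  degN : ∀ r s, O.N * O.p r s = O.p (r + 2) s * O.N
  degN' : ∀ r s, O.N' * O.p r s = O.p (r - 2) s * O.N'
  degL : ∀ r s, O.L * O.p r s = O.p r (s + 2) * O.L
  degΛ : ∀ r s, O.Λ * O.p r s = O.p r (s - 2) * O.Λ
  degd : ∀ r s, O.d * O.p r s = O.p (r + 1) (s + 1) * O.d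
  degF : ∀ r s, O.F * O.p r s = O.p r s * O.F
  degπ : ∀ r s, O.π * O.p r s = O.p r s * O.π

/-- `N` and `L` are commuting Lefschetz operators, with companions `N'` and `Λ`: `(N, N')` and
`(L, Λ)` are `sl₂`-pairs for the two degrees. `N ^ r` is an isomorphism from `K^{-r,s}` to
`K^{r,s}`. -/
structure Ops.Lefschetz (O : Ops K V) : Prop where
  pairN : ∀ r s, (O.N * O.N' - O.N' * O.N) * O.p r s = (r : K) • O.p r s
  pairL : ∀ r s, (O.L * O.Λ - O.Λ * O.L) * O.p r s = (s : K) • O.p r s
  NL : O.N * O.L = O.L * O.N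
  NΛ : O.N * O.Λ = O.Λ * O.N
  N'L : O.N' * O.L = O.L * O.N'
  N'Λ : O.N' * O.Λ = O.Λ * O.N'
  inj : ∀ (r : ℕ) (s : ℤ) (x : V), O.p (-r) s x = x → (O.N ^ r) x = 0 → x = 0
  surj : ∀ (r : ℕ) (s : ℤ) (y : V), O.p r s y = y → ∃ x, O.p (-r) s x = x ∧ (O.N ^ r) x = y

/-- `d` is a differential which commutes with `N` and `L`. -/
structure Ops.Differential (O : Ops K V) : Prop where
  dd : O.d * O.d = 0
  dN : O.d * O.N = O.N * O.d
  dL : O.d * O.L = O.L * O.d

/-- The Frobenius operator. (`N : K^{r,s} → K^{r+2,s}(-1)` and `L : K^{r,s} → K^{r,s+2}(1)`.) -/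
structure Ops.Frobenius (O : Ops K V) (q : ℕ) : Prop where
  inj : Function.Injective O.F
  Fd : O.F * O.d = O.d * O.F
  FN : O.N * O.F = (q : K) • (O.F * O.N)
  FN' : O.F * O.N' = (q : K) • (O.N' * O.F)
  FL : O.F * O.L = (q : K) • (O.L * O.F)
  FΛ : O.Λ * O.F = (q : K) • (O.F * O.Λ)

/-- The pairing. -/
structure Ops.Pairing (O : Ops K V) (q n : ℕ) : Prop where
  nondeg : ∀ x, (∀ y, O.ψ x y = 0) → x = 0
  p : ∀ r s x y, O.ψ (O.p r s x) y = O.ψ x (O.p (-r) (-s) y)
  N : ∀ x y, O.ψ (O.N x) y = -O.ψ x (O.N y)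
  N' : ∀ x y, O.ψ (O.N' x) y = -O.ψ x (O.N' y)
  L : ∀ x y, O.ψ (O.L x) y = -O.ψ x (O.L y)
  Λ : ∀ x y, O.ψ (O.Λ x) y = -O.ψ x (O.Λ y)
  d : ∀ x y, O.ψ (O.d x) y = O.ψ x (O.d y)
  F : ∀ x y, O.ψ (O.F x) (O.F y) = (q : K) ^ n * O.ψ x y
  π : ∀ x y, O.ψ (O.π x) y = O.ψ x (O.π y)

/-- The projector `π` commutes with all the operators. -/
structure Ops.Projector (O : Ops K V) : Prop where
  idem : O.π * O.π = O.π
  N : O.π * O.N = O.N * O.π
  N' : O.π * O.N' = O.N' * O.π
  L : O.π * O.L = O.L * O.π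
  Λ : O.π * O.Λ = O.Λ * O.π
  d : O.π * O.d = O.d * O.π
  F : O.π * O.F = O.F * O.π

/-- All the properties together. -/
structure Ops.Valid (O : Ops K V) (q n : ℕ) : Prop where
  gr : O.Graded n
  lef : O.Lefschetz
  dif : O.Differential
  frob : O.Frobenius q
  pair : O.Pairing q n
  proj : O.Projector

/-- The exponential of a nilpotent operator. -/
noncomputable def ex (a : End K V) : End K V :=
  ∑ i ∈ Finset.range (finrank K V + 2), ((i.factorial : K)⁻¹) • a ^ i

/-- The Weyl element. -/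
noncomputable def Ops.w (O : Ops K V) : End K V :=
  ex O.N * ex (-O.N') * ex O.N * (ex O.L * ex (-O.Λ) * ex O.L)

/-- The second differential `δ = [Λ, [N', d]]`. -/
def Ops.δ (O : Ops K V) : End K V :=
  O.Λ * (O.N' * O.d - O.d * O.N') - (O.N' * O.d - O.d * O.N') * O.Λ

/-- The Laplace operator. -/
def Ops.Δ (O : Ops K V) : End K V := O.d * O.δ + O.δ * O.d

/-- `y` is the adjoint of `x` for the form `ψ (a, w b)`. -/
def Ops.Adjoint (O : Ops K V) (x y : End K V) : Prop :=
  ∀ a b, O.ψ (x a) (O.w b) = O.ψ a (O.w (y b))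

/-- The image of `π` is the polarised part: the algebra over `ℚ` which is generated by the
differentials `π d` and `π δ` is finite dimensional, and its elements `x ≠ 0` satisfy Weil's
positivity `Tr (x* x) > 0`, `x*` the adjoint. -/
def Ops.Polarised [CharZero K] (O : Ops K V) : Prop :=
  ∃ R : AddSubgroup (End K V), O.π * O.d ∈ R ∧ O.π * O.δ ∈ R ∧
    (∀ x ∈ R, ∀ y ∈ R, x * y ∈ R) ∧ (∀ (c : ℚ), ∀ x ∈ R, (c : K) • x ∈ R) ∧
    (∃ (m : ℕ) (b : Fin m → End K V), ∀ x ∈ R, ∃ c : Fin m → ℚ, x = ∑ i, (c i : K) • b i) ∧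
    ∀ x ∈ R, x ≠ 0 → ∀ y, O.Adjoint x y → ∃ c : ℚ, 0 < c ∧ LinearMap.trace K V (y * x) = c

/-- The part `T^{r,s}` of `K^{r,s}` which is killed by `π`. -/
def Ops.T (O : Ops K V) (r s : ℤ) : Submodule K V := LinearMap.range (O.p r s) ⊓ LinearMap.ker O.π

/-- The part `T^{r,s}` is multiplicity free: some operator `G` commutes with `d` and `δ`, has simple
eigenvalues on `T^{r,s}`, the roots of the polynomial `χ`, and its adjoint there, for the form
`ψ (x, w y)`, is `ρ (G)`. (For example the Frobenius operator, or a combination of it with other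
algebraic correspondences.) -/
def Ops.SimpleOn [CharZero K] [FiniteDimensional K V] (O : Ops K V) (r s : ℤ) (χ ρ : ℚ[X]) : Prop :=
  ∃ (G : End K V) (h : ∀ x ∈ O.T r s, G x ∈ O.T r s),
    G * O.d = O.d * G ∧ G * O.δ = O.δ * G ∧
    (∀ x ∈ O.T r s, ∀ y ∈ O.T r s, O.ψ x (O.w (G y)) =
      O.ψ ((aeval G (ρ.map (algebraMap ℚ K))) x) (O.w y)) ∧
    (LinearMap.restrict G h).charpoly = χ.map (algebraMap ℚ K) ∧
    Squarefree (LinearMap.restrict G h).charpoly

/-- The weight-monodromy conjecture: for all `r ≥ 0` and `s` the map `N ^ r` from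
`E_2^{-r,n+s+r}` to `E_2^{r,n+s-r}` is bijective. -/
def Ops.WeightMonodromy (O : Ops K V) : Prop := ∀ (r : ℕ) (s : ℤ),
  (∀ x, O.p (-r) s x = x → O.d x = 0 → (∃ z, (O.N ^ r) x = O.d z) → ∃ z, x = O.d z) ∧
  ∀ y, O.p r s y = y → O.d y = 0 → ∃ x z, O.p (-r) s x = x ∧ O.d x = 0 ∧ y = (O.N ^ r) x + O.d z

/-- The cohomology of `d`, that is `H^*(X)`, has dimension `B`. -/
def Ops.Betti (O : Ops K V) (B : ℕ) : Prop :=
  finrank K (LinearMap.ker O.d) = finrank K (LinearMap.range O.d) + B

/-- The letters of the operators. -/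
inductive Letter
  | p (r s : ℤ) | N | N' | L | Λ | d | F | π

/-- The operator of a letter. -/
def Ops.op (O : Ops K V) : Letter → End K V
  | .p r s => O.p r s
  | .N => O.N
  | .N' => O.N'
  | .L => O.L
  | .Λ => O.Λ
  | .d => O.d
  | .F => O.F
  | .π => O.π

/-- The product of the operators of a word. -/
def Ops.word (O : Ops K V) (a : List Letter) : End K V := (a.map O.op).prod

end Pool.Agent.J6H2.WM
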