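import Pool.Agent.J6H2.WM.Inv

/-!
# Independence of `l` and integrality of the local factors
-/

set_option autoImplicit false
set_option linter.unusedSectionVars false

namespace Pool.Agent.J6H2.WM

open Module Polynomial Pool.Agent.J6H2.CL

section

variable {K V : Type} [Field K] [CharZero K] [AddCommGroup V] [Module K V]
  [FiniteDimensional K V] {O : Ops K V} {q n m : ℕ} {e : ℚ[X]}

/-- the projector onto `XX`, as an element of the free algebra -/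
noncomputable def syP (n : ℕ) (e : ℚ[X]) (a s : ℤ) : WA :=
  (∑ r ∈ Finset.Icc a (n : ℤ), lt (.p r s)) * aeval syΔ e

lemma sy_P (a s : ℤ) : sy O (syP n e a s) = PP O n a s * ev O.Δ e := by
  unfold syP PP
  rw [map_mul, map_sum, sy_aeval, sy_Δ]
  congr 1
  exact Finset.sum_congr rfl fun r _ => sy_lt O _

lemma tr_XX (h : O.Valid q n) (hE : IsE O m e) {a s : ℤ} {T : End K V}
    (hT : ∀ x ∈ XX O m a s, T x ∈ XX O m a s) (j : ℕ) :
    LinearMap.trace K (XX O m a s) ((T.restrict hT) ^ j) =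
      LinearMap.trace K V (T ^ j * sy O (syP n e a s)) := by
  refine trace_pow (fun x => ?_) (fun x hx => ?_) hT j
  · rw [sy_P]
    exact PP_mem h _ (hE.e2 x)
  · rw [sy_P, Module.End.mul_apply, hE.e3 x hx.1, PP_fix h hx]

end

variable {𝒪 : Family} {p q n : ℕ}

/-- The index set of the primes `l ≠ p`. -/
abbrev II (p : ℕ) := {l : ℕ // l.Prime ∧ l ≠ p}

instance (p : ℕ) (i : II p) : Fact (i.1).Prime := ⟨i.2.1⟩

/-- The characteristic polynomials of `F` on the kernels of `N` are rational, constant and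
integral. -/
theorem charpoly_const (hq : q ≠ 0) (h : 𝒪.Good p q n) (hR : 𝒪.Rational p)
    (hI : ∀ (l : ℕ) [Fact l.Prime], l ≠ p → ∃ M : ℤ[X], M.Monic ∧ aeval (𝒪.O l).F M = 0)
    (s : ℤ) {m : ℕ} {e : ℚ[X]} (hE : ∀ i : II p, IsE (𝒪.O i.1) m e) :
    ∃ P : ℤ[X], P.Monic ∧ ∀ i : II p,
      (FK (𝒪.O i.1) (h.valid i.1 i.2.2) hq (m := m) (s := s)).charpoly =
        P.map (Int.castRingHom ℚ_[i.1]) := by
  have hR' : ∀ a : List Letter, ∃ t : ℚ, ∀ i : II p,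
      LinearMap.trace ℚ_[i.1] (𝒪.V i.1) ((𝒪.O i.1).word a) = t := by
    intro a
    obtain ⟨t, ht⟩ := hR a
    exact ⟨t, fun i => ht i.1 i.2.2⟩
  obtain ⟨f0, hf0m, hf0⟩ := rat_charpoly (I := II p) (K := fun i => ℚ_[i.1])
    (U := fun i => XX (𝒪.O i.1) m 0 s)
    (fun i => (𝒪.O i.1).F.restrict (F_XX (h.valid i.1 i.2.2) hq (m := m) (a := 0) (s := s)))
    (fun j => by
      obtain ⟨t, ht⟩ := rat_sy (I := II p) (K := fun i => ℚ_[i.1]) (V := fun i => 𝒪.V i.1)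
        (O := fun i => 𝒪.O i.1) hR' ((lt .F) ^ j * syP n e 0 s)
      refine ⟨t, fun i => ?_⟩
      rw [← ht i, tr_XX (h.valid i.1 i.2.2) (hE i), map_mul (sy (𝒪.O i.1)),
        map_pow (sy (𝒪.O i.1)), sy_lt]
      rfl)
  obtain ⟨f2, hf2m, hf2⟩ := rat_charpoly (I := II p) (K := fun i => ℚ_[i.1])
    (U := fun i => XX (𝒪.O i.1) m 2 s)
    (fun i => (((q : ℚ_[i.1]) • (𝒪.O i.1).F).restrict
      (qF_XX (h.valid i.1 i.2.2) hq (m := m) (a := 2) (s := s))))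
    (fun j => by
      obtain ⟨t, ht⟩ := rat_sy (I := II p) (K := fun i => ℚ_[i.1]) (V := fun i => 𝒪.V i.1)
        (O := fun i => 𝒪.O i.1) hR' (((q : ℚ) • lt .F) ^ j * syP n e 2 s)
      refine ⟨t, fun i => ?_⟩
      rw [← ht i, tr_XX (h.valid i.1 i.2.2) (hE i), map_mul (sy (𝒪.O i.1)),
        map_pow (sy (𝒪.O i.1)), sy_smul, sy_lt, Rat.cast_natCast]
      rfl)
  have key : ∀ i : II p, (FK (𝒪.O i.1) (h.valid i.1 i.2.2) hq (m := m) (s := s)).charpoly =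
      (f0 /ₘ f2).map (algebraMap ℚ ℚ_[i.1]) := by
    intro i
    have h1 := charpoly_FK (h.valid i.1 i.2.2) hq (m := m) (s := s)
    have h2 := hf0 i
    have h3 := hf2 i
    rw [h2, h3] at h1
    rw [map_divByMonic _ hf2m, h1, mul_comm]
    exact (mul_divByMonic_cancel_left _ (hf2m.map _)).symm
  obtain ⟨l, hl1, hl2⟩ := Nat.exists_infinite_primes (p + 1)
  have hlp : l ≠ p := by omega
  have := Fact.mk hl2
  obtain ⟨M, hM, hMF⟩ := hI l hlp
  obtain ⟨P, hP, hPf⟩ := int_charpoly _ hM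
    (aeval_FK (h.valid l hlp) hq (m := m) (s := s) hMF) (key ⟨l, hl2, hlp⟩)
  refine ⟨P, hP, fun i => ?_⟩
  rw [key i, hPf, Polynomial.map_map]
  congr 1

/-- **Independence of `l` and integrality of the local factors.** -/
theorem local_main (hq : q ≠ 0) (h : 𝒪.Good p q n) (hR : 𝒪.Rational p)
    (hI : ∀ (l : ℕ) [Fact l.Prime], l ≠ p → ∃ M : ℤ[X], M.Monic ∧ aeval (𝒪.O l).F M = 0) {B : ℕ}
    (hB : 𝒪.Betti p B) (s : ℤ) :
    ∃ P : ℤ[X], ∀ (l : ℕ) [Fact l.Prime], l ≠ p →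
      ∀ (H : Type) [AddCommGroup H] [Module ℚ_[l] H] [FiniteDimensional ℚ_[l] H]
        (Φ NH : End ℚ_[l] H) (ρ : 𝒪.V l →ₗ[ℚ_[l]] H), (𝒪.O l).Computes s Φ NH ρ →
        LocalFactor Φ NH (P.map (Int.castRingHom ℚ_[l])) := by
  obtain ⟨e, m, hE⟩ := exists_proj (I := II p) (K := fun i => ℚ_[i.1]) (V := fun i => 𝒪.V i.1)
    (O := fun i => 𝒪.O i.1) (fun a => by
      obtain ⟨t, ht⟩ := hR a
      exact ⟨t, fun i => ht i.1 i.2.2⟩)
  have hE' : ∀ i : II p, IsE (𝒪.O i.1) m e := by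
    intro i
    obtain ⟨h1, h2, h3⟩ := hE i
    simp only [sy_aeval, sy_Δ] at h2 h3
    exact ⟨h1, h2, h3⟩
  obtain ⟨P, hP, hPc⟩ := charpoly_const hq h hR hI s hE'
  refine ⟨P.reverse, fun l _ hl H _ _ _ Φ NH ρ hc => ?_⟩
  have hv := h.valid l hl
  refine ⟨Φ_ker hv hc, ?_⟩
  rw [charpoly_inv hv hq (van_all h hR hB l hl) (hE' ⟨l, Fact.out, hl⟩) hc]
  rw [hPc ⟨l, Fact.out, hl⟩]
  unfold reverse
  rw [natDegree_map_eq_of_injective (RingHom.injective_int _), reflect_map]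

end Pool.Agent.J6H2.WM
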