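import Pool.Agent.J6H2.CL.Eig

/-!
# Subspaces stable under an operator with simple spectrum whose adjoint is its complex conjugate
-/

set_option autoImplicit false

namespace Pool.Agent.J6H2.WM

open Polynomial TensorProduct Pool.Agent.H914 Pool.Agent.R908 Pool.Agent.J6H2.CL

variable {K : Type*} [Field K] [CharZero K] {V : Type*} [AddCommGroup V] [Module K V]
  [Module.Finite K V]

section

variable {Ω : Type*} [Field Ω] [Algebra K Ω]

omit [CharZero K] [Module.Finite K V] in
lemma bil_base_adj {B : LinearMap.BilinForm K V} {G G' : Module.End K V}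
    (h : ∀ x y, B x (G y) = B (G' x) y) (x y : Ω ⊗[K] V) :
    B.baseChange Ω x (G.baseChange Ω y) = B.baseChange Ω (G'.baseChange Ω x) y := by
  induction x using TensorProduct.induction_on with
  | zero => simp only [map_zero, LinearMap.zero_apply]
  | add x x' hx hx' => simp only [map_add, LinearMap.add_apply, hx, hx']
  | tmul l a =>
    induction y using TensorProduct.induction_on with
    | zero => simp only [map_zero]
    | add y y' hy hy' => simp only [map_add, hy, hy']
    | tmul l' a' =>
      rw [LinearMap.baseChange_tmul, LinearMap.baseChange_tmul,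
        LinearMap.BilinForm.baseChange_tmul, LinearMap.BilinForm.baseChange_tmul, h]

omit [CharZero K] [Module.Finite K V] in
lemma aeval_base {G : Module.End K V} (ρ : K[X]) {u : Ω ⊗[K] V} {α : Ω}
    (hu : G.baseChange Ω u = α • u) (hu0 : u ≠ 0) :
    (aeval G ρ).baseChange Ω u = aeval α ρ • u := by
  have h1 : (aeval G ρ).baseChange Ω = aeval (G.baseChange Ω) (ρ.map (algebraMap K Ω)) := by
    rw [aeval_map_algebraMap]
    exact (aeval_algHom_apply (Module.End.baseChangeHom K Ω V) G ρ).symm
  rw [h1, Module.End.aeval_apply_of_hasEigenvector ⟨Module.End.mem_eigenspace_iff.2 hu, hu0⟩,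
    eval_map_algebraMap]

end

/-- **Stable subspaces are not isotropic**, version for the whole space. -/
theorem exists_pair_top' {G : Module.End K V} (hsq : Squarefree G.charpoly)
    {B : LinearMap.BilinForm K V} {ρ : K[X]} (hB : ∀ x y, B x (G y) = B (aeval G ρ x) y)
    (hnd : ∀ x, (∀ y, B x y = 0) → x = 0) (τ : AlgebraicClosure K ≃ₐ[K] AlgebraicClosure K)
    (hτ : ∀ α, aeval α G.charpoly = 0 → τ α = aeval α ρ)
    {U : Submodule K V} (hU : ∀ x ∈ U, G x ∈ U) (hU0 : U ≠ ⊥) :
    ∃ x ∈ U, ∃ y ∈ U, B x y ≠ 0 := by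
  classical
  by_contra hcon
  push Not at hcon
  have hG : HasSimple G := ⟨_, hsq, LinearMap.charpoly_natDegree _,
    fun Q hQ => charpoly_dvd_of_squarefree hsq hQ⟩
  obtain ⟨S, b, hb⟩ := exists_eigenbasis (AlgebraicClosure K) hG
  have hinj : Function.Injective (fun i : S => (i : AlgebraicClosure K)) := Subtype.coe_injective
  -- an eigenvector in the extension of `U`
  have hnt : Nontrivial (AlgebraicClosure K ⊗[K] U) := by
    apply Module.nontrivial_of_finrank_pos (R := AlgebraicClosure K)
    rw [Module.finrank_baseChange]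
    have : Nontrivial U := Submodule.nontrivial_iff_ne_bot.2 hU0
    exact Module.finrank_pos
  obtain ⟨α, hα⟩ := Module.End.exists_eigenvalue
    ((G.restrict hU).baseChange (AlgebraicClosure K) :
      Module.End (AlgebraicClosure K) (AlgebraicClosure K ⊗[K] U))
  obtain ⟨v, hv⟩ := hα.exists_hasEigenvector
  set u := incl (AlgebraicClosure K) U v with hu
  have hu0 : u ≠ 0 := fun h => hv.2 (incl_inj h)
  have huU : u ∈ U.baseChange (AlgebraicClosure K) := by
    rw [hu]
    clear_value u
    clear hu hu0 hv
    induction v using TensorProduct.induction_on with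
    | zero => rw [map_zero]; exact Submodule.zero_mem _
    | add y z hy hz => rw [map_add]; exact Submodule.add_mem _ hy hz
    | tmul l t =>
      rw [incl_tmul]
      exact Submodule.tmul_mem_baseChange_of_mem _ t.2
  have hGu : G.baseChange (AlgebraicClosure K) u = α • u := by
    rw [hu, incl_comm hU, Module.End.mem_eigenspace_iff.1 hv.1, map_smul]
  have hroot : aeval α G.charpoly = 0 := by
    have h1 : Module.End.HasEigenvalue (G.baseChange (AlgebraicClosure K)) α :=
      Module.End.hasEigenvalue_of_hasEigenvector ⟨Module.End.mem_eigenspace_iff.2 hGu, hu0⟩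
    have h2 := (Module.End.hasEigenvalue_iff_isRoot_charpoly _ _).1 h1
    rwa [LinearMap.charpoly_baseChange, IsRoot, eval_map_algebraMap] at h2
  have hτα := hτ α hroot
  -- its conjugate
  set u' := sig τ u with hu'
  have hu'U : u' ∈ U.baseChange (AlgebraicClosure K) := sig_mem τ huU
  have hu'0 : u' ≠ 0 := by
    intro h
    apply hu0
    rw [← sig_symm' τ u, ← hu', h, map_zero]
  have hGu' : G.baseChange (AlgebraicClosure K) u' = τ α • u' := by
    rw [hu', ← sig_baseChange', hGu, sig_smul]
  have h0 : B.baseChange (AlgebraicClosure K) u u' = 0 := bil_base_zero hcon huU hu'U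
  apply hu0
  refine bil_base_nondeg hnd fun y => ?_
  have key : ∀ i, B.baseChange (AlgebraicClosure K) u (b i) = 0 := by
    intro i
    by_contra hne
    have h1 := bil_base_adj (Ω := AlgebraicClosure K) hB u (b i)
    rw [aeval_base ρ hGu hu0, hb, map_smul, LinearMap.map_smul₂, smul_eq_mul, smul_eq_mul] at h1
    have h3 : (i : AlgebraicClosure K) = τ α := by
      rw [hτα]
      exact mul_right_cancel₀ hne h1
    obtain ⟨r, hr⟩ := eig_unique hb hinj (i := i) (x := u') (by rw [hGu', h3])
    have hr0 : r ≠ 0 := by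
      rintro rfl
      rw [zero_smul] at hr
      exact hu'0 hr
    rw [hr, map_smul, smul_eq_mul] at h0
    exact hne ((mul_eq_zero.1 h0).resolve_left hr0)
  rw [← b.sum_repr y, map_sum]
  apply Finset.sum_eq_zero
  intro i _
  rw [map_smul, key, smul_zero]

omit [CharZero K] [Module.Finite K V] in
lemma aeval_restr' {G : Module.End K V} {T : Submodule K V} (hst : ∀ a ∈ T, G a ∈ T) (ρ : K[X])
    (x : T) : ((aeval (G.restrict hst) ρ) x : V) = (aeval G ρ) x := by
  have hp : ∀ k : ℕ, (((G.restrict hst) ^ k) x : V) = (G ^ k) x := by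
    intro k
    induction k with
    | zero => rfl
    | succ k ih => rw [pow_succ', pow_succ', Module.End.mul_apply, Module.End.mul_apply, ← ih]; rfl
  induction ρ using Polynomial.induction_on' with
  | add f g hf hg =>
    rw [map_add, map_add, LinearMap.add_apply, LinearMap.add_apply, Submodule.coe_add, hf, hg]
  | monomial k c =>
    rw [aeval_monomial, aeval_monomial, Module.End.mul_apply, Module.End.mul_apply,
      Module.algebraMap_end_apply, Module.algebraMap_end_apply, Submodule.coe_smul, hp]

/-- **Stable subspaces are not isotropic.** -/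
theorem exists_pair' {G : Module.End K V} {T : Submodule K V} (hst : ∀ a ∈ T, G a ∈ T)
    (hsq : Squarefree (G.restrict hst).charpoly) {B : V → V → K}
    (hBl : ∀ x y z, B (x + y) z = B x z + B y z) (hBr : ∀ x y z, B x (y + z) = B x y + B x z)
    (hBsl : ∀ (r : K) x y, B (r • x) y = r * B x y) (hBsr : ∀ (r : K) x y, B x (r • y) = r * B x y)
    {ρ : K[X]} (hB : ∀ x ∈ T, ∀ y ∈ T, B x (G y) = B (aeval G ρ x) y)
    (hnd : ∀ x ∈ T, (∀ y ∈ T, B x y = 0) → x = 0)
    (τ : AlgebraicClosure K ≃ₐ[K] AlgebraicClosure K)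
    (hτ : ∀ α, aeval α (G.restrict hst).charpoly = 0 → τ α = aeval α ρ)
    {U : Submodule K V} (hUT : U ≤ T) (hU : ∀ x ∈ U, G x ∈ U) (hU0 : U ≠ ⊥) :
    ∃ x ∈ U, ∃ y ∈ U, B x y ≠ 0 := by
  let B' : LinearMap.BilinForm K T := LinearMap.mk₂ K (fun x y => B x y)
    (fun x y z => hBl x y z) (fun r x y => hBsl r x y) (fun x y z => hBr x y z)
    (fun r x y => hBsr r x y)
  obtain ⟨x, hx, y, hy, h⟩ := exists_pair_top' (G := G.restrict hst) hsq (B := B') (ρ := ρ)
    (fun x y => by
      change B x (G y) = B ((aeval (G.restrict hst) ρ) x : T) y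
      rw [aeval_restr' hst, hB x x.2 y y.2])
    (fun x hx => Subtype.ext (hnd x x.2 fun y hy => hx ⟨y, hy⟩)) τ hτ
    (U := U.comap T.subtype) (fun x hx => hU _ hx) (by
      intro h
      apply hU0
      rw [eq_bot_iff]
      intro x hx
      have h1 : (⟨x, hUT hx⟩ : T) ∈ U.comap T.subtype := hx
      rw [h, Submodule.mem_bot] at h1
      rw [Submodule.mem_bot]
      exact congrArg Subtype.val h1)
  exact ⟨x, hx, y, hy, h⟩

end Pool.Agent.J6H2.WM
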