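import Pool.Agent.J6H2.WM.Pos
import Pool.Agent.J6H2.WM.Eig

/-!
# The part with simple Frobenius eigenvalues
-/

set_option autoImplicit false
set_option linter.unusedSectionVars false

namespace Pool.Agent.J6H2.WM

open Module Polynomial

universe u v

variable {K : Type u} {V : Type v} [Field K] [CharZero K] [AddCommGroup V] [Module K V]
  [FiniteDimensional K V] {O : Ops K V} {q n : ℕ}

/-- the twist -/
noncomputable def tw (O : Ops K V) (q n : ℕ) : End K V :=
  ∑ r ∈ Finset.Icc (-n : ℤ) n, ∑ s ∈ Finset.Icc (-n : ℤ) n, ((q : K) ^ ((r - s) / 2)) • O.p r s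

section

variable (h : O.Valid q n)
include h

lemma tw_p (r s : ℤ) : tw O q n * O.p r s = ((q : K) ^ ((r - s) / 2)) • O.p r s := by
  by_cases hrs : (n : ℤ) < |r| ∨ (n : ℤ) < |s|
  · rw [h.gr.bound r s hrs, mul_zero, smul_zero]
  · rw [not_or, not_lt, not_lt, abs_le, abs_le] at hrs
    unfold tw
    rw [Finset.sum_mul, Finset.sum_eq_single r, Finset.sum_mul, Finset.sum_eq_single s]
    · rw [smul_mul_assoc, h.gr.idem]
    · intro s' _ hs'
      rw [smul_mul_assoc, h.gr.orth _ _ _ _ (Or.inr hs'), smul_zero]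
    · intro h1
      exact absurd (Finset.mem_Icc.2 hrs.2) h1
    · intro r' _ hr'
      rw [Finset.sum_mul]
      refine Finset.sum_eq_zero fun s' _ => ?_
      rw [smul_mul_assoc, h.gr.orth _ _ _ _ (Or.inl hr'), smul_zero]
    · intro h1
      exact absurd (Finset.mem_Icc.2 hrs.1) h1

lemma comm_G (hq : q ≠ 0) {A : End K V} {c e k : ℤ} (hA : Deg O A c e)
    (hF : O.F * A = ((q : K) ^ k) • (A * O.F))
    (hk : ∀ r s : ℤ, (r + c - (s + e)) / 2 + k = (r - s) / 2) :
    (O.F * tw O q n) * A = A * (O.F * tw O q n) := by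
  have hq' : (q : K) ≠ 0 := Nat.cast_ne_zero.2 hq
  refine ext_p h.gr fun r s => ?_
  rw [mul_assoc, hA, mul_assoc, ← mul_assoc (tw O q n), tw_p h, smul_mul_assoc, mul_smul_comm,
    ← hA, ← mul_assoc, hF, mul_assoc A, mul_assoc O.F, tw_p h, mul_smul_comm, mul_smul_comm,
    smul_mul_assoc, smul_smul, ← zpow_add₀ hq', hk, mul_assoc]

lemma G_w (hq : q ≠ 0) : (O.F * tw O q n) * O.w = O.w * (O.F * tw O q n) := by
  have hq' : (q : K) ≠ 0 := Nat.cast_ne_zero.2 hq
  refine comm_w h ?_ ?_ ?_ ?_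
  · refine comm_G h hq (k := -1) (degN h.gr) ?_ (fun r s => by omega)
    rw [h.frob.FN, smul_smul, zpow_neg_one, inv_mul_cancel₀ hq', one_smul]
  · refine comm_G h hq (k := 1) (degN' h.gr) ?_ (fun r s => by omega)
    rw [h.frob.FN', zpow_one]
  · refine comm_G h hq (k := 1) (degL h.gr) ?_ (fun r s => by omega)
    rw [h.frob.FL, zpow_one]
  · refine comm_G h hq (k := -1) (degΛ h.gr) ?_ (fun r s => by omega)
    rw [h.frob.FΛ, smul_smul, zpow_neg_one, inv_mul_cancel₀ hq', one_smul]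

lemma w_F (hq : q ≠ 0) (r s : ℤ) :
    O.w * O.F * O.p r s = ((q : K) ^ (s - r)) • (O.F * O.w * O.p r s) := by
  have hq' : (q : K) ≠ 0 := Nat.cast_ne_zero.2 hq
  have h1 : (O.F * tw O q n) * O.w * O.p r s = O.w * (O.F * tw O q n) * O.p r s := by
    rw [G_w h hq]
  have h1a : (O.F * tw O q n) * O.w * O.p r s =
      ((q : K) ^ ((-r - -s) / 2)) • (O.F * O.w * O.p r s) := by
    rw [mul_assoc, w_p h, mul_assoc, ← mul_assoc (tw O q n), tw_p h, smul_mul_assoc, ← w_p h,
      mul_smul_comm, ← mul_assoc]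
  have h1b : O.w * (O.F * tw O q n) * O.p r s =
      ((q : K) ^ ((r - s) / 2)) • (O.w * O.F * O.p r s) := by
    rw [mul_assoc, mul_assoc, tw_p h, mul_smul_comm, mul_smul_comm, ← mul_assoc]
  rw [h1a, h1b] at h1
  have h2 : ((q : K) ^ ((r - s) / 2)) ≠ 0 := zpow_ne_zero _ hq'
  have h3 : O.w * O.F * O.p r s = ((q : K) ^ ((r - s) / 2))⁻¹ • ((q : K) ^ ((r - s) / 2)) •
      (O.w * O.F * O.p r s) := by
    rw [smul_smul, inv_mul_cancel₀ h2, one_smul]
  rw [h3, ← h1, smul_smul, ← zpow_neg, ← zpow_add₀ hq']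
  congr 2
  omega

/-- the form `ψ (x, w y)` and Frobenius -/
lemma Q_F (hq : q ≠ 0) {r s : ℤ} (x : V) {y : V} (hy : O.p r s y = y) :
    O.ψ (O.F x) (O.w (O.F y)) = ((q : K) ^ ((n : ℤ) + s - r)) * O.ψ x (O.w y) := by
  have hq' : (q : K) ≠ 0 := Nat.cast_ne_zero.2 hq
  have h1 : O.w (O.F y) = ((q : K) ^ (s - r)) • O.F (O.w y) := by
    have := congrE (w_F h hq r s) y
    rw [LinearMap.smul_apply, Module.End.mul_apply, Module.End.mul_apply, Module.End.mul_apply,
      Module.End.mul_apply, hy] at this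
    exact this
  rw [h1, map_smul, smul_eq_mul, h.pair.F, ← mul_assoc, ← zpow_natCast (q : K) n,
    ← zpow_add₀ hq']
  congr 2
  ring

lemma mem_T {r s : ℤ} {x : V} : x ∈ O.T r s ↔ O.p r s x = x ∧ O.π x = 0 := by
  constructor
  · rintro ⟨⟨y, rfl⟩, hx⟩
    exact ⟨congrE (h.gr.idem r s) y, hx⟩
  · rintro ⟨h1, h2⟩
    exact ⟨⟨x, h1⟩, h2⟩

lemma π_p (r s : ℤ) (x : V) : O.π (O.p r s x) = O.p r s (O.π x) := congrE (h.gr.degπ r s) x

lemma Q_nondeg {r s : ℤ} {x : V} (hx : x ∈ O.T r s)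
    (hnd : ∀ y ∈ O.T r s, O.ψ x (O.w y) = 0) : x = 0 := by
  obtain ⟨hpx, hπx⟩ := (mem_T h).1 hx
  refine h.pair.nondeg x fun y0 => ?_
  obtain ⟨z, rfl⟩ := w_surj h y0
  have hy : O.p r s z - O.π (O.p r s z) ∈ O.T r s := by
    refine (mem_T h).2 ⟨?_, ?_⟩
    · rw [map_sub, ← π_p h]
      have : O.p r s (O.p r s z) = O.p r s z := congrE (h.gr.idem r s) z
      rw [this]
    · have : O.π (O.π (O.p r s z)) = O.π (O.p r s z) := congrE h.proj.idem _
      rw [map_sub, this, sub_self]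
  have h1 := hnd _ hy
  have h2 : O.w (O.p r s z) = O.p (-r) (-s) (O.w z) := congrE (w_p h r s) z
  have h3 : O.w (O.π (O.p r s z)) = O.π (O.w (O.p r s z)) := congrE (w_π h) _
  rw [map_sub, h3, map_sub, ← h.pair.π, hπx, h2, ← h.pair.p, hpx] at h1
  simpa using h1

lemma F_δ (hq : q ≠ 0) : O.F * O.δ = O.δ * O.F := by
  have hq' : (q : K) ≠ 0 := Nat.cast_ne_zero.2 hq
  have hd := h.frob.Fd
  have hN' := h.frob.FN'
  have hΛ : O.F * O.Λ = ((q : K)⁻¹) • (O.Λ * O.F) := by
    rw [h.frob.FΛ, smul_smul, inv_mul_cancel₀ hq', one_smul]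
  have h1 : O.F * O.d1 = (q : K) • (O.d1 * O.F) := by
    unfold Ops.d1
    rw [mul_sub, ← mul_assoc, hN', ← mul_assoc, hd, mul_assoc, hN', smul_mul_assoc, mul_assoc, hd,
      mul_smul_comm, ← smul_sub, sub_mul, mul_assoc, mul_assoc]
  rw [δ_eq, mul_sub, ← mul_assoc, hΛ, ← mul_assoc, h1, smul_mul_assoc, smul_mul_assoc,
    mul_assoc, mul_assoc, h1, hΛ, mul_smul_comm, mul_smul_comm, smul_smul, smul_smul,
    inv_mul_cancel₀ hq', mul_inv_cancel₀ hq', one_smul, one_smul, sub_mul, mul_assoc, mul_assoc]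

lemma F_T {r s : ℤ} : ∀ x ∈ O.T r s, O.F x ∈ O.T r s := by
  intro x hx
  obtain ⟨h1, h2⟩ := (mem_T h).1 hx
  refine (mem_T h).2 ⟨?_, ?_⟩
  · have := congrE (h.gr.degF r s) x
    rw [Module.End.mul_apply, Module.End.mul_apply, h1] at this
    exact this.symm
  · have := congrE h.proj.F x
    rw [Module.End.mul_apply, Module.End.mul_apply, h2, map_zero] at this
    exact this

/-- the part with simple eigenvalues -/
theorem simple_part {r s : ℤ} {χ ρ : ℚ[X]} (hS : O.SimpleOn r s χ ρ)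
    (τ : AlgebraicClosure K ≃ₐ[K] AlgebraicClosure K)
    (hτ : ∀ α : AlgebraicClosure K, aeval α (χ.map (algebraMap ℚ K)) = 0 →
      τ α = aeval α (ρ.map (algebraMap ℚ K)))
    {z : V} (hz : O.δ (O.d z) = 0) (hT : O.d z ∈ O.T r s) : O.d z = 0 := by
  obtain ⟨G, hG, hGd, hGδ, hadj, hchar, hsq⟩ := hS
  let U : Submodule K V := (LinearMap.range O.d ⊓ LinearMap.ker O.δ) ⊓ O.T r s
  by_contra hne
  have hU0 : U ≠ ⊥ := by
    intro h0
    have : O.d z ∈ U := ⟨⟨⟨z, rfl⟩, hz⟩, hT⟩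
    rw [h0] at this
    exact hne ((Submodule.mem_bot K).1 this)
  obtain ⟨x, hx, y, hy, hxy⟩ := exists_pair' (G := G) (T := O.T r s) hG hsq
    (B := fun x y => O.ψ x (O.w y))
    (fun x y z => by rw [map_add, LinearMap.add_apply])
    (fun x y z => by rw [map_add, map_add])
    (fun c x y => by rw [map_smul, LinearMap.smul_apply, smul_eq_mul])
    (fun c x y => by rw [map_smul, map_smul, smul_eq_mul])
    (ρ := ρ.map (algebraMap ℚ K)) hadj
    (fun x hx hnd => Q_nondeg h hx hnd) τ (fun α hα => hτ α (by rw [← hchar]; exact hα))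
    (U := U) inf_le_right
    (by
      rintro _ ⟨⟨⟨y, rfl⟩, hy2⟩, hy3⟩
      refine ⟨⟨⟨G y, ?_⟩, ?_⟩, hG _ hy3⟩
      · exact (congrE hGd y).symm
      · have := congrE hGδ (O.d y)
        rw [Module.End.mul_apply, Module.End.mul_apply, LinearMap.mem_ker.1 hy2, map_zero] at this
        exact this.symm) hU0
  apply hxy
  obtain ⟨⟨⟨x, rfl⟩, -⟩, -⟩ := hx
  obtain ⟨⟨-, hy⟩, -⟩ := hy
  have h1 : O.d (O.w y) = O.w (O.δ y) := congrE (d_w h) y
  rw [h.pair.d, h1, LinearMap.mem_ker.1 hy, map_zero, map_zero]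

/-- **The key point**: `δ` is injective on the image of `d`. -/
theorem condA (hP : O.Polarised) {χ ρ : ℤ → ℤ → ℚ[X]} (hS : ∀ r s, O.SimpleOn r s (χ r s) (ρ r s))
    (hτ : ∀ r s, ∃ τ : AlgebraicClosure K ≃ₐ[K] AlgebraicClosure K,
      ∀ α : AlgebraicClosure K, aeval α ((χ r s).map (algebraMap ℚ K)) = 0 →
      τ α = aeval α ((ρ r s).map (algebraMap ℚ K))) : CondA O := by
  intro z hz
  have hπ := pol_part h hP hz
  have hp : ∀ r s, O.p r s (O.d z) = 0 := by
    intro r s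
    have h1 : O.p r s (O.d z) = O.d (O.p (r - 1) (s - 1) z) := by
      have := congrE (h.gr.degd (r - 1) (s - 1)) z
      rw [sub_add_cancel, sub_add_cancel] at this
      exact this.symm
    have h2 : O.δ (O.p r s (O.d z)) = 0 := by
      have := congrE (degδ h r s) (O.d z)
      rw [Module.End.mul_apply, Module.End.mul_apply, hz, map_zero] at this
      exact this
    have h3 : O.p r s (O.d z) ∈ O.T r s := by
      refine (mem_T h).2 ⟨congrE (h.gr.idem r s) _, ?_⟩
      rw [π_p h, hπ, map_zero]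
    obtain ⟨τ, hτ'⟩ := hτ r s
    rw [h1] at h2 h3 ⊢
    exact simple_part h (hS r s) τ hτ' h2 h3
  have h1 : O.d z = (∑ r ∈ Finset.Icc (-n : ℤ) n, ∑ s ∈ Finset.Icc (-n : ℤ) n, O.p r s) (O.d z) := by
    rw [h.gr.total]
    rfl
  rw [h1, LinearMap.sum_apply]
  refine Finset.sum_eq_zero fun r _ => ?_
  rw [LinearMap.sum_apply]
  exact Finset.sum_eq_zero fun s _ => hp r s

/-- **The Frobenius operator**: if it has simple eigenvalues on `T^{r,s}`, the roots of a rational
polynomial with complex roots of the right weight, then `T^{r,s}` is multiplicity free. -/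
theorem simpleOn_frobenius (hq : q ≠ 0) {r s : ℤ} {χ : ℚ[X]}
    (hw : ∀ z : ℂ, aeval z χ = 0 → ‖z‖ ^ 2 = (q : ℝ) ^ ((n : ℤ) + s - r))
    (hχ : (O.F.restrict (F_T h (r := r) (s := s))).charpoly = χ.map (algebraMap ℚ K))
    (hsq : Squarefree (O.F.restrict (F_T h (r := r) (s := s))).charpoly) :
    ∃ ρ : ℚ[X], (∀ z : ℂ, aeval z χ = 0 → aeval z ρ = starRingEnd ℂ z) ∧ O.SimpleOn r s χ ρ := by
  have hq' : (q : K) ≠ 0 := Nat.cast_ne_zero.2 hq
  have hqR : (0 : ℝ) < (q : ℝ) := Nat.cast_pos.2 (Nat.pos_of_ne_zero hq)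
  have hX : ¬ X ∣ χ := by
    rintro ⟨g, hg⟩
    have h1 := hw 0 (by rw [hg, map_mul, aeval_X, zero_mul])
    rw [norm_zero, zero_pow two_ne_zero] at h1
    exact (zpow_pos hqR _).ne h1
  obtain ⟨u, v, huv⟩ := (prime_X.coprime_iff_not_dvd).2 hX
  refine ⟨C ((q : ℚ) ^ ((n : ℤ) + s - r)) * u, fun z hz => ?_, O.F, F_T h, h.frob.Fd, F_δ h hq,
    fun x hx y hy => ?_, hχ, hsq⟩
  · have h1 : aeval z u * z = 1 := by
      have := congrArg (aeval z) huv
      rw [map_add, map_mul, map_mul, aeval_X, hz, mul_zero, add_zero, map_one] at this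
      exact this
    have hz0 : z ≠ 0 := by
      rintro rfl
      rw [mul_zero] at h1
      exact zero_ne_one h1
    apply mul_right_cancel₀ hz0
    rw [map_mul, aeval_C, mul_assoc, h1, mul_one, mul_comm _ z, Complex.mul_conj,
      Complex.normSq_eq_norm_sq, hw z hz]
    push_cast
    simp
  · have hTx := F_T h (r := r) (s := s)
    set uF := aeval O.F (u.map (algebraMap ℚ K)) with huF
    have h1 : O.F (uF x) = x := by
      have h2 : O.F * uF = aeval O.F ((u * X).map (algebraMap ℚ K)) := by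
        rw [mul_comm u X, Polynomial.map_mul, map_X, map_mul, aeval_X, ← huF]
      have h3 : (u * X).map (algebraMap ℚ K) = 1 - (v * χ).map (algebraMap ℚ K) := by
        rw [← Polynomial.map_one (algebraMap ℚ K), ← Polynomial.map_sub, ← huv]
        ring_nf
      have h4 : (aeval O.F (χ.map (algebraMap ℚ K))) x = 0 := by
        have h5 := aeval_restr' hTx (χ.map (algebraMap ℚ K)) ⟨x, hx⟩
        rw [← h5, ← hχ, LinearMap.aeval_self_charpoly]
        rfl
      have h6 := congrE h2 x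
      rw [Module.End.mul_apply, h3, map_sub, map_one, LinearMap.sub_apply, Module.End.one_apply,
        Polynomial.map_mul, map_mul, Module.End.mul_apply, h4, map_zero, sub_zero] at h6
      exact h6
    have h7 := Q_F h hq (r := r) (s := s) (uF x) ((mem_T h).1 hy).1
    rw [h1] at h7
    rw [h7, Polynomial.map_mul, map_C, map_mul, aeval_C, Module.End.mul_apply,
      Module.algebraMap_end_apply, ← huF, map_smul, LinearMap.smul_apply, smul_eq_mul]
    simp

end

end Pool.Agent.J6H2.WM
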