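import Pool.Agent.J6H2.WM.Rat
import Pool.Agent.J6H2.WM.Frob

/-!
# Words in the operators, and the projector onto the generalised kernel of the Laplace operator
-/

set_option autoImplicit false
set_option linter.unusedSectionVars false

namespace Pool.Agent.J6H2.WM

open Module Polynomial

/-- The free algebra on the letters. -/
abbrev WA := MonoidAlgebra ℚ (FreeMonoid Letter)

/-- a letter -/
noncomputable def lt (a : Letter) : WA := MonoidAlgebra.of ℚ _ (FreeMonoid.of a)

section

variable {K V : Type} [Field K] [CharZero K] [AddCommGroup V] [Module K V]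
  [FiniteDimensional K V]

/-- The evaluation of an element of the free algebra. -/
noncomputable def sy (O : Ops K V) : WA →+* End K V :=
  MonoidAlgebra.liftNCRingHom ((algebraMap K (End K V)).comp (algebraMap ℚ K))
    (FreeMonoid.lift O.op) (fun x _ => Algebra.commutes (algebraMap ℚ K x) _)

lemma sy_of (O : Ops K V) (w : FreeMonoid Letter) :
    sy O (MonoidAlgebra.of ℚ _ w) = O.word (FreeMonoid.toList w) := by
  unfold sy
  rw [MonoidAlgebra.of_apply, MonoidAlgebra.liftNCRingHom_single, map_one, one_mul,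
    FreeMonoid.lift_apply]
  rfl

lemma sy_lt (O : Ops K V) (a : Letter) : sy O (lt a) = O.op a := by
  unfold lt
  rw [sy_of]
  simp [Ops.word]

lemma sy_smul (O : Ops K V) (c : ℚ) (a : WA) : sy O (c • a) = (c : K) • sy O a := by
  have h1 : c • a = MonoidAlgebra.single 1 c * a := by
    rw [Algebra.smul_def]
    rfl
  rw [h1, map_mul]
  have h2 : sy O (MonoidAlgebra.single 1 c) = (c : K) • (1 : End K V) := by
    unfold sy
    rw [MonoidAlgebra.liftNCRingHom_single, map_one, mul_one]
    simp [Algebra.smul_def]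
  rw [h2, smul_mul_assoc, one_mul]

lemma sy_C (O : Ops K V) (c : ℚ) : sy O (algebraMap ℚ WA c) = (c : K) • (1 : End K V) := by
  rw [Algebra.algebraMap_eq_smul_one, sy_smul, map_one]

/-- `δ` -/
noncomputable def syδ : WA :=
  lt .Λ * (lt .N' * lt .d - lt .d * lt .N') - (lt .N' * lt .d - lt .d * lt .N') * lt .Λ

/-- `Δ` -/
noncomputable def syΔ : WA := lt .d * syδ + syδ * lt .d

lemma sy_δ (O : Ops K V) : sy O syδ = O.δ := by
  unfold syδ Ops.δ
  simp only [map_sub, map_mul, sy_lt]
  rfl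

lemma sy_Δ (O : Ops K V) : sy O syΔ = O.Δ := by
  unfold syΔ Ops.Δ
  rw [map_add, map_mul, map_mul, sy_δ, sy_lt]
  rfl

lemma sy_aeval (O : Ops K V) (a : WA) (e : ℚ[X]) : sy O (aeval a e) = ev (sy O a) e := by
  induction e using Polynomial.induction_on' with
  | add f g hf hg => rw [map_add, map_add, map_add, hf, hg]
  | monomial k c =>
    rw [← C_mul_X_pow_eq_monomial, map_mul, map_mul, map_mul, aeval_C, sy_C, ev_C, map_pow,
      map_pow, map_pow, aeval_X, ev_X]

end

section

variable {I : Type*} {K : I → Type} [∀ i, Field (K i)] [∀ i, CharZero (K i)] {V : I → Type}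
  [∀ i, AddCommGroup (V i)] [∀ i, Module (K i) (V i)] [∀ i, FiniteDimensional (K i) (V i)]
  {O : ∀ i, Ops (K i) (V i)}

/-- The traces of all elements of the free algebra are rational and constant. -/
lemma rat_sy (h : ∀ a : List Letter, ∃ t : ℚ, ∀ i, LinearMap.trace (K i) (V i) ((O i).word a) = t)
    (a : WA) : ∃ t : ℚ, ∀ i, LinearMap.trace (K i) (V i) (sy (O i) a) = t := by
  induction a using MonoidAlgebra.induction_on with
  | of w =>
    obtain ⟨t, ht⟩ := h (FreeMonoid.toList w)
    exact ⟨t, fun i => by rw [sy_of, ht]⟩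
  | add x y hx hy =>
    obtain ⟨t, ht⟩ := hx
    obtain ⟨t', ht'⟩ := hy
    refine ⟨t + t', fun i => ?_⟩
    rw [map_add, map_add, ht, ht']
    push_cast
    rfl
  | smul c x hx =>
    obtain ⟨t, ht⟩ := hx
    refine ⟨c * t, fun i => ?_⟩
    rw [sy_smul, map_smul, ht, smul_eq_mul]
    push_cast
    rfl

/-- The projector onto the generalised kernel of the Laplace operator is an element of the free
algebra. -/
theorem exists_proj
    (h : ∀ a : List Letter, ∃ t : ℚ, ∀ i, LinearMap.trace (K i) (V i) ((O i).word a) = t) :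
    ∃ (e : ℚ[X]) (m : ℕ), ∀ i, (∀ (k : ℕ) (x : V i), ((O i).Δ ^ k) x = 0 →
        ((O i).Δ ^ m) x = 0) ∧ (∀ x, ((O i).Δ ^ m) (sy (O i) (aeval syΔ e) x) = 0) ∧
      ∀ x, ((O i).Δ ^ m) x = 0 → sy (O i) (aeval syΔ e) x = x := by
  obtain ⟨f, hf1, hf⟩ := rat_charpoly (fun i => (O i).Δ) (fun j => by
    obtain ⟨t, ht⟩ := rat_sy h (syΔ ^ j)
    refine ⟨t, fun i => ?_⟩
    rw [← ht i, map_pow (sy (O i)), sy_Δ])
  obtain ⟨g, hg, hnd⟩ := exists_eq_pow_rootMultiplicity_mul_and_not_dvd f hf1.ne_zero 0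
  rw [C_0, sub_zero] at hg hnd
  set m := f.rootMultiplicity 0 with hm
  have hcop : ∀ k : ℕ, IsCoprime ((X : ℚ[X]) ^ k) g := fun k =>
    IsCoprime.pow_left ((prime_X.coprime_iff_not_dvd).2 hnd)
  have hev : ∀ i, ev (O i).Δ f = 0 := by
    intro i
    have h1 := LinearMap.aeval_self_charpoly (O i).Δ
    have h2 : (O i).Δ.charpoly = _ := hf i
    rw [h2] at h1
    exact h1
  obtain ⟨u, v, huv⟩ := hcop m
  refine ⟨v * g, m, fun i => ⟨?_, ?_, ?_⟩⟩
  · intro k x hx
    obtain ⟨a, b, hab⟩ := hcop k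
    have h1 : (ev (O i).Δ (a * X ^ k + b * g)) (((O i).Δ ^ m) x) = ((O i).Δ ^ m) x := by
      rw [hab, map_one, Module.End.one_apply]
    rw [← h1]
    have h2 : ev (O i).Δ (a * X ^ k + b * g) * (O i).Δ ^ m =
        ev (O i).Δ (a * X ^ m) * (O i).Δ ^ k + ev (O i).Δ b * ev (O i).Δ f := by
      have e1 : (a * X ^ k + b * g) * X ^ m = (a * X ^ m) * X ^ k + b * f := by
        rw [hg]; ring
      have := congrArg (ev (O i).Δ) e1
      rw [map_mul (ev (O i).Δ) (a * X ^ k + b * g), map_pow (ev (O i).Δ) X m, ev_X,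
        map_add (ev (O i).Δ) (a * X ^ m * X ^ k), map_mul (ev (O i).Δ) (a * X ^ m),
        map_mul (ev (O i).Δ) b f, map_pow (ev (O i).Δ) X k, ev_X] at this
      exact this
    rw [← Module.End.mul_apply, h2, hev, mul_zero, add_zero, Module.End.mul_apply, hx, map_zero]
  · intro x
    rw [sy_aeval, sy_Δ, ← Module.End.mul_apply]
    have : (O i).Δ ^ m * ev (O i).Δ (v * g) = ev (O i).Δ v * ev (O i).Δ f := by
      have e1 : X ^ m * (v * g) = v * f := by rw [hg]; ring
      have := congrArg (ev (O i).Δ) e1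
      rw [map_mul, map_pow, ev_X, map_mul _ v f] at this
      exact this
    rw [this, hev, mul_zero, LinearMap.zero_apply]
  · intro x hx
    rw [sy_aeval, sy_Δ]
    have h1 : (ev (O i).Δ (u * X ^ m + v * g)) x = x := by
      rw [huv, map_one, Module.End.one_apply]
    rw [map_add, map_mul, map_pow, ev_X, LinearMap.add_apply, Module.End.mul_apply, hx, map_zero,
      zero_add] at h1
    exact h1

/-- The dimension of the generalised kernel of the Laplace operator is constant. -/
theorem dim_const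
    (h : ∀ a : List Letter, ∃ t : ℚ, ∀ i, LinearMap.trace (K i) (V i) ((O i).word a) = t) :
    ∃ D : ℕ, ∀ i, finrank (K i) ((O i).Δ.maxGenEigenspace 0) = D := by
  by_cases hI : Nonempty I
  swap
  · exact ⟨0, fun i => absurd ⟨i⟩ hI⟩
  obtain ⟨i0⟩ := hI
  obtain ⟨e, m, he⟩ := exists_proj h
  obtain ⟨t, ht⟩ := rat_sy h (aeval syΔ e)
  have h1 : ∀ i, ((finrank (K i) ((O i).Δ.maxGenEigenspace 0) : ℕ) : ℚ) = t := by
    intro i
    obtain ⟨e1, e2, e3⟩ := he i
    have hC : ∀ x, x ∈ (O i).Δ.maxGenEigenspace 0 ↔ ((O i).Δ ^ m) x = 0 := by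
      intro x
      rw [Module.End.mem_maxGenEigenspace]
      simp only [zero_smul, sub_zero]
      exact ⟨fun ⟨k, hk⟩ => e1 k x hk, fun hx => ⟨m, hx⟩⟩
    have h2 := LinearMap.trace_restrict_eq_of_forall_mem ((O i).Δ.maxGenEigenspace 0)
      (sy (O i) (aeval syΔ e)) (fun x => (hC _).2 (e2 x))
    rw [ht i] at h2
    have h3 : (sy (O i) (aeval syΔ e)).restrict
        (fun x (_ : x ∈ (O i).Δ.maxGenEigenspace 0) => (hC _).2 (e2 x)) = 1 := by
      apply LinearMap.ext
      intro x
      apply Subtype.ext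
      exact e3 x ((hC x).1 x.2)
    rw [h3, LinearMap.trace_one] at h2
    exact_mod_cast h2
  refine ⟨finrank (K i0) ((O i0).Δ.maxGenEigenspace 0), fun i => ?_⟩
  have := (h1 i).trans (h1 i0).symm
  exact_mod_cast this

end

end Pool.Agent.J6H2.WM
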