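import Pool.Agent.J6H2.WM.FamDefs
import Pool.Agent.J6H2.WM.Sym
import Pool.Agent.J6H2.CL.Gal2

/-!
# The weight-monodromy conjecture for systems
-/

set_option autoImplicit false
set_option linter.unusedSectionVars false

namespace Pool.Agent.J6H2.WM

open Module Polynomial Filter Topology Pool.Agent.J6H2.CL

lemma density_ne {S : Set ℕ} {δ : ℝ} (hδ : 0 < δ) (h : HasPrimeDensity S δ) (p : ℕ) :
    ∃ l ∈ S, l ≠ p := by
  by_contra hcon
  push Not at hcon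
  have h1 : ∀ N, ((S ∩ Set.Iic N).ncard : ℝ) ≤ 1 := by
    intro N
    have h2 : S ∩ Set.Iic N ⊆ {p} := fun x hx => hcon x hx.1
    have h3 := Set.ncard_le_ncard h2 (Set.finite_singleton p)
    rw [Set.ncard_singleton] at h3
    exact_mod_cast h3
  have h4 : Tendsto (fun N : ℕ => ((1 : ℝ)) / (Nat.primeCounting N : ℝ)) atTop (𝓝 0) :=
    Tendsto.div_atTop tendsto_const_nhds
      (tendsto_natCast_atTop_atTop.comp Nat.tendsto_primeCounting)
  have h5 := le_of_tendsto_of_tendsto' h.tendsto h4 (fun N =>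
    div_le_div_of_nonneg_right (h1 N) (Nat.cast_nonneg _))
  linarith

lemma map_cast_eq {K : Type} [Field K] [CharZero K] (f : ℚ[X]) (α : AlgebraicClosure K) :
    aeval α (f.map (algebraMap ℚ K)) = aeval α f := by
  rw [aeval_map_algebraMap]

/-- the index set of the terms -/
abbrev JJ (n : ℕ) := {x : ℤ × ℤ // x.1 ∈ Finset.Icc (-n : ℤ) n ∧ x.2 ∈ Finset.Icc (-n : ℤ) n}

instance (n : ℕ) : Finite (JJ n) := by
  have : Finite ((Finset.Icc (-n : ℤ) n ×ˢ Finset.Icc (-n : ℤ) n : Finset (ℤ × ℤ)) : Set (ℤ × ℤ)) :=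
    Finset.finite_toSet _
  refine Finite.of_injective (β := ((Finset.Icc (-n : ℤ) n ×ˢ Finset.Icc (-n : ℤ) n :
    Finset (ℤ × ℤ)) : Set (ℤ × ℤ)))
    (fun x => ⟨x.1, by rw [Finset.mem_coe, Finset.mem_product]; exact x.2⟩) ?_
  intro x y hxy
  exact Subtype.ext (congrArg (fun z => z.1) hxy)

section

variable {𝒪 : Family} {p q n : ℕ}

/-- the simple eigenvalues at one prime -/
lemma condA_fam (h : 𝒪.Good p q n) (l : ℕ) [Fact l.Prime] (hl : l ≠ p)
    {χ ρ : ℤ → ℤ → ℚ[X]} (hχ : ∀ r s, (𝒪.O l).SimpleOn r s (χ r s) (ρ r s))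
    (hτ : ∃ τ : AlgebraicClosure ℚ_[l] ≃ₐ[ℚ_[l]] AlgebraicClosure ℚ_[l], ∀ j : JJ n,
      ∀ α : AlgebraicClosure ℚ_[l], aeval α (χ j.1.1 j.1.2) = 0 →
        τ α = aeval α (ρ j.1.1 j.1.2)) :
    CondA (𝒪.O l) := by
  have hv := h.valid l hl
  obtain ⟨τ, hτ⟩ := hτ
  refine condA hv (h.polarised l hl) hχ (fun r s => ⟨τ, ?_⟩)
  intro α hα
  by_cases hrs : r ∈ Finset.Icc (-n : ℤ) n ∧ s ∈ Finset.Icc (-n : ℤ) n
  · rw [map_cast_eq] at hα ⊢
    exact hτ ⟨(r, s), hrs⟩ α hα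
  · exfalso
    have h1 : (𝒪.O l).p r s = 0 := by
      refine hv.gr.bound r s ?_
      simp only [Finset.mem_Icc, ← abs_le] at hrs
      rw [not_and_or, not_le, not_le] at hrs
      exact hrs
    have h2 : (𝒪.O l).T r s = ⊥ := by
      unfold Ops.T
      rw [h1, LinearMap.range_zero, bot_inf_eq]
    have h3 : Subsingleton ((𝒪.O l).T r s) := by
      rw [h2]
      infer_instance
    obtain ⟨G, hG, -, -, -, hchar, -⟩ := hχ r s
    have h4 : (G.restrict hG).charpoly = 1 := by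
      refine (LinearMap.charpoly_monic _).natDegree_eq_zero.1 ?_
      rw [LinearMap.charpoly_natDegree, Module.finrank_zero_of_subsingleton]
    rw [← hchar, h4, map_one] at hα
    exact one_ne_zero hα

/-- **The weight-monodromy conjecture for a set of primes of positive density.** -/
theorem wm_density (h : 𝒪.Good p q n) :
    ∃ (S : Set ℕ) (δ : ℝ), 0 < δ ∧ HasPrimeDensity S δ ∧
      ∀ (l : ℕ) [Fact l.Prime], l ∈ S → l ≠ p → CondA (𝒪.O l) := by
  choose χ ρ hχw hχ using h.simple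
  have hne : ∀ r s, χ r s ≠ 0 := by
    intro r s h0
    obtain ⟨l, hl1, hl2⟩ := Nat.exists_infinite_primes (p + 1)
    have : Fact l.Prime := ⟨hl2⟩
    obtain ⟨G, hG, -, -, -, hchar, -⟩ := hχ r s l (by omega)
    rw [h0, Polynomial.map_zero] at hchar
    exact (LinearMap.charpoly_monic _).ne_zero hchar
  obtain ⟨S, δ, hδ, hS, hmain⟩ := good_density' (J := JJ n) (fun j => χ j.1.1 j.1.2)
    (fun j => ρ j.1.1 j.1.2) (fun j => hne _ _) (fun j z hz => hχw _ _ z hz)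
  refine ⟨S, δ, hδ, hS, fun l _ hl hlp => ?_⟩
  exact condA_fam h l hlp (fun r s => hχ r s l hlp) (hmain l hl)

/-- the vanishing at all primes -/
theorem van_all (h : 𝒪.Good p q n) (hR : 𝒪.Rational p) {B : ℕ}
    (hB : 𝒪.Betti p B) (l : ℕ) [Fact l.Prime] (hl : l ≠ p) :
    Van (𝒪.O l) := by
  obtain ⟨S, δ, hδ, hS, hmain⟩ := wm_density h
  obtain ⟨l0, hl0, hl0p⟩ := density_ne hδ hS p
  have : Fact l0.Prime := ⟨hS.prime l0 hl0⟩
  let I := {l : ℕ // l.Prime ∧ l ≠ p}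
  have hI : ∀ i : I, Fact (i.1).Prime := fun i => ⟨i.2.1⟩
  obtain ⟨D, hD⟩ := dim_const (I := I) (K := fun i => ℚ_[i.1]) (V := fun i => 𝒪.V i.1)
    (O := fun i => 𝒪.O i.1) (fun a => by
      obtain ⟨t, ht⟩ := hR a
      exact ⟨t, fun i => ht i.1 i.2.2⟩)
  have h0 := (betti_van (h.valid l0 hl0p) (hB l0 hl0p)).1
    (van_of_condA (h.valid l0 hl0p) (hmain l0 hl0 hl0p))
  have h1 := hD ⟨l0, hS.prime l0 hl0, hl0p⟩
  have h2 := hD ⟨l, Fact.out, hl⟩
  refine (betti_van (h.valid l hl) (hB l hl)).2 ?_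
  rw [← h0]
  exact h2.trans h1.symm

/-- **The weight-monodromy conjecture for systems.** -/
theorem wm_main (h : 𝒪.Good p q n) :
    (∃ (S : Set ℕ) (δ : ℝ), 0 < δ ∧ HasPrimeDensity S δ ∧
      ∀ (l : ℕ) [Fact l.Prime], l ∈ S → l ≠ p → (𝒪.O l).WeightMonodromy) ∧
    (𝒪.Rational p → ∀ B : ℕ, 𝒪.Betti p B →
      ∀ (l : ℕ) [Fact l.Prime], l ≠ p → (𝒪.O l).WeightMonodromy) := by
  constructor
  · obtain ⟨S, δ, hδ, hS, hmain⟩ := wm_density h
    exact ⟨S, δ, hδ, hS, fun l _ hl hlp =>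
      wm_of_van (h.valid l hlp) (van_of_condA (h.valid l hlp) (hmain l hl hlp))⟩
  · intro hR B hB l _ hl
    exact wm_of_van (h.valid l hl) (van_all h hR hB l hl)

end

end Pool.Agent.J6H2.WM
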