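import Pool.Agent.J6H2.WM.InvDefs
import Pool.Agent.J6H2.WM.Main1
import Pool.Agent.Y142.Iso

/-!
# The local factor
-/

set_option autoImplicit false
set_option linter.unusedSectionVars false

namespace Pool.Agent.J6H2.WM

open Module Polynomial

section

variable {F : Type} [Field F] [Infinite F]

theorem charpoly_surj {V V' : Type} [AddCommGroup V] [Module F V]
    [FiniteDimensional F V] [AddCommGroup V'] [Module F V'] [FiniteDimensional F V']
    {e : V →ₗ[F] V} {e' : V' →ₗ[F] V'} (π : V →ₗ[F] V') (hπ : Function.Surjective π)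
    (hc : ∀ x, π (e x) = e' (π x)) (he : ∀ x ∈ LinearMap.ker π, e x ∈ LinearMap.ker π) :
    e.charpoly = (e.restrict he).charpoly * e'.charpoly := by
  rw [Pool.Agent.Y142.charpoly_eq_mul (W := LinearMap.ker π) he]
  congr 1
  rw [← LinearEquiv.charpoly_conj (π.quotKerEquivOfSurjective hπ)]
  congr 1
  apply LinearMap.ext
  intro y
  obtain ⟨x, rfl⟩ := hπ y
  rw [LinearEquiv.conj_apply_apply]
  have h2 : (π.quotKerEquivOfSurjective hπ).symm (π x) = (LinearMap.ker π).mkQ x := by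
    rw [LinearEquiv.symm_apply_eq]
    rfl
  rw [h2, Submodule.mkQ_apply, Submodule.mapQ_apply]
  exact hc x

end

variable {K V : Type} [Field K] [CharZero K] [AddCommGroup V] [Module K V]
  [FiniteDimensional K V] {O : Ops K V} {q n m : ℕ} {e : ℚ[X]}

/-- the part of the generalised kernel of `Δ` in the degrees `(r, s)`, `r ≥ a` -/
def XX (O : Ops K V) (m : ℕ) (a s : ℤ) : Submodule K V where
  carrier := {x | (O.Δ ^ m) x = 0 ∧ ∀ r s', (s' ≠ s ∨ r < a) → O.p r s' x = 0}
  zero_mem' := ⟨map_zero _, fun _ _ _ => map_zero _⟩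
  add_mem' := by
    rintro x y ⟨h1, h2⟩ ⟨h3, h4⟩
    exact ⟨by rw [map_add, h1, h3, add_zero], fun r s' h => by
      rw [map_add, h2 r s' h, h4 r s' h, add_zero]⟩
  smul_mem' := by
    rintro c x ⟨h1, h2⟩
    exact ⟨by rw [map_smul, h1, smul_zero], fun r s' h => by rw [map_smul, h2 r s' h, smul_zero]⟩

/-- the projector onto the degrees `(r, s)`, `r ≥ a` -/
noncomputable def PP (O : Ops K V) (n : ℕ) (a s : ℤ) : End K V :=
  ∑ r ∈ Finset.Icc a (n : ℤ), O.p r s

/-- the properties of the projector onto the generalised kernel -/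
structure IsE (O : Ops K V) (m : ℕ) (e : ℚ[X]) : Prop where
  e1 : ∀ (k : ℕ) (x : V), (O.Δ ^ k) x = 0 → (O.Δ ^ m) x = 0
  e2 : ∀ x, (O.Δ ^ m) (ev O.Δ e x) = 0
  e3 : ∀ x, (O.Δ ^ m) x = 0 → ev O.Δ e x = x

lemma ev_comm {A u : End K V} (h : A * u = u * A) (f : ℚ[X]) : A * ev u f = ev u f * A := by
  have hc : Commute A u := h
  induction f using Polynomial.induction_on' with
  | add f g hf hg => rw [map_add, mul_add, add_mul, hf, hg]
  | monomial k c =>
    rw [← C_mul_X_pow_eq_monomial, ev_C_mul, map_pow, ev_X, mul_smul_comm, smul_mul_assoc,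
      (hc.pow_right k).eq]

lemma trace_pow {P F : End K V} {X : Submodule K V} (hP : ∀ x, P x ∈ X) (hP1 : ∀ x ∈ X, P x = x)
    (hF : ∀ x ∈ X, F x ∈ X) (j : ℕ) :
    LinearMap.trace K X ((F.restrict hF) ^ j) = LinearMap.trace K V (F ^ j * P) := by
  have hFj : ∀ x ∈ X, (F ^ j) x ∈ X := by
    induction j with
    | zero => intro x hx; exact hx
    | succ j ih => intro x hx; rw [pow_succ, Module.End.mul_apply]; exact ih _ (hF x hx)
  rw [← LinearMap.trace_restrict_eq_of_forall_mem X (F ^ j * P) (fun x => hFj _ (hP x))]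
  congr 1
  apply LinearMap.ext
  intro x
  apply Subtype.ext
  rw [LinearMap.restrict_apply]
  change _ = (F ^ j) (P x)
  rw [hP1 x x.2]
  clear hFj
  induction j with
  | zero => rfl
  | succ j ih => rw [pow_succ', pow_succ', Module.End.mul_apply, Module.End.mul_apply, ← ih]; rfl

lemma aeval_restr {T : End K V} {X : Submodule K V} (hX : ∀ x ∈ X, T x ∈ X) (M : ℤ[X])
    (x : X) : ((aeval (T.restrict hX) M) x : V) = (aeval T M) x := by
  have hp : ∀ k : ℕ, (((T.restrict hX) ^ k) x : V) = (T ^ k) x := by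
    intro k
    induction k with
    | zero => rfl
    | succ k ih => rw [pow_succ', pow_succ', Module.End.mul_apply, Module.End.mul_apply, ← ih]; rfl
  induction M using Polynomial.induction_on' with
  | add f g hf hg =>
    rw [map_add, map_add, LinearMap.add_apply, LinearMap.add_apply, Submodule.coe_add, hf, hg]
  | monomial k c =>
    rw [aeval_monomial, aeval_monomial, eq_intCast, eq_intCast, Module.End.mul_apply,
      Module.End.mul_apply, Module.End.intCast_apply, Module.End.intCast_apply, AddSubgroupClass.coe_zsmul,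
      hp]

section

variable (h : O.Valid q n)
include h

lemma p_PP (r' s' a s : ℤ) :
    O.p r' s' * PP O n a s = if s' = s ∧ a ≤ r' then O.p r' s' else 0 := by
  unfold PP
  rw [Finset.mul_sum]
  split_ifs with hif
  · obtain ⟨rfl, ha⟩ := hif
    by_cases hn : r' ≤ n
    · rw [Finset.sum_eq_single r']
      · exact h.gr.idem _ _
      · intro r _ hr
        exact h.gr.orth _ _ _ _ (Or.inl (Ne.symm hr))
      · intro h1
        exact absurd (Finset.mem_Icc.2 ⟨ha, hn⟩) h1
    · have h0 : O.p r' s' = 0 := h.gr.bound _ _ (Or.inl (by rw [lt_abs]; omega))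
      rw [h0]
      exact Finset.sum_eq_zero fun r _ => zero_mul _
  · refine Finset.sum_eq_zero fun r hr => h.gr.orth _ _ _ _ ?_
    rw [Finset.mem_Icc] at hr
    by_contra hcon
    push Not at hcon
    exact hif ⟨hcon.2, by omega⟩

lemma ext_comp {x y : V} (hxy : ∀ r s, O.p r s x = O.p r s y) : x = y := by
  have h1 : ∀ z : V, z = (∑ r ∈ Finset.Icc (-n : ℤ) n, ∑ s ∈ Finset.Icc (-n : ℤ) n, O.p r s) z := by
    intro z
    rw [h.gr.total]
    rfl
  rw [h1 x, h1 y]
  simp only [LinearMap.sum_apply, hxy]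

lemma PP_mem {a s : ℤ} (x : V) (hx : (O.Δ ^ m) x = 0) : PP O n a s x ∈ XX O m a s := by
  refine ⟨?_, fun r s' hrs => ?_⟩
  · unfold PP
    rw [LinearMap.sum_apply, map_sum]
    exact Finset.sum_eq_zero fun r _ => by rw [p_pow h, hx, map_zero]
  · rw [← Module.End.mul_apply, p_PP h, if_neg, LinearMap.zero_apply]
    rintro ⟨h1, h2⟩
    rcases hrs with h3 | h3
    · exact h3 h1
    · omega

lemma PP_fix {a s : ℤ} {x : V} (hx : x ∈ XX O m a s) : PP O n a s x = x := by
  refine ext_comp h fun r s' => ?_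
  rw [← Module.End.mul_apply, p_PP h]
  split_ifs with hif
  · rfl
  · rw [LinearMap.zero_apply, hx.2]
    rw [not_and_or, not_le] at hif
    exact hif

lemma F_XX (hq : q ≠ 0) {a s : ℤ} : ∀ x ∈ XX O m a s, O.F x ∈ XX O m a s := by
  rintro x ⟨h1, h2⟩
  have hΔ : Commute O.F O.Δ := by
    have c1 : Commute O.F O.d := h.frob.Fd
    have c2 : Commute O.F O.δ := F_δ h hq
    exact (c1.mul_right c2).add_right (c2.mul_right c1)
  refine ⟨?_, fun r s' hrs => ?_⟩
  · have := congrE (hΔ.pow_right m).eq x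
    rw [Module.End.mul_apply, Module.End.mul_apply, h1, map_zero] at this
    exact this.symm
  · have := congrE (h.gr.degF r s') x
    rw [Module.End.mul_apply, Module.End.mul_apply, h2 r s' hrs, map_zero] at this
    exact this.symm

lemma N_comp (r s : ℤ) (x : V) : O.p r s (O.N x) = O.N (O.p (r - 2) s x) := by
  have := congrE (h.gr.degN (r - 2) s) x
  rw [sub_add_cancel] at this
  exact this.symm

lemma N_XX {s : ℤ} : ∀ x ∈ XX O m 0 s, O.N x ∈ XX O m 2 s := by
  rintro x ⟨h1, h2⟩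
  refine ⟨?_, fun r s' hrs => ?_⟩
  · have := N_pow h m 1 x
    rw [pow_one, h1, map_zero] at this
    exact this.symm
  · rw [N_comp h, h2, map_zero]
    rcases hrs with h3 | h3
    · exact Or.inl h3
    · exact Or.inr (by omega)

lemma N_pow_comp (k : ℕ) (r s : ℤ) (x : V) :
    O.p (r + 2 * k) s ((O.N ^ k) x) = (O.N ^ k) (O.p r s x) := by
  induction k generalizing r x with
  | zero => simp
  | succ k ih =>
    rw [pow_succ', Module.End.mul_apply, Module.End.mul_apply, N_comp h, ← ih]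
    congr 3
    push_cast
    ring

lemma N_surj {s : ℤ} (y : V) (hy : y ∈ XX O m 2 s) : ∃ x ∈ XX O m 0 s, O.N x = y := by
  -- one component
  have h1 : ∀ r : ℤ, 2 ≤ r → ∃ x ∈ XX O m 0 s, O.N x = O.p r s y := by
    intro r hr
    obtain ⟨k, rfl⟩ : ∃ k : ℕ, r = k + 2 := ⟨(r - 2).toNat, by omega⟩
    obtain ⟨x, hx1, hx2⟩ := h.lef.surj (k + 2) s (O.p (k + 2) s y) (by
      push_cast
      exact congrE (h.gr.idem _ _) y)
    have hΔ : (O.Δ ^ m) x = 0 := by
      apply h.lef.inj (k + 2) s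
      · rw [← p_pow h, hx1]
      · rw [N_pow h, hx2, p_pow h, hy.1, map_zero]
    refine ⟨(O.N ^ (k + 1)) x, ⟨by rw [← N_pow h, hΔ, map_zero], fun r' s' hrs => ?_⟩, ?_⟩
    · have h3 := N_pow_comp h (k + 1) (r' - 2 * (k + 1 : ℕ)) s' x
      rw [sub_add_cancel] at h3
      have h5 : O.p (r' - 2 * (k + 1 : ℕ)) s' (O.p (-((k + 2 : ℕ) : ℤ)) s x) = 0 := by
        refine congrE (h.gr.orth _ _ _ _ ?_) x
        rcases hrs with h4 | h4
        · exact Or.inr h4
        · exact Or.inl (by push_cast; omega)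
      rw [hx1] at h5
      rw [h3, h5, map_zero]
    · rw [← Module.End.mul_apply, ← pow_succ']
      exact hx2
  choose! f hf using h1
  refine ⟨∑ r ∈ Finset.Icc (2 : ℤ) n, f r, ?_, ?_⟩
  · exact Submodule.sum_mem _ fun r hr => (hf r (Finset.mem_Icc.1 hr).1).1
  · rw [map_sum, Finset.sum_congr rfl fun r hr => (hf r (Finset.mem_Icc.1 hr).1).2,
      ← LinearMap.sum_apply]
    exact PP_fix h hy

lemma ker_N_XX {s : ℤ} {x : V} (hx : O.InDeg s x) (hΔ : (O.Δ ^ m) x = 0) (hN : O.N x = 0) :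
    x ∈ XX O m 0 s := by
  refine ⟨hΔ, fun r s' hrs => ?_⟩
  by_cases hs : s' = s
  · subst hs
    have hr : r < 0 := hrs.resolve_left (by simp)
    obtain ⟨k, rfl⟩ : ∃ k : ℕ, r = -((k + 1 : ℕ) : ℤ) := ⟨(-r - 1).toNat, by omega⟩
    refine h.lef.inj (k + 1) s' _ (congrE (h.gr.idem _ _) x) ?_
    rw [← N_pow_comp h, pow_succ, Module.End.mul_apply, hN, map_zero, map_zero]
  · exact hx _ _ hs

lemma meet_range (hV : Van O) (hE : IsE O m e) {x z : V} (hx : (O.Δ ^ m) x = 0)
    (hz : x = O.d z) : x = 0 := by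
  rw [← hE.e3 x hx, hz]
  have h1 := congrE (ev_comm (d_Δ h) e) z
  rw [Module.End.mul_apply, Module.End.mul_apply] at h1
  rw [← h1]
  exact hV m _ (hE.e2 z)

lemma split_closed (hV : Van O) (hE : IsE O m e) {x : V} (hx : O.d x = 0) :
    ∃ y, x - ev O.Δ e x = O.d y := by
  obtain ⟨M, hM1, hM, hfit⟩ := exists_fit O.Δ
  have hz : x ∈ LinearMap.ker (O.Δ ^ M) ⊔ LinearMap.range (O.Δ ^ M) := by
    rw [hM.sup_eq_top]; trivial
  obtain ⟨a, ha, b, ⟨c, rfl⟩, hab⟩ := Submodule.mem_sup.1 hz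
  have h1 : ev O.Δ e x = a := by
    rw [← hab, map_add, hE.e3 a (hE.e1 M a ha)]
    have h2 : Commute (O.Δ ^ M) (ev O.Δ e) := by
      have : Commute O.Δ (ev O.Δ e) := ev_comm rfl e
      exact this.pow_left M
    have h3 := congrE h2.eq c
    rw [Module.End.mul_apply, Module.End.mul_apply, hfit m _ (hE.e2 c)] at h3
    rw [← h3, add_zero]
  have h4 : x - ev O.Δ e x = (O.Δ ^ M) c := by rw [h1, ← hab]; abel
  have h5 : O.d ((O.Δ ^ M) c) = 0 := by
    rw [← h4, map_sub, hx, hV m _ (hE.e2 x), sub_zero]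
  obtain ⟨y, hy⟩ := acyclic h hM1 hM ⟨c, rfl⟩ h5
  exact ⟨_, h4.trans hy⟩

variable {s : ℤ} {H : Type} [AddCommGroup H] [Module K H] [FiniteDimensional K H]
  {Φ NH : End K H} {ρ : V →ₗ[K] H}

lemma InDeg_N {x : V} (hx : O.InDeg s x) : O.InDeg s (O.N x) := fun r s' hs => by
  rw [N_comp h, hx _ _ hs, map_zero]

lemma InDeg_F {x : V} (hx : O.InDeg s x) : O.InDeg s (O.F x) := fun r s' hs => by
  have := congrE (h.gr.degF r s') x
  rw [Module.End.mul_apply, Module.End.mul_apply, hx _ _ hs, map_zero] at this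
  exact this.symm

lemma d_N {x : V} (hx : O.d x = 0) : O.d (O.N x) = 0 := by
  have := congrE h.dif.dN x
  rw [Module.End.mul_apply, Module.End.mul_apply, hx, map_zero] at this
  exact this

lemma d_F {x : V} (hx : O.d x = 0) : O.d (O.F x) = 0 := by
  have := congrE h.frob.Fd x
  rw [Module.End.mul_apply, Module.End.mul_apply, hx, map_zero] at this
  exact this.symm

lemma N_F (x : V) : O.N (O.F x) = (q : K) • O.F (O.N x) := congrE h.frob.FN x

lemma Φ_ker (hc : O.Computes s Φ NH ρ) : ∀ y ∈ LinearMap.ker NH, Φ y ∈ LinearMap.ker NH := by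
  intro y hy
  obtain ⟨x, hx, hd, rfl⟩ := hc.surj y
  rw [LinearMap.mem_ker, ← hc.mon x hx hd] at hy
  rw [LinearMap.mem_ker, ← hc.frob x hx hd, ← hc.mon _ (InDeg_F h hx) (d_F h hd), N_F h, map_smul,
    hc.frob _ (InDeg_N h hx) (d_N h hd), hy, map_zero, smul_zero]

lemma XX_InDeg {a : ℤ} {x : V} (hx : x ∈ XX O m a s) : O.InDeg s x :=
  fun r s' hs => hx.2 r s' (Or.inl hs)

lemma qF_XX (hq : q ≠ 0) {a s : ℤ} : ∀ x ∈ XX O m a s, ((q : K) • O.F) x ∈ XX O m a s :=
  fun x hx => Submodule.smul_mem _ _ (F_XX h hq x hx)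

/-- The operator `N` from the degrees `≥ 0` to the degrees `≥ 2`. -/
def Nres (O : Ops K V) (m : ℕ) (s : ℤ) (hN : ∀ x ∈ XX O m 0 s, O.N x ∈ XX O m 2 s) :
    XX O m 0 s →ₗ[K] XX O m 2 s := O.N.restrict hN

lemma Nres_com (hq : q ≠ 0) (x : XX O m 0 s) : Nres O m s (N_XX h)
    (O.F.restrict (F_XX h hq (m := m) (a := 0) (s := s)) x) =
      (((q : K) • O.F).restrict (qF_XX h hq (m := m) (a := 2) (s := s))) (Nres O m s (N_XX h) x) :=
  Subtype.ext (N_F h x)

lemma Nres_ker (hq : q ≠ 0) : ∀ x ∈ LinearMap.ker (Nres O m s (N_XX h)),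
    (O.F.restrict (F_XX h hq (m := m) (a := 0) (s := s))) x ∈
      LinearMap.ker (Nres O m s (N_XX h)) := by
  intro x hx
  rw [LinearMap.mem_ker, Nres_com h hq, LinearMap.mem_ker.1 hx, map_zero]

/-- The operator `F` on the kernel of `N` in the generalised kernel of `Δ`. -/
noncomputable def FK (O : Ops K V) {q n m : ℕ} {s : ℤ} (h : O.Valid q n) (hq : q ≠ 0) :
    End K (LinearMap.ker (Nres O m s (N_XX h))) :=
  (O.F.restrict (F_XX h hq (m := m) (a := 0) (s := s))).restrict (Nres_ker h hq)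

lemma aeval_FK (hq : q ≠ 0) {M : ℤ[X]} (hM : aeval O.F M = 0) :
    aeval (FK O h hq (m := m) (s := s)) M = 0 := by
  apply LinearMap.ext
  intro x
  apply Subtype.ext
  apply Subtype.ext
  unfold FK
  rw [aeval_restr, aeval_restr, hM]
  rfl

/-- The characteristic polynomial of `F` on the kernel of `N`. -/
theorem charpoly_FK (hq : q ≠ 0) :
    (O.F.restrict (F_XX h hq (m := m) (a := 0) (s := s))).charpoly =
      (FK O h hq (m := m) (s := s)).charpoly *
      (((q : K) • O.F).restrict (qF_XX h hq (m := m) (a := 2) (s := s))).charpoly := by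
  have hπ : Function.Surjective (Nres O m s (N_XX h)) := by
    rintro ⟨y, hy⟩
    obtain ⟨x, hx, hxy⟩ := N_surj h y hy
    exact ⟨⟨x, hx⟩, Subtype.ext hxy⟩
  exact charpoly_surj _ hπ (Nres_com h hq) (Nres_ker h hq)

/-- The characteristic polynomial of `Φ` on the kernel of `NH`. -/
theorem charpoly_inv (hq : q ≠ 0) (hV : Van O) (hE : IsE O m e) (hc : O.Computes s Φ NH ρ) :
    (Φ.restrict (Φ_ker h hc)).charpoly = (FK O h hq (m := m) (s := s)).charpoly := by
  set π : XX O m 0 s →ₗ[K] XX O m 2 s := Nres O m s (N_XX h) with hπd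
  have hNx : ∀ x ∈ LinearMap.ker π, O.N x = 0 := fun x hx => congrArg Subtype.val hx
  have hdx : ∀ x : XX O m 0 s, O.d x = 0 := fun x => hV m x x.2.1
  let g : LinearMap.ker π →ₗ[K] LinearMap.ker NH :=
    { toFun := fun x => ⟨ρ x.1, by
        rw [LinearMap.mem_ker, ← hc.mon _ (XX_InDeg h x.1.2) (hdx x.1), hNx x.1 x.2, map_zero]⟩
      map_add' := fun x y => Subtype.ext (map_add ρ _ _)
      map_smul' := fun c x => Subtype.ext (map_smul ρ c _) }
  have hg : Function.Bijective g := by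
    constructor
    · rw [injective_iff_map_eq_zero]
      intro x hx
      have h1 : ρ x.1 = 0 := congrArg Subtype.val hx
      obtain ⟨z, hz⟩ := (hc.ker _ (XX_InDeg h x.1.2) (hdx x.1)).1 h1
      exact Subtype.ext (Subtype.ext (meet_range h hV hE x.1.2.1 hz))
    · rintro ⟨y, hy⟩
      obtain ⟨x, hx, hd, rfl⟩ := hc.surj y
      have hpE : ∀ r s' (z : V), O.p r s' (ev O.Δ e z) = ev O.Δ e (O.p r s' z) := fun r s' z =>
        congrE (ev_comm ((degΔ h).comm r s').symm e) z
      set a := ev O.Δ e x with ha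
      have ha1 : O.InDeg s a := fun r s' hs => by rw [ha, hpE, hx _ _ hs, map_zero]
      have ha2 : (O.Δ ^ m) a = 0 := hE.e2 x
      have ha3 : O.d a = 0 := hV m a ha2
      obtain ⟨z, hz⟩ := split_closed h hV hE hd
      have hρ : ρ a = ρ x := by
        have h1 : ρ (x - a) = 0 := by
          refine (hc.ker _ (fun r s' hs => ?_) ?_).2 ⟨z, hz⟩
          · rw [map_sub, hx _ _ hs, ha1 _ _ hs, sub_zero]
          · rw [map_sub, hd, ha3, sub_zero]
        rw [map_sub, sub_eq_zero] at h1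
        exact h1.symm
      have hNa : O.N a = 0 := by
        have h1 : ρ (O.N a) = 0 := by
          rw [hc.mon a ha1 ha3, hρ]
          exact hy
        obtain ⟨z', hz'⟩ := (hc.ker _ (InDeg_N h ha1) (d_N h ha3)).1 h1
        refine meet_range h hV hE ?_ hz'
        have := N_pow h m 1 a
        rw [pow_one, ha2, map_zero] at this
        exact this.symm
      have hmem := ker_N_XX h ha1 ha2 hNa
      exact ⟨⟨⟨a, hmem⟩, Subtype.ext hNa⟩, Subtype.ext hρ⟩
  let G : LinearMap.ker π ≃ₗ[K] LinearMap.ker NH := LinearEquiv.ofBijective g hg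
  rw [← LinearEquiv.charpoly_conj G (FK O h hq)]
  congr 1
  apply LinearMap.ext
  intro y
  obtain ⟨x, rfl⟩ := G.surjective y
  rw [LinearEquiv.conj_apply_apply, LinearEquiv.symm_apply_apply]
  apply Subtype.ext
  exact (hc.frob _ (XX_InDeg h x.1.2) (hdx x.1)).symm

end

end Pool.Agent.J6H2.WM
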