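import Pool.Agent.J6H2.WM.PureDefs
import Pool.Agent.J6H2.WM.Inv

/-!
# From the weight spectral sequence to the monodromy filtration
-/

set_option autoImplicit false
set_option linter.unusedSectionVars false

namespace Pool.Agent.J6H2.WM

open Module Polynomial

variable {K V : Type} [Field K] [CharZero K] [AddCommGroup V] [Module K V]
  [FiniteDimensional K V] {O : Ops K V} {q n : ℕ}

/-- the filtration -/
def MF (O : Ops K V) (s : ℤ) {H : Type} [AddCommGroup H] [Module K H] (ρ : V →ₗ[K] H) (a : ℤ) :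
    Submodule K H where
  carrier := {y | ∃ x, O.InDeg s x ∧ O.d x = 0 ∧ (∀ r, r < -a → O.p r s x = 0) ∧ ρ x = y}
  zero_mem' := ⟨0, fun _ _ _ => map_zero _, map_zero _, fun _ _ => map_zero _, map_zero _⟩
  add_mem' := by
    rintro _ _ ⟨x, h1, h2, h3, rfl⟩ ⟨y, h4, h5, h6, rfl⟩
    exact ⟨x + y, fun r s' h => by rw [map_add, h1 r s' h, h4 r s' h, add_zero],
      by rw [map_add, h2, h5, add_zero], fun r h => by rw [map_add, h3 r h, h6 r h, add_zero],
      map_add _ _ _⟩
  smul_mem' := by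
    rintro c _ ⟨x, h1, h2, h3, rfl⟩
    exact ⟨c • x, fun r s' h => by rw [map_smul, h1 r s' h, smul_zero],
      by rw [map_smul, h2, smul_zero], fun r h => by rw [map_smul, h3 r h, smul_zero],
      map_smul _ _ _⟩

section

variable (h : O.Valid q n) {s : ℤ} {H : Type} [AddCommGroup H] [Module K H]
  {Φ NH : End K H} {ρ : V →ₗ[K] H}
include h

lemma pp (r s' : ℤ) (x : V) : O.p r s' (O.p r s' x) = O.p r s' x := congrE (h.gr.idem r s') x

lemma pp0 {r s' r' s'' : ℤ} (hne : r ≠ r' ∨ s' ≠ s'') (x : V) : O.p r s' (O.p r' s'' x) = 0 :=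
  congrE (h.gr.orth r s' r' s'' hne) x

lemma d_comp (r s' : ℤ) (x : V) : O.p (r + 1) (s' + 1) (O.d x) = O.d (O.p r s' x) :=
  (congrE (h.gr.degd r s') x).symm

lemma d_p {x : V} (hx : O.d x = 0) (r s' : ℤ) : O.d (O.p r s' x) = 0 := by
  rw [← d_comp h, hx, map_zero]

lemma InDeg_p (r : ℤ) (x : V) : O.InDeg s (O.p r s x) := fun _ _ hs => pp0 h (Or.inr hs) x

lemma InDeg_Nk (k : ℕ) {x : V} (hx : O.InDeg s x) : O.InDeg s ((O.N ^ k) x) := by
  induction k with
  | zero => exact hx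
  | succ k ih => rw [pow_succ', Module.End.mul_apply]; exact InDeg_N h ih

lemma d_Nk (k : ℕ) {x : V} (hx : O.d x = 0) : O.d ((O.N ^ k) x) = 0 := by
  induction k with
  | zero => exact hx
  | succ k ih => rw [pow_succ', Module.End.mul_apply]; exact d_N h ih

lemma ρ_Nk (hc : O.Computes s Φ NH ρ) (k : ℕ) {x : V} (hx : O.InDeg s x) (hd : O.d x = 0) :
    ρ ((O.N ^ k) x) = (NH ^ k) (ρ x) := by
  induction k with
  | zero => rfl
  | succ k ih =>
    rw [pow_succ', pow_succ', Module.End.mul_apply, Module.End.mul_apply, ← ih,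
      hc.mon _ (InDeg_Nk h k hx) (d_Nk h k hd)]

lemma ρ_poly (hc : O.Computes s Φ NH ρ) (f : K[X]) {x : V} (hx : O.InDeg s x) (hd : O.d x = 0) :
    ρ ((aeval O.F f) x) = (aeval Φ f) (ρ x) ∧ O.InDeg s ((aeval O.F f) x) ∧
      O.d ((aeval O.F f) x) = 0 := by
  induction f using Polynomial.induction_on' with
  | add f g hf hg =>
    obtain ⟨a1, a2, a3⟩ := hf
    obtain ⟨b1, b2, b3⟩ := hg
    refine ⟨?_, fun r s' hs => ?_, ?_⟩
    · rw [map_add, map_add, LinearMap.add_apply, LinearMap.add_apply, map_add, a1, b1]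
    · rw [map_add, LinearMap.add_apply, map_add, a2 r s' hs, b2 r s' hs, add_zero]
    · rw [map_add, LinearMap.add_apply, map_add, a3, b3, add_zero]
  | monomial k c =>
    have hk : ρ ((O.F ^ k) x) = (Φ ^ k) (ρ x) ∧ O.InDeg s ((O.F ^ k) x) ∧ O.d ((O.F ^ k) x) = 0 := by
      induction k with
      | zero => exact ⟨rfl, hx, hd⟩
      | succ k ih =>
        obtain ⟨a1, a2, a3⟩ := ih
        refine ⟨?_, ?_, ?_⟩
        · rw [pow_succ', pow_succ', Module.End.mul_apply, Module.End.mul_apply, ← a1,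
            hc.frob _ a2 a3]
        · rw [pow_succ', Module.End.mul_apply]; exact InDeg_F h a2
        · rw [pow_succ', Module.End.mul_apply]; exact d_F h a3
    obtain ⟨a1, a2, a3⟩ := hk
    have e1 : ∀ y : V, (aeval O.F (monomial k c)) y = c • (O.F ^ k) y := by
      intro y
      rw [aeval_monomial, Module.End.mul_apply, Module.algebraMap_end_apply]
    have e2 : (aeval Φ (monomial k c)) (ρ x) = c • (Φ ^ k) (ρ x) := by
      rw [aeval_monomial, Module.End.mul_apply, Module.algebraMap_end_apply]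
    rw [e1, e2]
    refine ⟨by rw [map_smul, a1], fun r s' hs => by rw [map_smul, a2 r s' hs, smul_zero],
      by rw [map_smul, a3, smul_zero]⟩

lemma p_poly (f : K[X]) (r s' : ℤ) (x : V) :
    O.p r s' ((aeval O.F f) x) = (aeval O.F f) (O.p r s' x) := by
  have hc : Commute (O.p r s') O.F := (h.gr.degF r s').symm
  induction f using Polynomial.induction_on' with
  | add f g hf hg => rw [map_add, LinearMap.add_apply, LinearMap.add_apply, map_add, hf, hg]
  | monomial k c =>
    rw [aeval_monomial, Module.End.mul_apply, Module.algebraMap_end_apply, Module.End.mul_apply,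
      Module.algebraMap_end_apply, map_smul]
    congr 1
    exact congrE (hc.pow_right k).eq x

/-- **The weight-monodromy conjecture in terms of the monodromy filtration.** -/
theorem mwPure_of_wm (hwm : O.WeightMonodromy) (hp : O.Pure q n) (hc : O.Computes s Φ NH ρ) :
    MWPure q (n + s) Φ NH := by
  refine ⟨MF O s ρ, ⟨?_, ?_, ?_, ?_, ?_, ?_⟩, ?_⟩
  · rintro a b hab _ ⟨x, h1, h2, h3, rfl⟩
    exact ⟨x, h1, h2, fun r hr => h3 r (by omega), rfl⟩
  · refine ⟨-n - 1, ?_⟩
    rw [eq_bot_iff]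
    rintro _ ⟨x, h1, h2, h3, rfl⟩
    have hx : x = 0 := by
      refine ext_comp h fun r s' => ?_
      rw [map_zero]
      by_cases hs : s' = s
      · subst hs
        by_cases hr : r < -(-(n : ℤ) - 1)
        · exact h3 r hr
        · rw [h.gr.bound r s' (Or.inl (by rw [lt_abs]; omega)), LinearMap.zero_apply]
      · exact h1 r s' hs
    rw [hx, map_zero]
    exact Submodule.zero_mem _
  · refine ⟨n, ?_⟩
    rw [eq_top_iff]
    intro y _
    obtain ⟨x, h1, h2, rfl⟩ := hc.surj y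
    refine ⟨x, h1, h2, fun r hr => ?_, rfl⟩
    rw [h.gr.bound r s (Or.inl (by rw [lt_abs]; omega)), LinearMap.zero_apply]
  · rintro a _ ⟨x, h1, h2, h3, rfl⟩
    refine ⟨O.N x, InDeg_N h h1, d_N h h2, fun r hr => ?_, hc.mon x h1 h2⟩
    rw [N_comp h, h3 _ (by omega), map_zero]
  · rintro a _ ⟨x, h1, h2, h3, rfl⟩ ⟨x', h4, h5, h6, h7⟩
    rw [← ρ_Nk h hc a h1 h2] at h7
    have h8 : ρ ((O.N ^ a) x - x') = 0 := by rw [map_sub, h7, sub_self]
    obtain ⟨z, hz⟩ := (hc.ker _ (fun r s' hs => by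
      rw [map_sub, InDeg_Nk h a h1 r s' hs, h4 r s' hs, sub_zero]) (by
      rw [map_sub, d_Nk h a h2, h5, sub_zero])).1 h8
    obtain ⟨z', hz'⟩ := (hwm a s).1 (O.p (-a) s x) (pp h _ _ x) (d_p h h2 _ _)
      ⟨O.p (a - 1) (s - 1) z, by
        have e1 := N_pow_comp h a (-a) s x
        rw [← e1, show -(a : ℤ) + 2 * a = a by ring]
        have e2 := congrArg (O.p a s) hz
        have e3 := d_comp h (a - 1) (s - 1) z
        rw [sub_add_cancel, sub_add_cancel] at e3
        rw [e3, map_sub, h6 a (by omega), sub_zero] at e2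
        exact e2⟩
    refine ⟨x - O.p (-a) s x, fun r s' hs => ?_, ?_, fun r hr => ?_, ?_⟩
    · rw [map_sub, h1 r s' hs, InDeg_p h _ _ r s' hs, sub_zero]
    · rw [map_sub, h2, d_p h h2, sub_zero]
    · by_cases hra : r = -a
      · rw [hra, map_sub, pp h, sub_self]
      · rw [map_sub, h3 r (by omega), pp0 h (Or.inl hra), sub_zero]
    · rw [map_sub, (hc.ker _ (InDeg_p h _ _) (d_p h h2 _ _)).2 ⟨z', hz'⟩, sub_zero]
  · rintro a _ ⟨x, h1, h2, h3, rfl⟩
    obtain ⟨x1, z, hx1, hd1, hz⟩ := (hwm a s).2 (O.p a s x) (pp h _ _ x) (d_p h h2 _ _)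
    have hx1d : O.InDeg s x1 := by rw [← hx1]; exact InDeg_p h _ _
    refine ⟨ρ x1, ⟨x1, hx1d, hd1, fun r hr => ?_, rfl⟩, ?_⟩
    · rw [← hx1, pp0 h (Or.inl (by omega))]
    · refine ⟨x - O.p a s x, fun r s' hs => ?_, ?_, fun r hr => ?_, ?_⟩
      · rw [map_sub, h1 r s' hs, InDeg_p h _ _ r s' hs, sub_zero]
      · rw [map_sub, h2, d_p h h2, sub_zero]
      · by_cases hra : r = a
        · rw [hra, map_sub, pp h, sub_self]
        · rw [map_sub, h3 r (by omega), pp0 h (Or.inl hra), sub_zero]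
      · have e1 : ρ (O.p a s x - (O.N ^ a) x1) = 0 := by
          refine (hc.ker _ (fun r s' hs => ?_) ?_).2 ⟨z, by rw [hz]; abel⟩
          · rw [map_sub, InDeg_p h _ _ r s' hs, InDeg_Nk h a hx1d r s' hs, sub_zero]
          · rw [map_sub, d_p h h2, d_Nk h a hd1, sub_zero]
        rw [map_sub, sub_eq_zero] at e1
        rw [map_sub, e1, ρ_Nk h hc a hx1d hd1]
  · intro a
    obtain ⟨f, hf0, hf1, hf2⟩ := hp (-a) s
    refine ⟨f, hf0, fun z hz => ?_, ?_⟩
    · rw [hf1 z hz]
      congr 1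
      ring
    · rintro _ ⟨x, h1, h2, h3, rfl⟩
      obtain ⟨e1, e2, e3⟩ := ρ_poly h hc (f.map (algebraMap ℚ K)) h1 h2
      refine ⟨_, e2, e3, fun r hr => ?_, e1⟩
      rw [p_poly h]
      by_cases hra : r = -a
      · exact (Submodule.mem_bot K).1 (hf2 _ (hra ▸ ⟨x, rfl⟩))
      · rw [h3 r (by omega), map_zero]

/-- **The weight-monodromy conjecture for all `H^i(X)`.** -/
theorem monodromyWeight_of_wm (hwm : O.WeightMonodromy) (hp : O.Pure q n) :
    O.MonodromyWeight q n := by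
  intro i H _ _ Φ N ρ hc
  have h1 := mwPure_of_wm h hwm hp hc
  rwa [add_sub_cancel] at h1

end

end Pool.Agent.J6H2.WM
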