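import Pool.Agent.J6H2.WM.ThyDefs
import Pool.Agent.J6H2.WM.Main2
import Pool.Agent.J6H2.WM.Pure

/-!
# Theories with given traces
-/

set_option autoImplicit false
set_option linter.unusedSectionVars false

namespace Pool.Agent.J6H2.WM

open Module Polynomial Pool.Agent.J6H2.CL

/-- a theory with the traces `t` -/
structure Thy (q n : ℕ) (t : List Letter → ℚ) where
  K : Type
  V : Type
  [fK : Field K]
  [cK : CharZero K]
  [aV : AddCommGroup V]
  [mV : Module K V]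
  [dV : FiniteDimensional K V]
  O : Ops K V
  valid : O.Valid q n
  tr : ∀ a, LinearMap.trace K V (O.word a) = t a

attribute [instance] Thy.fK Thy.cK Thy.aV Thy.mV Thy.dV

variable {q n : ℕ} {t : List Letter → ℚ}

lemma thy_rat (a : List Letter) : ∃ c : ℚ, ∀ T : Thy q n t,
    LinearMap.trace T.K T.V (T.O.word a) = c := ⟨t a, fun T => T.tr a⟩

/-- the characteristic polynomial of the Laplace operator -/
theorem thy_charpoly (q n : ℕ) (t : List Letter → ℚ) : ∃ f : ℚ[X], f.Monic ∧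
    ∀ T : Thy q n t, T.O.Δ.charpoly = f.map (algebraMap ℚ T.K) ∧
      finrank T.K (T.O.Δ.maxGenEigenspace 0) = f.rootMultiplicity 0 := by
  obtain ⟨f, hf1, hf⟩ := rat_charpoly (I := Thy q n t) (K := fun T => T.K) (U := fun T => T.V)
    (fun T => T.O.Δ) (fun j => by
      obtain ⟨c, hc⟩ := rat_sy (I := Thy q n t) (K := fun T => T.K) (V := fun T => T.V)
        (O := fun T => T.O) thy_rat (syΔ ^ j)
      refine ⟨c, fun T => ?_⟩
      rw [← hc T, map_pow (sy T.O), sy_Δ])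
  refine ⟨f, hf1, fun T => ⟨hf T, ?_⟩⟩
  have h1 : T.O.Δ.charpoly = f.map (algebraMap ℚ T.K) := hf T
  rw [LinearMap.finrank_maxGenEigenspace_zero_eq, ← rootMultiplicity_eq_natTrailingDegree', h1]
  have h2 := eq_rootMultiplicity_map (p := f) (algebraMap ℚ T.K).injective 0
  rw [map_zero] at h2
  exact h2.symm

/-- The characteristic polynomials of `F` on the kernels of `N`. -/
theorem thy_FK (hq : q ≠ 0) (s : ℤ) {m : ℕ} {e : ℚ[X]} (hE : ∀ T : Thy q n t, IsE T.O m e)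
    (hI : ∃ (T : Thy q n t) (M : ℤ[X]), M.Monic ∧ aeval T.O.F M = 0) :
    ∃ P : ℤ[X], P.Monic ∧ ∀ T : Thy q n t,
      (FK T.O T.valid hq (m := m) (s := s)).charpoly = P.map (Int.castRingHom T.K) := by
  obtain ⟨f0, hf0m, hf0⟩ := rat_charpoly (I := Thy q n t) (K := fun T => T.K)
    (U := fun T => XX T.O m 0 s)
    (fun T => T.O.F.restrict (F_XX T.valid hq (m := m) (a := 0) (s := s)))
    (fun j => by
      obtain ⟨c, hc⟩ := rat_sy (I := Thy q n t) (K := fun T => T.K) (V := fun T => T.V)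
        (O := fun T => T.O) thy_rat ((lt .F) ^ j * syP n e 0 s)
      refine ⟨c, fun T => ?_⟩
      rw [← hc T, tr_XX T.valid (hE T), map_mul (sy T.O), map_pow (sy T.O), sy_lt]
      rfl)
  obtain ⟨f2, hf2m, hf2⟩ := rat_charpoly (I := Thy q n t) (K := fun T => T.K)
    (U := fun T => XX T.O m 2 s)
    (fun T => ((q : T.K) • T.O.F).restrict (qF_XX T.valid hq (m := m) (a := 2) (s := s)))
    (fun j => by
      obtain ⟨c, hc⟩ := rat_sy (I := Thy q n t) (K := fun T => T.K) (V := fun T => T.V)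
        (O := fun T => T.O) thy_rat (((q : ℚ) • lt .F) ^ j * syP n e 2 s)
      refine ⟨c, fun T => ?_⟩
      rw [← hc T, tr_XX T.valid (hE T), map_mul (sy T.O), map_pow (sy T.O), sy_smul, sy_lt,
        Rat.cast_natCast]
      rfl)
  have key : ∀ T : Thy q n t, (FK T.O T.valid hq (m := m) (s := s)).charpoly =
      (f0 /ₘ f2).map (algebraMap ℚ T.K) := by
    intro T
    have h1 := charpoly_FK T.valid hq (m := m) (s := s)
    have h2 := hf0 T
    have h3 := hf2 T
    rw [h2, h3] at h1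
    rw [map_divByMonic _ hf2m, h1, mul_comm]
    exact (mul_divByMonic_cancel_left _ (hf2m.map _)).symm
  obtain ⟨T, M, hM, hMF⟩ := hI
  obtain ⟨P, hP, hPf⟩ := int_charpoly _ hM (aeval_FK T.valid hq (m := m) (s := s) hMF) (key T)
  refine ⟨P, hP, fun T => ?_⟩
  rw [key T, hPf, Polynomial.map_map]
  congr 1
  exact RingHom.ext_int _ _

/-- **The local factors of all theories in which the Laplace operator is good.** -/
theorem thy_local (hq : q ≠ 0) (s : ℤ)
    (hI : ∃ (T : Thy q n t) (M : ℤ[X]), M.Monic ∧ aeval T.O.F M = 0) :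
    ∃ P : ℤ[X], ∀ (K V : Type) [Field K] [CharZero K] [AddCommGroup V] [Module K V]
      [FiniteDimensional K V] (O : Ops K V), O.Valid q n →
      (∀ a, LinearMap.trace K V (O.word a) = t a) → Van O →
      ∀ (H : Type) [AddCommGroup H] [Module K H] [FiniteDimensional K H]
        (Φ NH : End K H) (ρ : V →ₗ[K] H), O.Computes s Φ NH ρ →
        LocalFactor Φ NH (P.map (Int.castRingHom K)) := by
  obtain ⟨e, m, hE⟩ := exists_proj (I := Thy q n t) (K := fun T => T.K) (V := fun T => T.V)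
    (O := fun T => T.O) thy_rat
  have hE' : ∀ T : Thy q n t, IsE T.O m e := by
    intro T
    obtain ⟨h1, h2, h3⟩ := hE T
    simp only [sy_aeval, sy_Δ] at h2 h3
    exact ⟨h1, h2, h3⟩
  obtain ⟨P, hP, hPc⟩ := thy_FK hq s hE' hI
  refine ⟨P.reverse, fun K V _ _ _ _ _ O hv htr hV H _ _ _ Φ NH ρ hc => ⟨Φ_ker hv hc, ?_⟩⟩
  have h1 : IsE O m e := hE' ⟨K, V, O, hv, htr⟩
  have h2 : (FK O hv hq (m := m) (s := s)).charpoly = P.map (Int.castRingHom K) :=
    hPc ⟨K, V, O, hv, htr⟩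
  rw [charpoly_inv hv hq hV h1 hc, h2]
  unfold reverse
  rw [natDegree_map_eq_of_injective (RingHom.injective_int _), reflect_map]

/-- the Laplace operator is good in one theory if it is good in another -/
theorem thy_van {B : ℕ} (T T' : Thy q n t) (hB : T.O.Betti B) (hB' : T'.O.Betti B)
    (hV : Van T.O) : Van T'.O := by
  obtain ⟨f, -, hf⟩ := thy_charpoly q n t
  have h1 := (betti_van T.valid hB).1 hV
  refine (betti_van T'.valid hB').2 ?_
  rw [(hf T').2, ← (hf T).2, h1]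

section

variable {𝒪 : Family} {p B : ℕ}

/-- the theories of a family -/
noncomputable def thyOf (h : 𝒪.Good p q n) (ht : ∀ (a : List Letter) (l : ℕ) [Fact l.Prime],
    l ≠ p → LinearMap.trace ℚ_[l] (𝒪.V l) ((𝒪.O l).word a) = t a) (l : ℕ) [Fact l.Prime]
    (hl : l ≠ p) : Thy q n t where
  K := ℚ_[l]
  V := 𝒪.V l
  O := 𝒪.O l
  valid := h.valid l hl
  tr := fun a => ht a l hl

/-- the vanishing for one prime -/
lemma exists_van (h : 𝒪.Good p q n) :
    ∃ (l : ℕ) (_ : Fact l.Prime), l ≠ p ∧ Van (𝒪.O l) := by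
  obtain ⟨S, δ, hδ, hS, hmain⟩ := wm_density h
  obtain ⟨l0, hl0, hl0p⟩ := density_ne hδ hS p
  have : Fact l0.Prime := ⟨hS.prime l0 hl0⟩
  exact ⟨l0, this, hl0p, van_of_condA (h.valid l0 hl0p) (hmain l0 hl0 hl0p)⟩

/-- the companion theories -/
noncomputable def compOf {K V : Type} [Field K] [CharZero K] [AddCommGroup V] [Module K V]
    [FiniteDimensional K V] {O : Ops K V} (hC : 𝒪.Companion p q n B O)
    (ht : ∀ (a : List Letter) (l : ℕ) [Fact l.Prime],
      l ≠ p → LinearMap.trace ℚ_[l] (𝒪.V l) ((𝒪.O l).word a) = t a) : Thy q n t where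
  K := K
  V := V
  O := O
  valid := hC.valid
  tr := fun a => by
    obtain ⟨l, hl1, hl2⟩ := Nat.exists_infinite_primes (p + 1)
    have hlp : l ≠ p := by omega
    have := Fact.mk hl2
    obtain ⟨c, hc1, hc2⟩ := hC.trace a l hlp
    rw [ht a l hlp] at hc1
    rw [hc2]
    exact_mod_cast hc1.symm

/-- **Companions.** -/
theorem comp_van (h : 𝒪.Good p q n) (hR : 𝒪.Rational p) (hB : 𝒪.Betti p B)
    {K V : Type} [Field K] [CharZero K] [AddCommGroup V] [Module K V]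
    [FiniteDimensional K V] {O : Ops K V} (hC : 𝒪.Companion p q n B O) : Van O := by
  choose t ht using hR
  obtain ⟨l, hl, hlp, hV⟩ := exists_van h
  exact thy_van (thyOf h (t := t) (fun a l _ hl => ht a l hl) l hlp)
    (compOf hC (fun a l _ hl => ht a l hl)) (hB l hlp) hC.betti hV

/-- **Result A.** -/
theorem resA (h : 𝒪.Good p q n) (hR : 𝒪.Rational p) (hB : 𝒪.Betti p B)
    (l : ℕ) [Fact l.Prime] (hl : l ≠ p) : (𝒪.O l).MonodromyWeight q n :=
  monodromyWeight_of_wm (h.valid l hl) (wm_of_van (h.valid l hl) (van_all h hR hB l hl))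
    (h.pure l hl)

/-- **Result B.** -/
theorem resB (h : 𝒪.Good p q n) (hR : 𝒪.Rational p) (hB : 𝒪.Betti p B)
    {K V : Type} [Field K] [CharZero K] [AddCommGroup V] [Module K V]
    [FiniteDimensional K V] {O : Ops K V} (hC : 𝒪.Companion p q n B O) (hp : O.Pure q n) :
    O.MonodromyWeight q n :=
  monodromyWeight_of_wm hC.valid (wm_of_van hC.valid (comp_van h hR hB hC)) hp

/-- **Result C.** -/
theorem resC (hq : q ≠ 0) (h : 𝒪.Good p q n) (hR : 𝒪.Rational p) (hB : 𝒪.Betti p B)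
    (hI : ∃ (l : ℕ) (_ : Fact l.Prime) (M : ℤ[X]), l ≠ p ∧ M.Monic ∧ aeval (𝒪.O l).F M = 0)
    (i : ℤ) : ∃ P : ℤ[X],
    (∀ (l : ℕ) [Fact l.Prime], l ≠ p →
      ∀ (H : Type) [AddCommGroup H] [Module ℚ_[l] H] [FiniteDimensional ℚ_[l] H]
        (Φ N : End ℚ_[l] H) (ρ : 𝒪.V l →ₗ[ℚ_[l]] H), (𝒪.O l).Computes (i - n) Φ N ρ →
        LocalFactor Φ N (P.map (Int.castRingHom ℚ_[l]))) ∧
    ∀ (K V : Type) [Field K] [CharZero K] [AddCommGroup V] [Module K V]
      [FiniteDimensional K V] (O : Ops K V), 𝒪.Companion p q n B O →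
      ∀ (H : Type) [AddCommGroup H] [Module K H] [FiniteDimensional K H]
        (Φ N : End K H) (ρ : V →ₗ[K] H), O.Computes (i - n) Φ N ρ →
        LocalFactor Φ N (P.map (Int.castRingHom K)) := by
  have hR' := hR
  choose t ht using hR'
  have ht' : ∀ (a : List Letter) (l : ℕ) [Fact l.Prime],
      l ≠ p → LinearMap.trace ℚ_[l] (𝒪.V l) ((𝒪.O l).word a) = t a := fun a l _ hl => ht a l hl
  obtain ⟨l0, hl0, M, hl0p, hM, hMF⟩ := hI
  obtain ⟨P, hP⟩ := thy_local (q := q) (n := n) (t := t) hq (i - n)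
    ⟨thyOf h ht' l0 hl0p, M, hM, hMF⟩
  refine ⟨P, fun l _ hl H _ _ _ Φ N ρ hc => ?_, fun K V _ _ _ _ _ O hC H _ _ _ Φ N ρ hc => ?_⟩
  · exact hP _ _ _ (h.valid l hl) (fun a => ht' a l hl) (van_all h hR hB l hl) H Φ N ρ hc
  · exact hP _ _ _ hC.valid (compOf hC ht').tr (comp_van h hR hB hC) H Φ N ρ hc

/-- **Result D.** -/
theorem resD (h : 𝒪.Good p q n) :
    ∃ (S : Set ℕ) (δ : ℝ), 0 < δ ∧ HasPrimeDensity S δ ∧
      ∀ (l : ℕ) [Fact l.Prime], l ∈ S → l ≠ p → (𝒪.O l).MonodromyWeight q n := by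
  obtain ⟨S, δ, hδ, hS, hmain⟩ := wm_density h
  exact ⟨S, δ, hδ, hS, fun l _ hl hlp => monodromyWeight_of_wm (h.valid l hlp)
    (wm_of_van (h.valid l hlp) (van_of_condA (h.valid l hlp) (hmain l hl hlp))) (h.pure l hlp)⟩

/-- there is a Betti sum -/
lemma exists_betti {K V : Type} [Field K] [CharZero K] [AddCommGroup V] [Module K V]
    [FiniteDimensional K V] {O : Ops K V} (h : O.Valid q n) : ∃ B, O.Betti B := by
  have h1 : LinearMap.range O.d ≤ LinearMap.ker O.d := by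
    rintro _ ⟨x, rfl⟩
    exact dd_apply h x
  have h2 := Submodule.finrank_mono h1
  exact ⟨finrank K (LinearMap.ker O.d) - finrank K (LinearMap.range O.d), by
    unfold Ops.Betti
    omega⟩

/-- **Result A, for rigid-analytic varieties.** -/
theorem resA' (h : 𝒪.Good p q n) (hR : 𝒪.Rational p) : ∃ D : ℕ,
    (∀ (l : ℕ) [Fact l.Prime], l ≠ p → ∀ B : ℕ, (𝒪.O l).Betti B →
      B ≤ D ∧ (B = D → (𝒪.O l).MonodromyWeight q n)) ∧
    ∃ (S : Set ℕ) (δ : ℝ), 0 < δ ∧ HasPrimeDensity S δ ∧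
      ∀ (l : ℕ) [Fact l.Prime], l ∈ S → l ≠ p → (𝒪.O l).Betti D := by
  choose t ht using hR
  obtain ⟨f, -, hf⟩ := thy_charpoly q n t
  have hfin : ∀ (l : ℕ) [Fact l.Prime] (_ : l ≠ p),
      finrank ℚ_[l] ((𝒪.O l).Δ.maxGenEigenspace 0) = f.rootMultiplicity 0 := fun l _ hl =>
    (hf (thyOf h (t := t) (fun a l _ hl => ht a l hl) l hl)).2
  refine ⟨f.rootMultiplicity 0, fun l _ hl B hB => ?_, ?_⟩
  · obtain ⟨b1, b2, b3⟩ := betti_van' (h.valid l hl) hB
    rw [hfin l hl] at b2 b3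
    refine ⟨b3, fun hBD => monodromyWeight_of_wm (h.valid l hl)
      (wm_of_van (h.valid l hl) (b2 hBD.symm)) (h.pure l hl)⟩
  · obtain ⟨S, δ, hδ, hS, hmain⟩ := wm_density h
    refine ⟨S, δ, hδ, hS, fun l _ hl hlp => ?_⟩
    obtain ⟨B, hB⟩ := exists_betti (h.valid l hlp)
    have h1 := (betti_van (h.valid l hlp) hB).1 (van_of_condA (h.valid l hlp) (hmain l hl hlp))
    rw [hfin l hlp] at h1
    rwa [h1]

end

/-- **Result E.** -/
theorem resE (q n : ℕ) (t : List Letter → ℚ) : ∃ f : ℚ[X], f.Monic ∧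
    ∀ (K V : Type) [Field K] [CharZero K] [AddCommGroup V] [Module K V]
      [FiniteDimensional K V] (O : Ops K V), O.Valid q n →
      (∀ a, LinearMap.trace K V (O.word a) = t a) → ∀ B : ℕ, O.Betti B →
      O.Δ.charpoly = f.map (algebraMap ℚ K) ∧ B ≤ f.rootMultiplicity 0 ∧
      ((∀ z, O.δ (O.d z) = 0 → O.d z = 0) ↔ f.rootMultiplicity 0 = B) ∧
      (f.rootMultiplicity 0 = B → O.WeightMonodromy ∧ (O.Pure q n → O.MonodromyWeight q n)) := by
  obtain ⟨f, hfm, hf⟩ := thy_charpoly q n t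
  refine ⟨f, hfm, fun K V _ _ _ _ _ O hv htr B hB => ?_⟩
  obtain ⟨h1, h2⟩ := hf ⟨K, V, O, hv, htr⟩
  have h1' : O.Δ.charpoly = f.map (algebraMap ℚ K) := h1
  have h2' : finrank K (O.Δ.maxGenEigenspace 0) = f.rootMultiplicity 0 := h2
  obtain ⟨b1, b2, b3⟩ := betti_van' hv hB
  rw [h2'] at b1 b2 b3
  refine ⟨h1', b3, ⟨fun hA => b1 (van_of_condA hv hA), fun h => condA_of_van hv (b2 h)⟩,
    fun h => ?_⟩
  have hwm := wm_of_van hv (b2 h)
  exact ⟨hwm, fun hp => monodromyWeight_of_wm hv hwm hp⟩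

end Pool.Agent.J6H2.WM
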