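import Pool.Agent.J6H2.WM.PureDefs
import Mathlib.NumberTheory.Padics.PadicNumbers

/-!
# Systems of weight spectral sequences: definitions
-/

set_option autoImplicit false

namespace Pool.Agent.J6H2.WM

open Module Polynomial

/-- For every prime number `l`, the first terms of an `l`-adic weight spectral sequence. -/
structure Family where
  V : ℕ → Type
  [grp : ∀ l, AddCommGroup (V l)]
  [mod : ∀ (l : ℕ) [Fact l.Prime], Module ℚ_[l] (V l)]
  [fin : ∀ (l : ℕ) [Fact l.Prime], FiniteDimensional ℚ_[l] (V l)]
  O : ∀ (l : ℕ) [Fact l.Prime], Ops ℚ_[l] (V l)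

attribute [instance] Family.grp Family.mod Family.fin

/-- The hypotheses, at all primes `l ≠ p`: validity; the terms `K^{r,s}` are pure (Deligne); the
image of `π` is polarised; and the part of every term `K^{r,s}` which is killed by `π` is
multiplicity free, for an operator whose adjoint is its complex conjugate, with a characteristic
polynomial which is rational and does not depend on `l`. -/
structure Family.Good (𝒪 : Family) (p q n : ℕ) : Prop where
  valid : ∀ (l : ℕ) [Fact l.Prime], l ≠ p → (𝒪.O l).Valid q n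
  pure : ∀ (l : ℕ) [Fact l.Prime], l ≠ p → (𝒪.O l).Pure q n
  polarised : ∀ (l : ℕ) [Fact l.Prime], l ≠ p → (𝒪.O l).Polarised
  simple : ∀ r s : ℤ, ∃ χ ρ : ℚ[X],
    (∀ z : ℂ, aeval z χ = 0 → aeval z ρ = starRingEnd ℂ z) ∧
    ∀ (l : ℕ) [Fact l.Prime], l ≠ p → (𝒪.O l).SimpleOn r s χ ρ

/-- The traces of all words in the operators are rational numbers which do not depend on `l ≠ p`.
(By the theorem of Katz and Messing this is so if the operators are given by algebraic
correspondences.) -/
def Family.Rational (𝒪 : Family) (p : ℕ) : Prop :=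
  ∀ a : List Letter, ∃ t : ℚ, ∀ (l : ℕ) [Fact l.Prime], l ≠ p →
    LinearMap.trace ℚ_[l] (𝒪.V l) ((𝒪.O l).word a) = t

/-- The sum of the Betti numbers of `X` is `B`, for all `l ≠ p`. -/
def Family.Betti (𝒪 : Family) (p B : ℕ) : Prop :=
  ∀ (l : ℕ) [Fact l.Prime], l ≠ p → (𝒪.O l).Betti B

end Pool.Agent.J6H2.WM
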