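import Pool.Agent.J6H2.WM.Defs

/-!
# The local factor: definitions
-/

set_option autoImplicit false

namespace Pool.Agent.J6H2.WM

open Module Polynomial

variable {K V : Type} [Field K] [AddCommGroup V] [Module K V]

/-- `x` lies in the sum of the terms `K^{r,s}` for the given `s`. -/
def Ops.InDeg (O : Ops K V) (s : ℤ) (x : V) : Prop := ∀ r s' : ℤ, s' ≠ s → O.p r s' x = 0

/-- The space `H` with the operators `Φ` and `NH` is the sum of the terms `E_2^{r,n+s-r}` of the
spectral sequence, with the operators `F` and `N`. (It is `H^{n+s}(X)` with a lift of the Frobenius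
element and the monodromy operator: the lift splits the weight filtration.) -/
structure Ops.Computes (O : Ops K V) (s : ℤ) {H : Type} [AddCommGroup H] [Module K H]
    (Φ NH : End K H) (ρ : V →ₗ[K] H) : Prop where
  surj : ∀ y, ∃ x, O.InDeg s x ∧ O.d x = 0 ∧ ρ x = y
  ker : ∀ x, O.InDeg s x → O.d x = 0 → (ρ x = 0 ↔ ∃ z, x = O.d z)
  frob : ∀ x, O.InDeg s x → O.d x = 0 → ρ (O.F x) = Φ (ρ x)
  mon : ∀ x, O.InDeg s x → O.d x = 0 → ρ (O.N x) = NH (ρ x)

/-- `P` is the local factor `det (1 - Φ T | ker NH)`. -/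
def LocalFactor {H : Type} [AddCommGroup H] [Module K H] [FiniteDimensional K H]
    (Φ NH : End K H) (P : K[X]) : Prop :=
  ∃ h : ∀ x ∈ LinearMap.ker NH, Φ x ∈ LinearMap.ker NH, (Φ.restrict h).charpoly.reverse = P

end Pool.Agent.J6H2.WM
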