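import Pool.Agent.J6H2.WM.Core

/-!
# The Laplace operator and the weight-monodromy conjecture
-/

set_option autoImplicit false
set_option linter.unusedSectionVars false

namespace Pool.Agent.J6H2.WM

open Module Polynomial

universe u v

variable {K : Type u} {V : Type v} [Field K] [CharZero K] [AddCommGroup V] [Module K V]
  [FiniteDimensional K V] {O : Ops K V} {q n : ℕ}

/-- `δ` is injective on the image of `d` -/
def CondA (O : Ops K V) : Prop := ∀ z, O.δ (O.d z) = 0 → O.d z = 0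

/-- the differential vanishes on the generalised kernel of the Laplace operator -/
def Van (O : Ops K V) : Prop := ∀ (k : ℕ) (x : V), (O.Δ ^ k) x = 0 → O.d x = 0

lemma congrE {A B : End K V} (h : A = B) (x : V) : A x = B x := by rw [h]

section

variable (h : O.Valid q n)
include h

lemma condB (hA : CondA O) {u : V} (hu : O.d (O.δ u) = 0) : O.δ u = 0 := by
  apply w_inj h
  have h1 : O.w (O.δ u) = O.d (O.w u) := (congrE (d_w h) u).symm
  rw [h1]
  apply hA
  rw [← h1]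
  have h2 : O.δ (O.w (O.δ u)) = O.w (O.d (O.δ u)) := congrE (δ_w h) (O.δ u)
  rw [h2, hu, map_zero]

lemma dd_apply (x : V) : O.d (O.d x) = 0 := by
  have := congrE h.dif.dd x
  simpa using this

lemma δδ_apply (x : V) : O.δ (O.δ x) = 0 := by
  have := congrE (δδ h) x
  simpa using this

lemma Δ_apply (x : V) : O.Δ x = O.d (O.δ x) + O.δ (O.d x) := rfl

lemma harm (hA : CondA O) {x : V} (hx : O.Δ x = 0) : O.d x = 0 ∧ O.δ x = 0 := by
  rw [Δ_apply h] at hx
  have h1 : O.δ (O.d (O.δ x)) = 0 := by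
    have := congrArg O.δ hx
    rw [map_add, δδ_apply h, add_zero, map_zero] at this
    exact this
  have h2 := hA _ h1
  have h3 := condB h hA h2
  rw [h2, zero_add] at hx
  exact ⟨hA _ hx, h3⟩

lemma semi (hA : CondA O) {x : V} (hx : O.Δ (O.Δ x) = 0) : O.Δ x = 0 := by
  obtain ⟨h1, h2⟩ := harm h hA hx
  rw [Δ_apply h] at h1 h2
  rw [map_add, dd_apply h, zero_add] at h1
  rw [map_add, δδ_apply h, add_zero] at h2
  rw [Δ_apply h, hA _ h2, condB h hA h1, add_zero]

theorem van_of_condA (hA : CondA O) : Van O := by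
  have key : ∀ (k : ℕ) (x : V), (O.Δ ^ (k + 1)) x = 0 → O.Δ x = 0 := by
    intro k
    induction k with
    | zero => intro x hx; simpa using hx
    | succ k ih =>
      intro x hx
      rw [pow_succ, Module.End.mul_apply] at hx
      exact semi h hA (ih _ hx)
  intro k x hx
  rcases k with _ | k
  · have : x = 0 := by simpa using hx
    rw [this, map_zero]
  · exact (harm h hA (key k x hx)).1

lemma d_pow (k : ℕ) (x : V) : O.d ((O.Δ ^ k) x) = (O.Δ ^ k) (O.d x) := by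
  have h1 : Commute O.d O.Δ := d_Δ h
  exact congrE (h1.pow_right k).eq x

lemma δ_Δ : O.δ * O.Δ = O.Δ * O.δ := by
  have h3 := δδ h
  unfold Ops.Δ
  have e1 : O.δ * (O.d * O.δ + O.δ * O.d) = O.δ * O.d * O.δ + (O.δ * O.δ) * O.d := by
    noncomm_ring
  have e2 : (O.d * O.δ + O.δ * O.d) * O.δ = O.d * (O.δ * O.δ) + O.δ * O.d * O.δ := by
    noncomm_ring
  rw [e1, e2, h3, zero_mul, mul_zero, zero_add, add_zero]

lemma N_pow (k j : ℕ) (x : V) : (O.N ^ j) ((O.Δ ^ k) x) = (O.Δ ^ k) ((O.N ^ j) x) := by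
  have h1 : Commute O.N O.Δ := N_Δ h
  exact congrE ((h1.pow_right k).pow_left j).eq x

lemma p_pow (k : ℕ) (r s : ℤ) (x : V) : (O.Δ ^ k) (O.p r s x) = O.p r s ((O.Δ ^ k) x) := by
  have h1 : Commute O.Δ (O.p r s) := (degΔ h).comm r s
  exact congrE (h1.pow_left k).eq x

end

/-- a Fitting exponent -/
lemma exists_fit (A : End K V) : ∃ M : ℕ, 1 ≤ M ∧ IsCompl (LinearMap.ker (A ^ M))
    (LinearMap.range (A ^ M)) ∧ ∀ (k : ℕ) (x : V), (A ^ k) x = 0 → (A ^ M) x = 0 := by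
  have h1 := LinearMap.eventually_isCompl_ker_pow_range_pow A
  have h2 := LinearMap.eventually_iSup_ker_pow_eq A
  obtain ⟨M, h3, h4, h5⟩ := (h1.and (h2.and (Filter.eventually_ge_atTop 1))).exists
  refine ⟨M, h5, h3, fun k x hx => ?_⟩
  have h6 : x ∈ ⨆ m, LinearMap.ker (A ^ m) := Submodule.mem_iSup_of_mem k hx
  rw [h4] at h6
  exact h6

section

variable (h : O.Valid q n)
include h

/-- the complex is acyclic on the image of a power of the Laplace operator -/
lemma acyclic {M : ℕ} (hM1 : 1 ≤ M) (hM : IsCompl (LinearMap.ker (O.Δ ^ M))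
    (LinearMap.range (O.Δ ^ M))) {x : V} (hx : x ∈ LinearMap.range (O.Δ ^ M)) (hd : O.d x = 0) :
    ∃ y, x = O.d ((O.Δ ^ M) y) := by
  -- `x = Δ^(3M) y`
  have hinj : ∀ y ∈ LinearMap.range (O.Δ ^ M), (O.Δ ^ M) y = 0 → y = 0 := fun y hy h0 => by
    have : y ∈ LinearMap.ker (O.Δ ^ M) ⊓ LinearMap.range (O.Δ ^ M) := ⟨h0, hy⟩
    rwa [hM.inf_eq_bot, Submodule.mem_bot] at this
  have hsur : ∀ y ∈ LinearMap.range (O.Δ ^ M), ∃ z ∈ LinearMap.range (O.Δ ^ M),
      (O.Δ ^ M) z = y := by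
    rintro y ⟨z, rfl⟩
    have hz : z ∈ LinearMap.ker (O.Δ ^ M) ⊔ LinearMap.range (O.Δ ^ M) := by
      rw [hM.sup_eq_top]; trivial
    obtain ⟨a, ha, b, hb, rfl⟩ := Submodule.mem_sup.1 hz
    refine ⟨b, hb, ?_⟩
    rw [map_add, LinearMap.mem_ker.1 ha, zero_add]
  obtain ⟨y, hy, hyx⟩ := hsur x hx
  obtain ⟨z, hz, hzy⟩ := hsur y hy
  have hdy : O.d y = 0 := by
    obtain ⟨y', rfl⟩ := hy
    apply hinj
    · rw [d_pow h]; exact ⟨_, rfl⟩
    · rw [← d_pow h, hyx, hd]
  have hdz : O.d z = 0 := by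
    obtain ⟨z', rfl⟩ := hz
    apply hinj
    · rw [d_pow h]; exact ⟨_, rfl⟩
    · rw [← d_pow h, hzy, hdy]
  obtain ⟨M', rfl⟩ := Nat.exists_eq_add_of_le' hM1
  refine ⟨(O.Δ ^ M') (O.δ z), ?_⟩
  rw [← hyx, ← hzy]
  have h1 : (O.Δ ^ (M' + 1)) z = (O.Δ ^ M') (O.d (O.δ z)) := by
    rw [pow_succ, Module.End.mul_apply, Δ_apply h, hdz, map_zero, add_zero]
  rw [h1, ← d_pow h, ← d_pow h]

/-- **The weight-monodromy conjecture** holds if the differential vanishes on the generalised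
kernel of the Laplace operator. -/
theorem wm_of_van (hV : Van O) : O.WeightMonodromy := by
  obtain ⟨M, hM1, hM, hfit⟩ := exists_fit O.Δ
  have hdec : ∀ x : V, ∃ a b, (O.Δ ^ M) a = 0 ∧ x = a + (O.Δ ^ M) b := by
    intro x
    have hz : x ∈ LinearMap.ker (O.Δ ^ M) ⊔ LinearMap.range (O.Δ ^ M) := by
      rw [hM.sup_eq_top]; trivial
    obtain ⟨a, ha, b, ⟨c, rfl⟩, rfl⟩ := Submodule.mem_sup.1 hz
    exact ⟨a, c, ha, rfl⟩
  have hmeet : ∀ x : V, (O.Δ ^ M) x = 0 → x ∈ LinearMap.range (O.Δ ^ M) → x = 0 := by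
    intro x h1 h2
    have : x ∈ LinearMap.ker (O.Δ ^ M) ⊓ LinearMap.range (O.Δ ^ M) := ⟨h1, h2⟩
    rwa [hM.inf_eq_bot, Submodule.mem_bot] at this
  intro r s
  constructor
  · rintro x hx hdx ⟨z, hz⟩
    obtain ⟨a, b, ha, hab⟩ := hdec x
    have hda : O.d a = 0 := hV M a ha
    have hdb : O.d ((O.Δ ^ M) b) = 0 := by
      rw [hab, map_add, hda, zero_add] at hdx
      exact hdx
    obtain ⟨y, hy⟩ := acyclic h hM1 hM ⟨b, rfl⟩ hdb
    -- the harmonic part
    have hpa : O.p (-r) s a = a := by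
      have h1 : O.p (-r) s a + (O.Δ ^ M) (O.p (-r) s b) = a + (O.Δ ^ M) b := by
        rw [p_pow h, ← map_add, ← hab, hx]
      have h2 : O.p (-r) s a - a = (O.Δ ^ M) (b - O.p (-r) s b) := by
        rw [map_sub, sub_eq_sub_iff_add_eq_add, h1, add_comm]
      refine sub_eq_zero.1 (hmeet _ ?_ ⟨_, h2.symm⟩)
      rw [map_sub, p_pow h, ha, map_zero, sub_zero]
    obtain ⟨z1, z2, hz1, hz12⟩ := hdec z
    have hNa : (O.N ^ r) a = 0 := by
      refine hmeet _ (by rw [← N_pow h, ha, map_zero]) ?_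
      have h1 : (O.N ^ r) x = (O.Δ ^ M) (O.d z2) := by
        rw [hz, hz12, map_add, hV M z1 hz1, zero_add, d_pow h]
      have h2 : (O.N ^ r) a = (O.Δ ^ M) (O.d z2 - (O.N ^ r) b) := by
        rw [map_sub, ← h1, hab, map_add, N_pow h, add_sub_cancel_right]
      exact ⟨_, h2.symm⟩
    have ha0 := h.lef.inj r s a hpa hNa
    exact ⟨(O.Δ ^ M) y, by rw [hab, ha0, zero_add, hy]⟩
  · intro y hy hdy
    obtain ⟨a, b, ha, hab⟩ := hdec y
    have hda : O.d a = 0 := hV M a ha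
    have hdb : O.d ((O.Δ ^ M) b) = 0 := by
      rw [hab, map_add, hda, zero_add] at hdy
      exact hdy
    obtain ⟨z, hz⟩ := acyclic h hM1 hM ⟨b, rfl⟩ hdb
    have hpa : O.p r s a = a := by
      have h1 : O.p r s a + (O.Δ ^ M) (O.p r s b) = a + (O.Δ ^ M) b := by
        rw [p_pow h, ← map_add, ← hab, hy]
      have h2 : O.p r s a - a = (O.Δ ^ M) (b - O.p r s b) := by
        rw [map_sub, sub_eq_sub_iff_add_eq_add, h1, add_comm]
      refine sub_eq_zero.1 (hmeet _ ?_ ⟨_, h2.symm⟩)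
      rw [map_sub, p_pow h, ha, map_zero, sub_zero]
    obtain ⟨x, hx, hNx⟩ := h.lef.surj r s a hpa
    have hΔx : (O.Δ ^ M) x = 0 := by
      apply h.lef.inj r s
      · rw [← p_pow h, hx]
      · rw [N_pow h, hNx, ha]
    exact ⟨x, (O.Δ ^ M) z, hx, hV M x hΔx, by rw [hNx, ← hz, ← hab]⟩

/-- the dimension of the generalised kernel of the Laplace operator -/
theorem betti_van' {B : ℕ} (hB : O.Betti B) : (Van O → finrank K (O.Δ.maxGenEigenspace 0) = B) ∧
    (finrank K (O.Δ.maxGenEigenspace 0) = B → Van O) ∧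
    B ≤ finrank K (O.Δ.maxGenEigenspace 0) := by
  obtain ⟨M, hM1, hM, hfit⟩ := exists_fit O.Δ
  set C := LinearMap.ker (O.Δ ^ M) with hC
  set D := LinearMap.range (O.Δ ^ M) with hD
  have hCeq : O.Δ.maxGenEigenspace 0 = C := by
    ext x
    rw [Module.End.mem_maxGenEigenspace]
    constructor
    · rintro ⟨k, hk⟩
      rw [zero_smul, sub_zero] at hk
      exact hfit k x hk
    · intro hx
      exact ⟨M, by rw [zero_smul, sub_zero]; exact hx⟩
  have hrk : ∀ W : Submodule K V, finrank K (W.map O.d) +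
      finrank K (LinearMap.ker O.d ⊓ W : Submodule K V) = finrank K W := by
    intro W
    have h1 := LinearMap.finrank_range_add_finrank_ker (O.d.domRestrict W)
    rw [LinearMap.range_domRestrict] at h1
    rw [← h1]
    have h5 : (LinearMap.ker O.d ⊓ W : Submodule K V) =
        (LinearMap.ker (O.d.domRestrict W)).map W.subtype := by
      ext x
      constructor
      · rintro ⟨h3, h4⟩
        exact ⟨⟨x, h4⟩, h3, rfl⟩
      · rintro ⟨y, hy, rfl⟩
        exact ⟨hy, y.2⟩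
    rw [h5, Submodule.finrank_map_subtype_eq]
  have hV := hrk ⊤
  rw [inf_top_eq, finrank_top] at hV
  have hrange : (⊤ : Submodule K V).map O.d = LinearMap.range O.d := by
    rw [LinearMap.range_eq_map]
  rw [hrange] at hV
  have h1 := hrk C
  have h2 := hrk D
  have hCD : finrank K C + finrank K D = finrank K V := Submodule.finrank_add_eq_of_isCompl hM
  have hkD : (LinearMap.ker O.d ⊓ D : Submodule K V) = D.map O.d := by
    apply le_antisymm
    · rintro x ⟨hx1, hx2⟩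
      obtain ⟨y, hy⟩ := acyclic h hM1 hM hx2 hx1
      exact ⟨_, ⟨y, rfl⟩, hy.symm⟩
    · rintro x ⟨_, ⟨y, rfl⟩, rfl⟩
      refine ⟨dd_apply h _, ?_⟩
      rw [d_pow h]
      exact ⟨_, rfl⟩
  have hdC : C.map O.d ≤ C := by
    rintro x ⟨y, hy, rfl⟩
    change (O.Δ ^ M) (O.d y) = 0
    rw [← d_pow h, LinearMap.mem_ker.1 hy, map_zero]
  have hdD : D.map O.d ≤ D := by
    rintro x ⟨_, ⟨y, rfl⟩, rfl⟩
    rw [d_pow h]
    exact ⟨_, rfl⟩
  have hsum : finrank K (LinearMap.range O.d) = finrank K (C.map O.d) + finrank K (D.map O.d) := by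
    have h3 : LinearMap.range O.d = C.map O.d ⊔ D.map O.d := by
      rw [← Submodule.map_sup, hM.sup_eq_top, LinearMap.range_eq_map]
    have h4 := Submodule.finrank_sup_add_finrank_inf_eq (C.map O.d) (D.map O.d)
    have h5 : C.map O.d ⊓ D.map O.d = ⊥ := by
      rw [eq_bot_iff, ← hM.inf_eq_bot]
      exact inf_le_inf hdC hdD
    rw [h5, finrank_bot, add_zero] at h4
    rw [h3, h4]
  rw [hkD] at h2
  have hB' : finrank K (LinearMap.ker O.d) = finrank K (LinearMap.range O.d) + B := hB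
  have key : finrank K C = B + 2 * finrank K (C.map O.d) := by omega
  rw [hCeq]
  refine ⟨?_, ?_, by omega⟩
  · intro hv
    have : C.map O.d = ⊥ := by
      rw [eq_bot_iff]
      rintro x ⟨y, hy, rfl⟩
      exact (Submodule.mem_bot K).2 (hv M y hy)
    rw [key, this, finrank_bot, mul_zero, add_zero]
  · intro hf k x hx
    have h6 : finrank K (C.map O.d) = 0 := by omega
    rw [Submodule.finrank_eq_zero] at h6
    have h7 : O.d x ∈ C.map O.d := ⟨x, hfit k x hx, rfl⟩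
    rw [h6] at h7
    exact (Submodule.mem_bot K).1 h7

theorem betti_van {B : ℕ} (hB : O.Betti B) : (Van O → finrank K (O.Δ.maxGenEigenspace 0) = B) ∧
    (finrank K (O.Δ.maxGenEigenspace 0) = B → Van O) :=
  ⟨(betti_van' h hB).1, (betti_van' h hB).2.1⟩

/-- the converse -/
theorem condA_of_van (hV : Van O) : CondA O := by
  obtain ⟨M, hM1, hM, hfit⟩ := exists_fit O.Δ
  intro z hz
  have hz' : z ∈ LinearMap.ker (O.Δ ^ M) ⊔ LinearMap.range (O.Δ ^ M) := by
    rw [hM.sup_eq_top]; trivial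
  obtain ⟨a, ha, b, ⟨c, rfl⟩, rfl⟩ := Submodule.mem_sup.1 hz'
  have h1 : O.d (a + (O.Δ ^ M) c) = (O.Δ ^ M) (O.d c) := by
    rw [map_add, hV M a ha, zero_add, d_pow h]
  rw [h1] at hz ⊢
  have h2 : O.Δ ((O.Δ ^ M) (O.d c)) = 0 := by
    rw [Δ_apply h, hz, ← d_pow h, dd_apply h, map_zero, map_zero, add_zero]
  have h3 : (O.Δ ^ M) ((O.Δ ^ M) (O.d c)) = 0 := hfit 1 _ (by rw [pow_one]; exact h2)
  have h4 : (O.Δ ^ M) (O.d c) ∈ LinearMap.ker (O.Δ ^ M) ⊓ LinearMap.range (O.Δ ^ M) :=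
    ⟨h3, ⟨_, rfl⟩⟩
  rwa [hM.inf_eq_bot, Submodule.mem_bot] at h4

end

end Pool.Agent.J6H2.WM
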