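import Pool.Agent.J6H2.WM.Lap

/-!
# The polarised part
-/

set_option autoImplicit false
set_option linter.unusedSectionVars false

namespace Pool.Agent.J6H2.WM

open Module Polynomial

universe u v

variable {K : Type u} {V : Type v} [Field K] [CharZero K] [AddCommGroup V] [Module K V]
  [FiniteDimensional K V] {O : Ops K V} {q n : ℕ}

/-- evaluation of a rational polynomial at an operator -/
noncomputable def ev (u : End K V) : ℚ[X] →+* End K V :=
  ((aeval u : K[X] →ₐ[K] End K V) : K[X] →+* End K V).comp (mapRingHom (algebraMap ℚ K))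

lemma ev_X (u : End K V) : ev u X = u := by simp [ev]

lemma ev_C (u : End K V) (c : ℚ) : ev u (C c) = (c : K) • (1 : End K V) := by
  simp [ev, Algebra.smul_def]

lemma ev_C_mul (u : End K V) (c : ℚ) (f : ℚ[X]) : ev u (C c * f) = (c : K) • ev u f := by
  rw [map_mul, ev_C, smul_mul_assoc, one_mul]

lemma Adjoint_add {x y x' y' : End K V} (h : O.Adjoint x y) (h' : O.Adjoint x' y') :
    O.Adjoint (x + x') (y + y') := fun a b => by
  rw [LinearMap.add_apply, LinearMap.add_apply, map_add, map_add, map_add, LinearMap.add_apply,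
    h a b, h' a b]

lemma Adjoint_sub {x y x' y' : End K V} (h : O.Adjoint x y) (h' : O.Adjoint x' y') :
    O.Adjoint (x - x') (y - y') := fun a b => by
  rw [LinearMap.sub_apply, LinearMap.sub_apply, map_sub, map_sub, map_sub, LinearMap.sub_apply,
    h a b, h' a b]

lemma Adjoint_smul {x y : End K V} (c : K) (h : O.Adjoint x y) :
    O.Adjoint (c • x) (c • y) := fun a b => by
  rw [LinearMap.smul_apply, LinearMap.smul_apply, map_smul, map_smul, map_smul,
    LinearMap.smul_apply, h a b]

lemma Adjoint_mul {x y x' y' : End K V} (h : O.Adjoint x y) (h' : O.Adjoint x' y') :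
    O.Adjoint (x * x') (y' * y) := fun a b => by
  rw [Module.End.mul_apply, Module.End.mul_apply, h, h']

lemma Adjoint_one : O.Adjoint 1 1 := fun _ _ => rfl

lemma Adjoint_ev {u : End K V} (h : O.Adjoint u u) (f : ℚ[X]) : O.Adjoint (ev u f) (ev u f) := by
  induction f using Polynomial.induction_on' with
  | add f g hf hg => rw [map_add]; exact Adjoint_add hf hg
  | monomial k c =>
    rw [← C_mul_X_pow_eq_monomial, ev_C_mul, map_pow, ev_X]
    refine Adjoint_smul _ ?_
    induction k with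
    | zero => exact Adjoint_one
    | succ k ih =>
      have h1 := Adjoint_mul ih h
      rwa [← pow_succ, ← pow_succ'] at h1

section

variable {R : AddSubgroup (End K V)} (hmul : ∀ x ∈ R, ∀ y ∈ R, x * y ∈ R)
  (hsc : ∀ (c : ℚ), ∀ x ∈ R, (c : K) • x ∈ R)
  (hfin : ∃ (m : ℕ) (b : Fin m → End K V), ∀ x ∈ R, ∃ c : Fin m → ℚ, x = ∑ i, (c i : K) • b i)
  (hpos : ∀ x ∈ R, x ≠ 0 → ∀ y, O.Adjoint x y → ∃ c : ℚ, 0 < c ∧ LinearMap.trace K V (y * x) = c)

include hmul hsc

lemma ev_mem {u : End K V} (hu : u ∈ R) (f : ℚ[X]) : ev u (X * f) ∈ R := by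
  induction f using Polynomial.induction_on' with
  | add f g hf hg => rw [mul_add, map_add]; exact R.add_mem hf hg
  | monomial k c =>
    rw [← C_mul_X_pow_eq_monomial, mul_left_comm, ev_C_mul, ← pow_succ', map_pow, ev_X]
    refine hsc _ _ ?_
    induction k with
    | zero => simpa using hu
    | succ k ih => rw [pow_succ]; exact hmul _ ih _ hu

include hfin

/-- an annihilating polynomial -/
lemma exists_poly {u : End K V} (hu : u ∈ R) : ∃ f : ℚ[X], f ≠ 0 ∧ ev u (X * f) = 0 := by
  obtain ⟨m, b, hb⟩ := hfin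
  have h1 : ∀ j : Fin (m + 1), ∃ c : Fin m → ℚ, u ^ ((j : ℕ) + 1) = ∑ i, (c i : K) • b i := by
    intro j
    refine hb _ ?_
    have := ev_mem hmul hsc hu (X ^ (j : ℕ))
    rwa [← pow_succ', map_pow, ev_X] at this
  choose c hc using h1
  have h2 : ¬ LinearIndependent ℚ c := by
    intro hli
    have := hli.fintype_card_le_finrank
    rw [Fintype.card_fin, finrank_fin_fun] at this
    omega
  rw [Fintype.not_linearIndependent_iff] at h2
  obtain ⟨g, hg, j0, hj0⟩ := h2
  refine ⟨∑ j : Fin (m + 1), C (g j) * X ^ (j : ℕ), ?_, ?_⟩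
  · intro h0
    apply hj0
    have h3 := congrArg (fun f => coeff f (j0 : ℕ)) h0
    simp only [finsetSum_coeff, coeff_C_mul, coeff_X_pow, coeff_zero] at h3
    rw [Finset.sum_eq_single j0] at h3
    · simpa using h3
    · intro j _ hj
      rw [if_neg, mul_zero]
      exact fun h4 => hj (Fin.ext h4.symm)
    · simp
  · rw [Finset.mul_sum, map_sum]
    have h3 : ∀ j : Fin (m + 1), ev u (X * (C (g j) * X ^ (j : ℕ))) =
        ∑ i, (((g j * c j i : ℚ)) : K) • b i := by
      intro j
      rw [mul_left_comm, ev_C_mul, ← pow_succ', map_pow, ev_X, hc, Finset.smul_sum]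
      refine Finset.sum_congr rfl fun i _ => ?_
      rw [smul_smul]
      push_cast
      rfl
    rw [Finset.sum_congr rfl fun j _ => h3 j, Finset.sum_comm]
    refine Finset.sum_eq_zero fun i _ => ?_
    rw [← Finset.sum_smul, ← Rat.cast_sum]
    have h4 := congrFun hg i
    rw [Finset.sum_apply] at h4
    simp only [Pi.smul_apply, smul_eq_mul, Pi.zero_apply] at h4
    rw [h4, Rat.cast_zero, zero_smul]

include hpos

/-- the annihilating polynomial can be chosen with a simple zero at zero -/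
lemma exists_poly' {u : End K V} (hu : u ∈ R) (hadj : O.Adjoint u u) :
    ∃ g : ℚ[X], g.coeff 0 ≠ 0 ∧ ev u (X * g) = 0 := by
  obtain ⟨f, hf0, hf⟩ := exists_poly hmul hsc hfin hu
  obtain ⟨g, hg, hnd⟩ := exists_eq_pow_rootMultiplicity_mul_and_not_dvd f hf0 0
  rw [C_0, sub_zero] at hg hnd
  refine ⟨g, fun h0 => hnd (X_dvd_iff.2 h0), ?_⟩
  set k := f.rootMultiplicity 0 with hk
  by_contra hne
  have hsq : ∀ j : ℕ, (ev u (X * g)) ^ (2 ^ j) ≠ 0 ∧ (ev u (X * g)) ^ (2 ^ j) ∈ R ∧
      O.Adjoint ((ev u (X * g)) ^ (2 ^ j)) ((ev u (X * g)) ^ (2 ^ j)) := by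
    intro j
    induction j with
    | zero =>
      rw [pow_zero, pow_one]
      exact ⟨hne, ev_mem hmul hsc hu g, Adjoint_ev hadj _⟩
    | succ j ih =>
      obtain ⟨i1, i2, i3⟩ := ih
      rw [pow_succ, pow_mul, pow_two]
      refine ⟨fun h0 => ?_, hmul _ i2 _ i2, Adjoint_mul i3 i3⟩
      obtain ⟨c, hc, htr⟩ := hpos _ i2 i1 _ i3
      rw [h0, map_zero] at htr
      have : c = 0 := by exact_mod_cast htr.symm
      exact hc.ne' this
  apply (hsq (k + 1)).1
  have h1 : k + 1 ≤ 2 ^ (k + 1) := Nat.lt_two_pow_self.le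
  obtain ⟨j, hj⟩ := Nat.exists_eq_add_of_le h1
  rw [hj, ← map_pow, mul_pow]
  have h2 : (X : ℚ[X]) ^ (k + 1 + j) * g ^ (k + 1 + j) = (X * f) * (X ^ j * g ^ (k + j)) := by
    have e : X * f = X * (X ^ k * g) := by rw [← hg]
    rw [e]
    ring
  rw [h2, map_mul, hf, zero_mul]

/-- **positivity** -/
lemma ker_pos {a b : End K V} (ha : a ∈ R) (hb : b ∈ R) (hab : O.Adjoint a b)
    (hba : O.Adjoint b a) {x : V} (hx : b (a x) = 0) : a x = 0 := by
  obtain ⟨g, hg0, hg⟩ := exists_poly' hmul hsc hfin hpos (hmul _ hb _ ha) (Adjoint_mul hba hab)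
  set u := b * a with hu
  -- `g = c + X * p`
  have hgX := g.divX_mul_X_add
  set p := g.divX
  set c := g.coeff 0
  have h1 : ev u (X * g) = (c : K) • u + ev u (X * p) * u := by
    rw [← hgX, mul_add, map_add, add_comm, mul_comm X (C c), ev_C_mul, ev_X, ← mul_assoc, map_mul,
      ev_X]
  rw [hg] at h1
  have hc : (c : K) ≠ 0 := by exact_mod_cast hg0
  -- `a' = c a + a X p(u)`
  set e := ev u (X * p) with he
  have heR : e ∈ R := ev_mem hmul hsc (hmul _ hb _ ha) p
  have hea : O.Adjoint e e := Adjoint_ev (Adjoint_mul hba hab) _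
  have hue : u * e = e * u := by
    have : u * e = ev u (X * (X * p)) := by rw [map_mul, ev_X]
    rw [this, mul_comm, map_mul, ev_X]
  have ha' : (c : K) • a + a * e = 0 := by
    by_contra hne
    have hmem : (c : K) • a + a * e ∈ R := R.add_mem (hsc _ _ ha) (hmul _ ha _ heR)
    have hadj : O.Adjoint ((c : K) • a + a * e) ((c : K) • b + e * b) :=
      Adjoint_add (Adjoint_smul _ hab) (Adjoint_mul hab hea)
    obtain ⟨c', hc', htr⟩ := hpos _ hmem hne _ hadj
    have h2 : ((c : K) • b + e * b) * ((c : K) • a + a * e) = 0 := by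
      have h3 : ((c : K) • b + e * b) * ((c : K) • a + a * e) =
          (c : K) • ((c : K) • u + e * u) + ((c : K) • u + e * u) * e := by
        rw [hu]
        simp only [mul_add, add_mul, smul_mul_assoc, mul_smul_comm, smul_add, mul_assoc]
      rw [h3, ← h1, smul_zero, zero_mul, add_zero]
    rw [h2, map_zero] at htr
    have : c' = 0 := by exact_mod_cast htr.symm
    exact hc'.ne' this
  have h4 : (c : K) • a x = -(a (e x)) := by
    have := congrE ha' x
    rw [LinearMap.add_apply, LinearMap.smul_apply, Module.End.mul_apply, LinearMap.zero_apply] at this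
    exact eq_neg_of_add_eq_zero_left this
  have h5 : e x = 0 := by
    have h6 : e = ev u p * u := by rw [he, mul_comm, map_mul, ev_X]
    rw [h6, Module.End.mul_apply, hu, Module.End.mul_apply, hx, map_zero]
  rw [h5, map_zero, neg_zero] at h4
  exact (smul_eq_zero.1 h4).resolve_left hc

end

section

variable (h : O.Valid q n)
include h

lemma ψ_d1 (x y : V) : O.ψ (O.d1 x) y = O.ψ x (O.d1 y) := by
  unfold Ops.d1
  rw [LinearMap.sub_apply, LinearMap.sub_apply, Module.End.mul_apply, Module.End.mul_apply,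
    Module.End.mul_apply, Module.End.mul_apply, map_sub, map_sub, LinearMap.sub_apply,
    h.pair.N', h.pair.d, h.pair.d, h.pair.N']
  abel

lemma ψ_δ (x y : V) : O.ψ (O.δ x) y = O.ψ x (O.δ y) := by
  rw [δ_eq, LinearMap.sub_apply, LinearMap.sub_apply, Module.End.mul_apply, Module.End.mul_apply,
    Module.End.mul_apply, Module.End.mul_apply, map_sub, map_sub, LinearMap.sub_apply,
    h.pair.Λ, ψ_d1 h, ψ_d1 h, h.pair.Λ]
  abel

lemma adj_d : O.Adjoint O.d O.δ := fun a b => by
  rw [h.pair.d]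
  congr 1
  exact congrE (d_w h) b

lemma adj_δ : O.Adjoint O.δ O.d := fun a b => by
  rw [ψ_δ h]
  congr 1
  exact congrE (δ_w h) b

lemma adj_π : O.Adjoint O.π O.π := fun a b => by
  rw [h.pair.π]
  congr 1
  exact (congrE (w_π h) b).symm

/-- the polarised part -/
theorem pol_part (hP : O.Polarised) {z : V} (hz : O.δ (O.d z) = 0) : O.π (O.d z) = 0 := by
  obtain ⟨R, h1, h2, hmul, hsc, hfin, hpos⟩ := hP
  have hd : O.Adjoint (O.π * O.d) (O.π * O.δ) := by
    have := Adjoint_mul (adj_π h) (adj_d h)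
    rwa [← δ_π h] at this
  have hδ : O.Adjoint (O.π * O.δ) (O.π * O.d) := by
    have := Adjoint_mul (adj_π h) (adj_δ h)
    rwa [← h.proj.d] at this
  refine ker_pos hmul hsc hfin hpos h1 h2 hd hδ (x := z) ?_
  have e : (O.π * O.δ) ((O.π * O.d) z) = O.π (O.π (O.δ (O.d z))) := by
    have := congrE (δ_π h) (O.d z)
    rw [Module.End.mul_apply, Module.End.mul_apply] at this
    rw [Module.End.mul_apply, Module.End.mul_apply, ← this]
  rw [e, hz, map_zero, map_zero]

end

end Pool.Agent.J6H2.WM
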