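import Pool.Agent.J6H2.WM.InvDefs

/-!
# Monodromy-weight purity: definitions
-/

set_option autoImplicit false

namespace Pool.Agent.J6H2.WM

open Module Polynomial

section

variable {K H : Type} [Field K] [CharZero K] [AddCommGroup H] [Module K H]

/-- `M` is the monodromy filtration of the nilpotent operator `N`: a finite increasing filtration
such that `N (M_a) ⊆ M_(a - 2)` and `N ^ a` induces an isomorphism of `M_a / M_(a - 1)` with
`M_(-a) / M_(-a - 1)` for all `a ≥ 0`. -/
structure IsMonodromyFiltration (N : End K H) (M : ℤ → Submodule K H) : Prop where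
  mono : Monotone M
  bot : ∃ a, M a = ⊥
  top : ∃ a, M a = ⊤
  map : ∀ a, ∀ x ∈ M a, N x ∈ M (a - 2)
  inj : ∀ (a : ℕ), ∀ x ∈ M a, (N ^ a) x ∈ M (-a - 1) → x ∈ M (a - 1)
  surj : ∀ (a : ℕ), ∀ y ∈ M (-a), ∃ x ∈ M a, y - (N ^ a) x ∈ M (-a - 1)

/-- All eigenvalues of `Φ` on `A / B` are algebraic numbers all of whose complex conjugates have the
absolute value `q ^ (w / 2)`: a nonzero rational polynomial with such complex roots kills `A / B`. -/
def PureOn (q : ℕ) (w : ℤ) (Φ : End K H) (A B : Submodule K H) : Prop :=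
  ∃ f : ℚ[X], f ≠ 0 ∧ (∀ z : ℂ, aeval z f = 0 → ‖z‖ ^ 2 = (q : ℝ) ^ w) ∧
    ∀ x ∈ A, (aeval Φ (f.map (algebraMap ℚ K))) x ∈ B

/-- `H`, with a Frobenius lift `Φ` and the monodromy operator `N`, is monodromy-weight pure of weight
`i`: the eigenvalues of `Φ` on `M_a / M_(a - 1)` have the weight `i + a`. -/
def MWPure (q : ℕ) (i : ℤ) (Φ N : End K H) : Prop :=
  ∃ M : ℤ → Submodule K H, IsMonodromyFiltration N M ∧
    ∀ a : ℤ, PureOn q (i + a) Φ (M a) (M (a - 1))

/-- Deligne's theorem for the strata: the term `K^{r,s}` is pure of weight `n + s - r`. -/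
def Ops.Pure (O : Ops K H) (q n : ℕ) : Prop :=
  ∀ r s : ℤ, PureOn q (n + s - r) O.F (LinearMap.range (O.p r s)) ⊥

end

/-- All the groups `H^i(X)` are monodromy-weight pure: every space `H` with operators which is
computed by the part `s = i - n` of the weight spectral sequence is so, of weight `i`. -/
def Ops.MonodromyWeight {K V : Type} [Field K] [CharZero K] [AddCommGroup V] [Module K V]
    (O : Ops K V) (q n : ℕ) : Prop :=
  ∀ (i : ℤ) (H : Type) [AddCommGroup H] [Module K H] (Φ N : End K H) (ρ : V →ₗ[K] H),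
    O.Computes (i - n) Φ N ρ → MWPure q i Φ N

end Pool.Agent.J6H2.WM
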