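import Mathlib.NumberTheory.Padics.PadicNumbers
import Pool.Agent.TH658.Eq.Newt

/-!
# Families of operators whose traces are rational and constant
-/

set_option autoImplicit false
set_option linter.unusedSectionVars false

namespace Pool.Agent.J6H2.WM

open Module Polynomial

/-- Newton's identities -/
lemma newton_end {K V : Type} [Field K] [AddCommGroup V] [Module K V] [FiniteDimensional K V]
    (A : End K V) (k : ℕ) :
    (A.charpoly.reverse.coeff (k + 1)) * ((k : K) + 1) =
      - ∑ p ∈ Finset.HasAntidiagonal.antidiagonal k, A.charpoly.reverse.coeff p.1 *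
        LinearMap.trace K V (A ^ (p.2 + 1)) := by
  classical
  let b := Module.finBasis K V
  have h1 := Pool.Agent.TH658.Eq.newton (LinearMap.toMatrix b b A) k
  rw [← Matrix.reverse_charpoly, LinearMap.charpoly_toMatrix] at h1
  rw [h1]
  congr 1
  refine Finset.sum_congr rfl fun p _ => ?_
  rw [LinearMap.trace_eq_matrix_trace K b, LinearMap.toMatrix_pow]

section

variable {I : Type*} {K : I → Type} [∀ i, Field (K i)] [∀ i, CharZero (K i)] {U : I → Type}
  [∀ i, AddCommGroup (U i)] [∀ i, Module (K i) (U i)] [∀ i, FiniteDimensional (K i) (U i)]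

lemma rat_rev (A : ∀ i, End (K i) (U i))
    (h : ∀ j : ℕ, ∃ t : ℚ, ∀ i, LinearMap.trace (K i) (U i) (A i ^ j) = t) (k : ℕ) :
    ∃ c : ℚ, ∀ i, (A i).charpoly.reverse.coeff k = c := by
  induction k using Nat.strong_induction_on with
  | _ k ih =>
    rcases k with _ | k
    · refine ⟨1, fun i => ?_⟩
      rw [coeff_zero_reverse, (LinearMap.charpoly_monic _).leadingCoeff, Rat.cast_one]
    · choose! c hc using ih
      choose t ht using h
      refine ⟨-(∑ p ∈ Finset.HasAntidiagonal.antidiagonal k, c p.1 * t (p.2 + 1)) / ((k : ℚ) + 1),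
        fun i => ?_⟩
      have hk : ((k : K i) + 1) ≠ 0 := by exact_mod_cast Nat.succ_ne_zero k
      refine mul_right_cancel₀ hk ?_
      rw [newton_end]
      push_cast
      rw [div_mul_cancel₀ _ hk]
      congr 1
      refine Finset.sum_congr rfl fun p hp => ?_
      have h3 := (Finset.HasAntidiagonal.mem_antidiagonal.mp hp)
      rw [hc p.1 (by omega), ht]

/-- The characteristic polynomials are rational and constant. -/
theorem rat_charpoly (A : ∀ i, End (K i) (U i))
    (h : ∀ j : ℕ, ∃ t : ℚ, ∀ i, LinearMap.trace (K i) (U i) (A i ^ j) = t) :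
    ∃ f : ℚ[X], f.Monic ∧ ∀ i, (A i).charpoly = f.map (algebraMap ℚ (K i)) := by
  by_cases hI : Nonempty I
  swap
  · exact ⟨1, monic_one, fun i => absurd ⟨i⟩ hI⟩
  obtain ⟨i0⟩ := hI
  choose c hc using rat_rev A h
  have hD : ∃ D : ℕ, ∀ i, finrank (K i) (U i) = D := by
    obtain ⟨t, ht⟩ := h 0
    have h1 : ∀ i, ((finrank (K i) (U i) : ℕ) : ℚ) = t := by
      intro i
      have := ht i
      rw [pow_zero, LinearMap.trace_one] at this
      exact_mod_cast this
    refine ⟨finrank (K i0) (U i0), fun i => ?_⟩
    have := (h1 i).trans (h1 i0).symm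
    exact_mod_cast this
  obtain ⟨D, hD⟩ := hD
  have hf : ∀ i, (A i).charpoly = (∑ j ∈ Finset.range (D + 1), C (c (D - j)) * X ^ j : ℚ[X]).map
      (algebraMap ℚ (K i)) := by
    intro i
    ext j
    have hdeg : (A i).charpoly.natDegree = D := by rw [LinearMap.charpoly_natDegree, hD]
    rw [coeff_map, finsetSum_coeff]
    simp only [coeff_C_mul, coeff_X_pow, mul_ite, mul_one, mul_zero]
    rw [Finset.sum_ite_eq]
    by_cases hj : j ≤ D
    · rw [if_pos (Finset.mem_range.2 (by omega))]
      have h1 := hc (D - j) i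
      rw [coeff_reverse, hdeg, revAt_le (by omega), show D - (D - j) = j by omega] at h1
      rw [h1]
      exact (eq_ratCast (algebraMap ℚ (K i)) _).symm
    · rw [if_neg (by rw [Finset.mem_range]; omega), map_zero]
      exact coeff_eq_zero_of_natDegree_lt (by omega)
  refine ⟨_, ?_, hf⟩
  have h1 := LinearMap.charpoly_monic (A i0)
  rw [hf i0] at h1
  exact monic_of_injective (algebraMap ℚ (K i0)).injective h1

end

/-- a root of the characteristic polynomial is a root of every polynomial which kills `A` -/
lemma root_of_aeval {K V : Type} [Field K] [AddCommGroup V] [Module K V]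
    [FiniteDimensional K V] (A : End K V) {M : ℤ[X]} (hA : aeval A M = 0)
    {x : AlgebraicClosure K} (hx : A.charpoly.aeval x = 0) : aeval x M = 0 := by
  have h1 : (LinearMap.charpoly (A.baseChange (AlgebraicClosure K))).IsRoot x := by
    rw [LinearMap.charpoly_baseChange, IsRoot, eval_map_algebraMap]
    exact hx
  have h2 := (Module.End.hasEigenvalue_iff_isRoot_charpoly
    (A.baseChange (AlgebraicClosure K)) x).2 h1
  obtain ⟨v, hv⟩ := h2.exists_hasEigenvector
  have h3 : aeval (Module.End.baseChangeHom K (AlgebraicClosure K) V A)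
      (M.map (algebraMap ℤ K)) = 0 := by
    rw [aeval_algHom_apply, aeval_map_algebraMap, hA, map_zero]
  have h4 := Module.End.aeval_apply_of_hasEigenvector
    (p := M.map (algebraMap ℤ (AlgebraicClosure K))) hv
  rw [aeval_map_algebraMap] at h3
  have h5 : aeval (A.baseChange (AlgebraicClosure K)) (M.map (algebraMap ℤ (AlgebraicClosure K)))
      = 0 := by
    rw [aeval_map_algebraMap]
    exact h3
  rw [h5, LinearMap.zero_apply] at h4
  have h6 := (smul_eq_zero.1 h4.symm).resolve_right hv.2
  rwa [eval_map_algebraMap] at h6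

/-- integrality -/
lemma int_charpoly {K V : Type} [Field K] [CharZero K] [AddCommGroup V] [Module K V]
    [FiniteDimensional K V] (A : End K V) {M : ℤ[X]} (hM : M.Monic) (hA : aeval A M = 0)
    {f : ℚ[X]} (hf : A.charpoly = f.map (algebraMap ℚ K)) :
    ∃ g : ℤ[X], g.Monic ∧ f = g.map (Int.castRingHom ℚ) := by
  have hfm : f.Monic := by
    have h1 := LinearMap.charpoly_monic A
    rw [hf] at h1
    exact monic_of_injective (algebraMap ℚ K).injective h1
  have hcoef : ∀ j, IsIntegral ℤ (f.coeff j) := by
    intro j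
    have hsp := IsAlgClosed.splits ((A.charpoly).map (algebraMap K (AlgebraicClosure K)))
    have hint : IsIntegral ℤ (((A.charpoly).map (algebraMap K (AlgebraicClosure K))).coeff j) := by
      refine isIntegral_coeff_of_factors _ ?_ hsp ?_ j
      · rw [((LinearMap.charpoly_monic A).map _).leadingCoeff]
        exact isIntegral_one
      · intro x hx
        have hx' : (A.charpoly).aeval x = 0 := by
          have := hx
          rw [IsRoot, eval_map_algebraMap] at this
          exact this
        exact ⟨M, hM, root_of_aeval A hA hx'⟩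
    rw [coeff_map, hf, coeff_map, ← IsScalarTower.algebraMap_apply] at hint
    exact (isIntegral_algebraMap_iff (algebraMap ℚ (AlgebraicClosure K)).injective).1 hint
  have hmem : ∀ j, ∃ z : ℤ, (z : ℚ) = f.coeff j := fun j =>
    IsIntegrallyClosed.isIntegral_iff.1 (hcoef j)
  have hl : f ∈ lifts (Int.castRingHom ℚ) := by
    rw [lifts_iff_coeff_lifts]
    intro j
    obtain ⟨z, hz⟩ := hmem j
    exact ⟨z, hz⟩
  obtain ⟨g, hg1, hg2, hg3⟩ := lifts_and_natDegree_eq_and_monic hl hfm
  exact ⟨g, hg3, hg1.symm⟩

end Pool.Agent.J6H2.WM
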