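import Pool.Agent.J6H2.WM.FamDefs

/-!
# Further theories: definitions
-/

set_option autoImplicit false

namespace Pool.Agent.J6H2.WM

open Module Polynomial

/-- The first terms `O` of the weight spectral sequence of another cohomology theory of the same
variety, with coefficients in a field of characteristic zero: the sum of the Betti numbers is `B`,
and all words in the operators have the same rational traces as in the `l`-adic theories `𝒪`. (For
example crystalline cohomology, the spectral sequence of Mokrane for the Hyodo-Kato cohomology.) -/
structure Family.Companion (𝒪 : Family) (p q n B : ℕ) {K V : Type} [Field K] [AddCommGroup V]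
    [Module K V] (O : Ops K V) : Prop where
  valid : O.Valid q n
  betti : O.Betti B
  trace : ∀ (a : List Letter) (l : ℕ) [Fact l.Prime], l ≠ p → ∃ t : ℚ,
    LinearMap.trace ℚ_[l] (𝒪.V l) ((𝒪.O l).word a) = t ∧ LinearMap.trace K V (O.word a) = t

end Pool.Agent.J6H2.WM
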