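import Pool.Agent.J6H2.WM.Alg

/-!
# The Weyl element and the second differential
-/

set_option autoImplicit false
set_option linter.unusedSectionVars false

namespace Pool.Agent.J6H2.WM

open Module Polynomial

universe u v

attribute [local instance 100] LieRing.ofAssociativeRing LieAlgebra.ofAssociativeAlgebra

variable {K : Type u} {V : Type v} [Field K] [CharZero K] [AddCommGroup V] [Module K V]
  [FiniteDimensional K V]

/-- a vector of highest weight one is killed by `f ^ 2` -/
lemma hw1 {e f x : End K V} (he : (e * f - f * e) * e - e * (e * f - f * e) = (2 : K) • e)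
    (hf : (e * f - f * e) * f - f * (e * f - f * e) = -((2 : K) • f))
    (hx : (e * f - f * e) * x - x * (e * f - f * e) = x) (hex : e * x = x * e) :
    f * (f * x - x * f) = (f * x - x * f) * f := by
  by_cases hx0 : x = 0
  · simp [hx0]
  have ht : IsSl2Triple (e * f - f * e) e f := by
    refine ⟨?_, ?_, ?_, ?_⟩
    · intro h0
      rw [h0] at hx
      simp at hx
      exact hx0 hx.symm
    · rw [Ring.lie_def]
    · rw [Ring.lie_def, he, ofNat_smul_eq_nsmul]
    · rw [Ring.lie_def, hf, ofNat_smul_eq_nsmul]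
  have hP : ht.HasPrimitiveVectorWith x (1 : K) := by
    refine ⟨hx0, ?_, ?_⟩
    · rw [Ring.lie_def, hx, one_smul]
    · rw [Ring.lie_def, hex, sub_self]
  have h1 := hP.pow_toEnd_f_eq_zero_of_eq_nat (n := 1) (by simp)
  rw [pow_two, Module.End.mul_apply, LieModule.toEnd_apply_apply, LieModule.toEnd_apply_apply,
    Ring.lie_def, Ring.lie_def] at h1
  exact sub_eq_zero.1 h1

/-- conjugation of a highest weight vector of weight one by the Weyl element -/
lemma weyl1 {e f x y : End K V} (hen : IsNilpotent e) (hfn : IsNilpotent f) (hex : e * x = x * e)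
    (hy : y = f * x - x * f) (hey : e * y - y * e = x) (hfy : f * y = y * f) :
    x * (ex e * ex (-f) * ex e) = (ex e * ex (-f) * ex e) * y ∧
      y * (ex e * ex (-f) * ex e) = -((ex e * ex (-f) * ex e) * x) := by
  have h1 : x * ex e = ex e * x := ex_comm0 hex.symm
  have h2 : x * ex (-f) = ex (-f) * (x + y) :=
    ex_comm1 hfn.neg (by rw [hy]; noncomm_ring) (by rw [neg_mul, mul_neg, hfy])
  have h3 : y * ex e = ex e * (y + -x) :=
    ex_comm1 hen (by rw [← hey]; noncomm_ring) (by rw [neg_mul, mul_neg, hex])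
  have h4 : y * ex (-f) = ex (-f) * y := ex_comm0 (by rw [neg_mul, mul_neg, hfy])
  constructor
  · rw [← mul_assoc, ← mul_assoc, h1, mul_assoc (ex e), h2, mul_assoc (ex e), mul_assoc (ex (-f)),
      add_mul, h1, h3]
    noncomm_ring
  · rw [← mul_assoc, ← mul_assoc, h3, mul_assoc (ex e), add_mul, neg_mul, h4, h2, ← mul_neg,
      ← mul_add, mul_assoc (ex e), mul_assoc (ex (-f))]
    have h5 : (y + -(x + y)) * ex e = ex e * (-x) := by
      have h6 : y + -(x + y) = -x := by abel
      rw [h6, neg_mul, h1, mul_neg]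
    rw [h5]
    noncomm_ring

/-- conjugation of the semisimple element -/
lemma weylh {e f h : End K V} (hen : IsNilpotent e) (hfn : IsNilpotent f) (hh : h = e * f - f * e)
    (he : h * e - e * h = (2 : K) • e) (hf : h * f - f * h = -((2 : K) • f)) :
    h * (ex e * ex (-f) * ex e) = -((ex e * ex (-f) * ex e) * h) := by
  have he' : h * e = e * h + (2 : K) • e := by rw [← he]; abel
  have hf' : h * f = f * h + -((2 : K) • f) := by rw [← hf]; abel
  have hef : e * f = f * e + h := by rw [hh]; abel
  have h1 : h * ex e = ex e * (h + (2 : K) • e) :=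
    ex_comm1 hen he' (by rw [smul_mul_assoc, mul_smul_comm])
  have h2 : (h + (2 : K) • e) * ex (-f) = ex (-f) * ((h + (2 : K) • e) +
      ((2 : K) • f - (2 : K) • h) + (2⁻¹ : K) • (-((4 : K) • f))) := by
    refine ex_comm2 hfn.neg ?_ ?_ ?_
    · rw [add_mul, mul_neg, hf', smul_mul_assoc, mul_neg, hef, neg_mul, mul_add, mul_smul_comm]
      rw [smul_neg, smul_add]
      abel
    · rw [sub_mul, smul_mul_assoc, smul_mul_assoc, mul_neg, mul_neg, hf', neg_mul, mul_sub,
        mul_smul_comm, mul_smul_comm]
      have e1 : (2 : K) • -(f * h + -((2 : K) • f)) = -((2 : K) • (f * h)) + (4 : K) • f := by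
        rw [neg_add, neg_neg, smul_add, smul_neg, smul_smul]
        norm_num
      rw [e1, smul_neg]
      abel
    · rw [neg_mul, smul_mul_assoc, neg_mul, mul_neg, mul_neg, mul_smul_comm, smul_neg]
  have h3 : ((h + (2 : K) • e) + ((2 : K) • f - (2 : K) • h) + (2⁻¹ : K) • (-((4 : K) • f))) =
      (2 : K) • e - h := by
    have e1 : (2⁻¹ : K) • (-((4 : K) • f)) = -((2 : K) • f) := by
      rw [smul_neg, smul_smul]
      norm_num
    rw [e1, two_smul K h]
    abel
  have h4 : ((2 : K) • e - h) * ex e = ex e * (((2 : K) • e - h) + -((2 : K) • e)) := by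
    refine ex_comm1 hen ?_ (by rw [neg_mul, smul_mul_assoc, mul_neg, mul_smul_comm])
    rw [sub_mul, he', mul_sub, smul_mul_assoc, mul_smul_comm]
    abel
  have h5 : (((2 : K) • e - h) + -((2 : K) • e)) = -h := by abel
  rw [h3] at h2
  rw [h5] at h4
  rw [← mul_assoc, ← mul_assoc, h1, mul_assoc (ex e), h2, mul_assoc (ex e), mul_assoc (ex (-f)), h4,
    mul_neg, mul_neg, mul_neg, mul_assoc, mul_assoc]

end Pool.Agent.J6H2.WM
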